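import Pool.Agent.Helper96.SA.AdjDef

/-!
# Block SA-ADJ2: the Lie algebra of `Aut(L)` consists of the derivations of `L`

PROOF of `lie_autG`. `D = toLin b b X`, `φ_t = toLin b b (exp (t • X))`. If all `φ_t` are automorphisms, differentiate `φ_t ⁅x, y⁆ = ⁅φ_t x, φ_t y⁆` at `t = 0` (entrywise `hasDerivAt_exp`; coordinates with respect to `b`). Conversely, if `D` is a derivation, the function
`f t = φ_(-t) ⁅φ_t x, φ_t y⁆` (a function `ℝ → L`, in coordinates `ℝ → Fin N → ℝ`) has derivative `φ_(-t) (- D ⁅φ_t x, φ_t y⁆ + ⁅D φ_t x, φ_t y⁆ + ⁅φ_t x, D φ_t y⁆) = 0`, so `f t = f 0 = ⁅x, y⁆`. (Alternative: the Leibniz rule `D^n ⁅x, y⁆ = ∑ binom ⁅D^i x, D^j y⁆` and the power series of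
`exp`, or `L ⊗ L`: `D` intertwines `D ⊗ 1 + 1 ⊗ D` and `D` under the bracket.)
PROOF of `commute_eq_zero`. For `z : L` the matrix `Y = toMatrix b b (ad z)` is in `lie (autG b)` (Jacobi). If `D = toLin b b X` is a derivation which commutes with all `ad z`, then `⁅D z, w⁆ = D ⁅z, w⁆ - ⁅z, D w⁆ = 0` for all `w`, so `D z` is in the radical of the Killing form
(`ad (D z) = 0`), and `κ(D z, θ (D z)) = 0` gives `D z = 0` (`b` is orthonormal for `-κ(x, θ y)`, which is so positive definite). So `X = 0`.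
-/

set_option autoImplicit false

open Matrix

namespace Pool.Agent.Helper96.SA

variable {L : Type} [LieRing L] [LieAlgebra ℝ L] {N : ℕ}

open NormedSpace

theorem hasDerivAt_mulVec (X : Mat N) (w : Fin N → ℝ) (t : ℝ) (k : Fin N) :
    HasDerivAt (fun t : ℝ => (exp (t • X) *ᵥ w) k) ((X *ᵥ (exp (t • X) *ᵥ w)) k) t := by
  have h : HasDerivAt (fun t : ℝ => ∑ j, exp (t • X) k j * w j) (∑ j, (X * exp (t • X)) k j * w j) t :=
    HasDerivAt.fun_sum fun j _ => (hasDerivAt_exp X t k j).mul_const (w j)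
  rw [mulVec_mulVec]
  exact h

/-- uniqueness for linear differential equations -/
theorem ode (X : Mat N) (g : ℝ → Fin N → ℝ) (hg : ∀ t k, HasDerivAt (fun t => g t k) ((X *ᵥ g t) k) t) (t : ℝ) :
    g t = exp (t • X) *ᵥ g 0 := by
  have h1 : ∀ k t, HasDerivAt (fun t : ℝ => (exp (t • (-X)) *ᵥ g t) k) 0 t := by
    intro k t
    have h2 : HasDerivAt (fun t : ℝ => ∑ j, exp (t • (-X)) k j * g t j)
        (∑ j, (((-X) * exp (t • (-X))) k j * g t j + exp (t • (-X)) k j * (X *ᵥ g t) j)) t :=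
      HasDerivAt.fun_sum fun j _ => (hasDerivAt_exp (-X) t k j).mul (hg t j)
    have e : (∑ j, (((-X) * exp (t • (-X))) k j * g t j + exp (t • (-X)) k j * (X *ᵥ g t) j)) = 0 := by
      rw [Finset.sum_add_distrib]
      have e1 : (∑ j, ((-X) * exp (t • (-X))) k j * g t j) = (((-X) * exp (t • (-X))) *ᵥ g t) k := rfl
      have e2 : (∑ j, exp (t • (-X)) k j * (X *ᵥ g t) j) = (exp (t • (-X)) *ᵥ (X *ᵥ g t)) k := rfl
      have hc : Commute (exp (t • (-X))) X := by
        have : Commute (t • (-X)) X := ((Commute.refl X).neg_left).smul_left t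
        exact this.exp_left
      rw [e1, e2, mulVec_mulVec, hc.eq, neg_mul, neg_mulVec, Pi.neg_apply, neg_add_cancel]
    rw [e] at h2
    exact h2
  have h3 : exp (t • (-X)) *ᵥ g t = g 0 := by
    funext k
    have h4 := is_const_of_deriv_eq_zero (f := fun t : ℝ => (exp (t • (-X)) *ᵥ g t) k)
      (fun t => (h1 k t).differentiableAt) (fun t => (h1 k t).deriv) t 0
    have h4 : (exp (t • (-X)) *ᵥ g t) k = (exp ((0 : ℝ) • (-X)) *ᵥ g 0) k := h4
    rw [h4, zero_smul, exp_zero, one_mulVec]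
  have h5 : exp (t • X) * exp (t • (-X)) = 1 := by
    have h6 := (ex (t • X)).mul_inv
    rw [← ex_neg, ex_coe, ex_coe, ← smul_neg] at h6
    exact h6
  rw [← h3, mulVec_mulVec, h5, one_mulVec]

/-- the bracket in coordinates -/
noncomputable def br (b : Module.Basis (Fin N) ℝ L) (u v : Fin N → ℝ) : Fin N → ℝ :=
  fun k => ∑ i, ∑ j, u i * v j * b.repr ⁅b i, b j⁆ k

theorem br_eq (b : Module.Basis (Fin N) ℝ L) (x y : L) : b.equivFun ⁅x, y⁆ = br b (b.equivFun x) (b.equivFun y) := by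
  funext k
  have hx : x = ∑ i, b.equivFun x i • b i := (b.sum_equivFun x).symm
  have hy : y = ∑ i, b.equivFun y i • b i := (b.sum_equivFun y).symm
  conv_lhs => rw [hx, hy]
  rw [sum_lie, map_sum, Finset.sum_apply]
  refine Finset.sum_congr rfl fun i _ => ?_
  rw [lie_sum, map_sum, Finset.sum_apply]
  refine Finset.sum_congr rfl fun j _ => ?_
  rw [smul_lie, lie_smul, map_smul, map_smul, Pi.smul_apply, Pi.smul_apply, smul_eq_mul, smul_eq_mul, mul_assoc]
  rfl

theorem toLin_coord (b : Module.Basis (Fin N) ℝ L) (M : Mat N) (x : L) : b.equivFun (toLin b b M x) = M *ᵥ b.equivFun x := by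
  rw [Module.Basis.equivFun_apply, Module.Basis.equivFun_apply]
  exact Matrix.repr_toLin b b M x

theorem br_deriv (b : Module.Basis (Fin N) ℝ L) {u v : ℝ → Fin N → ℝ} {u' v' : Fin N → ℝ} {t : ℝ}
    (hu : ∀ k, HasDerivAt (fun t => u t k) (u' k) t) (hv : ∀ k, HasDerivAt (fun t => v t k) (v' k) t) (k : Fin N) :
    HasDerivAt (fun t => br b (u t) (v t) k) ((br b u' (v t) + br b (u t) v') k) t := by
  have h : HasDerivAt (fun t => ∑ i, ∑ j, u t i * v t j * b.repr ⁅b i, b j⁆ k)
      (∑ i, ∑ j, (u' i * v t j + u t i * v' j) * b.repr ⁅b i, b j⁆ k) t :=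
    HasDerivAt.fun_sum fun i _ => HasDerivAt.fun_sum fun j _ => ((hu i).mul (hv j)).mul_const _
  have e : (br b u' (v t) + br b (u t) v') k = ∑ i, ∑ j, (u' i * v t j + u t i * v' j) * b.repr ⁅b i, b j⁆ k := by
    rw [Pi.add_apply]
    unfold br
    rw [← Finset.sum_add_distrib]
    refine Finset.sum_congr rfl fun i _ => ?_
    rw [← Finset.sum_add_distrib]
    exact Finset.sum_congr rfl fun j _ => by ring
  rw [e]
  exact h

theorem lie_autG {b : Module.Basis (Fin N) ℝ L} {X : Mat N} : X ∈ lie (autG b) ↔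
    ∀ x y : L, toLin b b X ⁅x, y⁆ = ⁅toLin b b X x, y⁆ + ⁅x, toLin b b X y⁆ := by
  have hcoord : (∀ x y : L, toLin b b X ⁅x, y⁆ = ⁅toLin b b X x, y⁆ + ⁅x, toLin b b X y⁆) ↔
      ∀ u v : Fin N → ℝ, X *ᵥ br b u v = br b (X *ᵥ u) v + br b u (X *ᵥ v) := by
    constructor
    · intro h u v
      have h1 := congrArg b.equivFun (h (b.equivFun.symm u) (b.equivFun.symm v))
      rwa [toLin_coord, map_add, br_eq, br_eq, br_eq, toLin_coord, toLin_coord, LinearEquiv.apply_symm_apply,
        LinearEquiv.apply_symm_apply] at h1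
    · intro h x y
      apply b.equivFun.injective
      rw [toLin_coord, map_add, br_eq, br_eq, br_eq, toLin_coord, toLin_coord]
      exact h _ _
  have hgrp : X ∈ lie (autG b) ↔ ∀ (t : ℝ) (u v : Fin N → ℝ),
      exp (t • X) *ᵥ br b u v = br b (exp (t • X) *ᵥ u) (exp (t • X) *ᵥ v) := by
    rw [mem_lie]
    refine forall_congr' fun t => ?_
    rw [mem_autG, ex_coe]
    constructor
    · intro h u v
      have h1 := congrArg b.equivFun (h (b.equivFun.symm u) (b.equivFun.symm v))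
      rwa [toLin_coord, br_eq, br_eq, toLin_coord, toLin_coord, LinearEquiv.apply_symm_apply,
        LinearEquiv.apply_symm_apply] at h1
    · intro h x y
      apply b.equivFun.injective
      rw [toLin_coord, br_eq, br_eq, toLin_coord, toLin_coord]
      exact h _ _
  rw [hcoord, hgrp]
  constructor
  · intro h u v
    funext k
    have h1 : HasDerivAt (fun t : ℝ => (exp (t • X) *ᵥ br b u v) k) ((X *ᵥ (exp ((0 : ℝ) • X) *ᵥ br b u v)) k) 0 :=
      hasDerivAt_mulVec X (br b u v) 0 k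
    have h2 := br_deriv b (u := fun t : ℝ => exp (t • X) *ᵥ u) (v := fun t : ℝ => exp (t • X) *ᵥ v) (t := 0)
      (fun k => hasDerivAt_mulVec X u 0 k) (fun k => hasDerivAt_mulVec X v 0 k) k
    have h3 : (fun t : ℝ => (exp (t • X) *ᵥ br b u v) k) = fun t : ℝ => br b (exp (t • X) *ᵥ u) (exp (t • X) *ᵥ v) k := by
      funext t
      rw [h]
    rw [h3] at h1
    have h4 := h1.unique h2
    simp only [zero_smul, exp_zero, one_mulVec] at h4
    exact h4
  · intro h t u v
    have h1 := ode X (fun t => br b (exp (t • X) *ᵥ u) (exp (t • X) *ᵥ v)) (fun t k => by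
      rw [h]
      exact br_deriv b (fun k => hasDerivAt_mulVec X u t k) (fun k => hasDerivAt_mulVec X v t k) k) t
    rw [zero_smul, exp_zero, one_mulVec, one_mulVec] at h1
    exact h1.symm

theorem form_self {θ : L ≃ₗ⁅ℝ⁆ L} {b : Module.Basis (Fin N) ℝ L} (h : CartanBasis θ b) (x y : L) :
    -killingForm ℝ L x (θ y) = ∑ i, b.equivFun x i * b.equivFun y i := by
  have hx : x = ∑ i, b.equivFun x i • b i := (b.sum_equivFun x).symm
  have hy : y = ∑ i, b.equivFun y i • b i := (b.sum_equivFun y).symm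
  have hθ : ∀ (s : Fin N → L), θ (∑ i, s i) = ∑ i, θ (s i) := fun s => map_sum θ s _
  conv_lhs => rw [hx, hy]
  rw [map_sum, LinearMap.sum_apply, ← Finset.sum_neg_distrib]
  refine Finset.sum_congr rfl fun i _ => ?_
  rw [hθ, map_sum, ← Finset.sum_neg_distrib]
  rw [Finset.sum_eq_single i]
  · rw [map_smul, map_smul, LinearMap.smul_apply, map_smul, smul_eq_mul, smul_eq_mul, ← mul_neg, ← mul_neg, h.orth, if_pos rfl]
    ring
  · intro j _ hj
    rw [map_smul, map_smul, LinearMap.smul_apply, map_smul, smul_eq_mul, smul_eq_mul, ← mul_neg, ← mul_neg, h.orth,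
      if_neg (fun e => hj e.symm)]
    ring
  · intro hi
    exact absurd (Finset.mem_univ i) hi

theorem eq_zero_of_bracket {θ : L ≃ₗ⁅ℝ⁆ L} {b : Module.Basis (Fin N) ℝ L} (h : CartanBasis θ b) {x : L}
    (hx : ∀ w : L, ⁅x, w⁆ = 0) : x = 0 := by
  have h1 : LieAlgebra.ad ℝ L x = 0 := by
    ext w
    exact hx w
  have h2 : -killingForm ℝ L x (θ x) = 0 := by
    rw [killingForm_apply_apply, h1]
    simp
  rw [form_self h] at h2
  apply b.equivFun.injective
  rw [map_zero]
  funext i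
  have h3 := (Finset.sum_eq_zero_iff_of_nonneg (fun i _ => mul_self_nonneg (b.equivFun x i))).1 h2 i (Finset.mem_univ i)
  exact mul_self_eq_zero.1 h3

theorem commute_eq_zero {θ : L ≃ₗ⁅ℝ⁆ L} {b : Module.Basis (Fin N) ℝ L} (h : CartanBasis θ b) {X : Mat N} (hX : X ∈ lie (autG b))
    (hc : ∀ Y ∈ lie (autG b), X * Y = Y * X) : X = 0 := by
  rw [lie_autG] at hX
  have hz : ∀ z : L, toLin b b X z = 0 := by
    intro z
    refine eq_zero_of_bracket h fun w => ?_
    have h1 : LinearMap.toMatrix b b (LieAlgebra.ad ℝ L z : L →ₗ[ℝ] L) ∈ lie (autG b) := by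
      rw [lie_autG]
      intro x y
      rw [toLin_toMatrix, LieAlgebra.ad_apply, LieAlgebra.ad_apply, LieAlgebra.ad_apply]
      exact leibniz_lie z x y
    have h2 := congrArg (toLin b b) (hc _ h1)
    rw [toLin_mul b b b, toLin_mul b b b, toLin_toMatrix] at h2
    have h3 := LinearMap.congr_fun h2 w
    rw [LinearMap.comp_apply, LinearMap.comp_apply, LieAlgebra.ad_apply, LieAlgebra.ad_apply, hX] at h3
    exact add_eq_right.1 h3
  have h4 : toLin b b X = 0 := by
    ext z
    exact hz z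
  exact (toLin b b).map_eq_zero_iff.1 h4

end Pool.Agent.Helper96.SA
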