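import Pool.Agent.Helper96.SA.Exps

/-!
# Block SA-POL: polar decompositions

PROOF. `polar_alg`: `P = gᵀ g` is symmetric and positive definite (`Matrix.PosDef`), so `P = O diagonal (exp (2 d_i)) Oᵀ`, `O` orthogonal (`Matrix.IsHermitian.spectral_theorem`, eigenvalues positive, `d_i = log(eigenvalue) / 2`). `P ^ n ∈ A` for `n : ℕ`, so by algebraicity and
`eval_exp_eq_zero` all matrices `O diagonal (exp (2 t d_i)) Oᵀ` are in `A`, i.e. `X = O diagonal d Oᵀ ∈ lie A` (`exp_diag`). `k = g * ex (-X)` satisfies `kᵀ k = exp(-X) gᵀ g exp(-X) = 1`.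
`lie_eq`: let `G ≤ A` be of finite index; there is `m > 0` such that `g ^ m ∈ G` for all `g ∈ A` (`Subgroup.exists_pow_mem_of_index_ne_zero`, or the index of the normal core and Lagrange); `ex (t • X) = ex ((t / m) • X) ^ m`.
`polar`: `g = k * ex X` in `A`, `X ∈ lie A = lie G`, `ex X ∈ G`, so `k ∈ G`. `lie_transpose`: `lie A` is closed under transposition (`ex_transpose`).
-/

set_option autoImplicit false

open Matrix Filter Topology NormedSpace

namespace Pool.Agent.Helper96.SA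

variable {N : ℕ}

private theorem pol_spec26 (g : GL (Fin N) ℝ) : ∃ (U : Mat N) (μ : Fin N → ℝ), Uᵀ * U = 1 ∧ U * Uᵀ = 1 ∧
    (∀ i, 0 < μ i) ∧ (g : Mat N)ᵀ * (g : Mat N) = U * diagonal μ * Uᵀ := by
  have hinj : Function.Injective (g : Mat N).mulVec := Matrix.mulVec_injective_of_isUnit g.isUnit
  have hPD : ((g : Mat N)ᵀ * (g : Mat N)).PosDef := by
    rw [← conjTranspose_eq_transpose_of_trivial]
    exact Matrix.PosDef.conjTranspose_mul_self _ hinj
  refine ⟨hPD.1.eigenvectorUnitary, hPD.1.eigenvalues, ?_, ?_, hPD.eigenvalues_pos, ?_⟩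
  · have := Unitary.coe_star_mul_self hPD.1.eigenvectorUnitary
    rw [Matrix.star_eq_conjTranspose, conjTranspose_eq_transpose_of_trivial] at this
    exact this
  · have := Unitary.coe_mul_star_self hPD.1.eigenvectorUnitary
    rw [Unitary.coe_star, Matrix.star_eq_conjTranspose, conjTranspose_eq_transpose_of_trivial] at this
    exact this
  · have := hPD.1.spectral_theorem
    rw [Unitary.conjStarAlgAut_apply, Matrix.star_eq_conjTranspose,
      conjTranspose_eq_transpose_of_trivial] at this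
    exact this

theorem polar_alg {A : Subgroup (GL (Fin N) ℝ)} (hA : AlgSelfAdj A) {g : GL (Fin N) ℝ} (hg : g ∈ A) :
    ∃ X ∈ lie A, Xᵀ = X ∧ ∃ k ∈ A, (k : Mat N)ᵀ * (k : Mat N) = 1 ∧ g = k * ex X := by
  obtain ⟨h, hh, hht⟩ := hA.transpose g hg
  obtain ⟨U, μ, hU1, hU2, hμ, hP⟩ := pol_spec26 g
  let d : Fin N → ℝ := fun i => Real.log (μ i) / 2
  let X : Mat N := U * diagonal d * Uᵀ
  have hXt : Xᵀ = X := by
    show (U * diagonal d * Uᵀ)ᵀ = U * diagonal d * Uᵀ
    rw [transpose_mul, transpose_mul, transpose_transpose, diagonal_transpose, mul_assoc]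
  have hsm : ∀ t : ℝ, t • X = U * diagonal (fun i => t * d i) * Uᵀ := by
    intro t
    show t • (U * diagonal d * Uᵀ) = _
    rw [← smul_mul_assoc, ← mul_smul_comm, ← diagonal_smul]
    rfl
  have hexp : ∀ t : ℝ, (ex (t • X) : Mat N) = U * diagonal (fun i => Real.exp (t * d i)) * Uᵀ := by
    intro t
    rw [ex_coe, hsm, exp_diag U hU1 hU2]
  have hP2 : h * g = ex ((2 : ℝ) • X) := by
    apply Units.ext
    rw [hexp, Units.val_mul, hht, hP]
    congr 3
    funext i
    have e : 2 * d i = Real.log (μ i) := by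
      show 2 * (Real.log (μ i) / 2) = _
      ring
    rw [e, Real.exp_log (hμ i)]
  have hpow : ∀ n : ℕ, ex ((n : ℝ) • ((2 : ℝ) • X)) ∈ A := by
    intro n
    rw [ex_nsmul, ← hP2]
    exact A.pow_mem (A.mul_mem hh hg) n
  have hall : ∀ t : ℝ, ex (t • X) ∈ A := by
    obtain ⟨S, hS⟩ := hA.alg
    intro t
    rw [hS]
    intro p hp
    have h1 : ∀ n : ℕ, MvPolynomial.eval (fun ij => (U * diagonal (fun i => Real.exp (n * (2 * d i))) * Uᵀ)
        ij.1 ij.2) p = 0 := by
      intro n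
      have h2 := (hS _).1 (hpow n) p hp
      rw [smul_smul, hexp] at h2
      simp only [← mul_assoc] at h2 ⊢
      exact h2
    have h3 := eval_exp_eq_zero p U Uᵀ (fun i => 2 * d i) h1 (t / 2)
    rw [hexp]
    have e : (fun i => Real.exp (t / 2 * (2 * d i))) = fun i => Real.exp (t * d i) := by
      funext i
      congr 1
      ring
    rw [e] at h3
    exact h3
  have hXl : X ∈ lie A := mem_lie.2 hall
  have hneg : -X = (-1 : ℝ) • X := by rw [neg_smul, one_smul]
  have hk : g * ex (-X) ∈ A := by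
    rw [hneg]
    exact A.mul_mem hg (hall _)
  refine ⟨X, hXl, hXt, g * ex (-X), hk, ?_, ?_⟩
  · have h1 : ((g * ex (-X) : GL (Fin N) ℝ) : Mat N)ᵀ = ((ex (-X) * h : GL (Fin N) ℝ) : Mat N) := by
      rw [Units.val_mul, Units.val_mul, transpose_mul, ex_transpose, transpose_neg, hXt, hht]
    have h2 : (ex (-X) * h) * (g * ex (-X)) = 1 := by
      have e1 : (ex (-X) * h) * (g * ex (-X)) = ex (-X) * (h * g) * ex (-X) := by group
      rw [e1, hP2, hneg, ← ex_add_smul, ← ex_add_smul]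
      have e2 : (-1 + 2 + -1 : ℝ) = 0 := by norm_num
      rw [e2, zero_smul, ex_zero]
    rw [h1, ← Units.val_mul, h2, Units.val_one]
  · rw [ex_neg, inv_mul_cancel_right]

theorem lie_eq {G A : Subgroup (GL (Fin N) ℝ)} (hGA : G ≤ A) (hf : (G.subgroupOf A).FiniteIndex) : lie G = lie A := by
  have hne : G.relIndex A ≠ 0 := hf.index_ne_zero
  ext X
  rw [mem_lie, mem_lie]
  constructor
  · intro h t
    exact hGA (h t)
  · intro h t
    have hn : (0 : ℝ) < ((G.relIndex A).factorial : ℝ) := by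
      exact_mod_cast Nat.factorial_pos _
    have h1 := Subgroup.pow_mem_of_relIndex_ne_zero_of_dvd hne (h (t / ((G.relIndex A).factorial : ℝ)))
      (n := (G.relIndex A).factorial) (fun m hm hm' => Nat.dvd_factorial hm hm')
    rw [← ex_nsmul, smul_smul, mul_div_cancel₀ t hn.ne'] at h1
    exact (Subgroup.mem_inf.1 h1).1

theorem lie_eq' {G A : Subgroup (GL (Fin N) ℝ)} (hGA : G ≤ A) (hf : ∀ X ∈ lie A, X ∈ lie G) : lie G = lie A := by
  ext X
  refine ⟨fun h => ?_, hf X⟩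
  rw [mem_lie] at h ⊢
  exact fun t => hGA (h t)

/-- Closed subgroups of finite index. -/
theorem selfAdj_of_finiteIndex {G A : Subgroup (GL (Fin N) ℝ)} (hG : IsClosed (G : Set (GL (Fin N) ℝ)))
    (hA : AlgSelfAdj A) (hGA : G ≤ A) (hf : (G.subgroupOf A).FiniteIndex)
    (hs : ∀ X ∈ lie G, Xᵀ = X → (∀ Y ∈ lie G, X * Y = Y * X) → X = 0) : SelfAdj G :=
  ⟨hG, ⟨A, hA, hGA, fun X hX => by rw [lie_eq hGA hf]; exact hX⟩, hs⟩

theorem polar {G : Subgroup (GL (Fin N) ℝ)} (hG : SelfAdj G) {g : GL (Fin N) ℝ} (hg : g ∈ G) :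
    ∃ X ∈ lie G, Xᵀ = X ∧ ∃ k ∈ G, (k : Mat N)ᵀ * (k : Mat N) = 1 ∧ g = k * ex X := by
  obtain ⟨A, hA, hGA, hf⟩ := hG.alg
  obtain ⟨X, hX, hXt, k, hk, hkk, hgk⟩ := polar_alg hA (hGA hg)
  have hX' : X ∈ lie G := by
    rw [lie_eq' hGA hf]
    exact hX
  refine ⟨X, hX', hXt, k, ?_, hkk, hgk⟩
  have h1 := mem_lie.1 hX' 1
  rw [one_smul] at h1
  have h2 : k = g * (ex X)⁻¹ := by rw [hgk, mul_inv_cancel_right]
  rw [h2]
  exact G.mul_mem hg (G.inv_mem h1)

theorem lie_transpose {G : Subgroup (GL (Fin N) ℝ)} (hG : SelfAdj G) {X : Mat N} (hX : X ∈ lie G) : Xᵀ ∈ lie G := by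
  obtain ⟨A, hA, hGA, hf⟩ := hG.alg
  rw [lie_eq' hGA hf] at hX ⊢
  rw [mem_lie] at hX ⊢
  intro t
  obtain ⟨h, hh, hht⟩ := hA.transpose _ (hX t)
  have e : h = ex (t • Xᵀ) := by
    apply Units.ext
    rw [hht, ex_transpose, transpose_smul]
  rw [← e]
  exact hh

end Pool.Agent.Helper96.SA
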