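import Pool.Agent.Helper96.SA.Adj1
import Pool.Agent.Helper96.SA.Adj2
import Pool.Agent.Helper96.SA.Pol

/-!
# Block SA-ADJ3: adjoint groups of semisimple real Lie algebras, and their real rank

PROOF of `selfAdj_of_aut`: `algSelfAdj_autG`, `lie_sub` and `commute_eq_zero`.
PROOF of `realRank_of_aut`. `lie G = lie (autG b)` consists of the derivations (`lie_autG`), which are all inner: `LieDerivation.IsKilling.range_ad_eq_top` (the Killing form is nondegenerate since `-κ(x, θ y)` is positive definite: `LieAlgebra.IsKilling`). `ad x` has the transposed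
matrix of `- ad (θ x)` with respect to `b` (`κ(⁅x, y⁆, θ z) = - κ(y, ⁅x, θ z⁆) = - κ(y, θ ⁅θ x, z⁆)`), so `toMatrix b b (ad x)` is symmetric iff `θ x = - x`, and `ad x`, `ad y` commute iff `⁅x, y⁆ = 0` (`ad` is injective). So the flats are the images of the
subspaces `a` of the right hand side under the injective map `x ↦ toMatrix b b (ad x)`, with the same dimensions.
-/

set_option autoImplicit false

open Matrix

namespace Pool.Agent.Helper96.SA

variable {L : Type} [LieRing L] [LieAlgebra ℝ L] {N : ℕ}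

/-- The real rank of `L` (with Cartan involution `θ`): the largest dimension of a commutative subspace of the `-1`-eigenspace of `θ`. -/
noncomputable def rankL (θ : L ≃ₗ⁅ℝ⁆ L) : ℕ :=
  sSup {d | ∃ a : Submodule ℝ L, (∀ x ∈ a, θ x = -x) ∧ (∀ x ∈ a, ∀ y ∈ a, ⁅x, y⁆ = 0) ∧ Module.finrank ℝ a = d}

private theorem coord_h54 {θ : L ≃ₗ⁅ℝ⁆ L} {b : Module.Basis (Fin N) ℝ L} (h : CartanBasis θ b) (x : L) (i : Fin N) :
    b.repr x i = -killingForm ℝ L x (θ (b i)) := by
  conv_rhs => rw [← b.sum_repr x]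
  simp only [map_sum, map_smul, LinearMap.sum_apply, LinearMap.smul_apply]
  rw [← Finset.sum_neg_distrib]
  have h1 : ∀ j, -(b.repr x j • killingForm ℝ L (b j) (θ (b i))) = b.repr x j * (if j = i then 1 else 0) := by
    intro j
    rw [← h.orth j i, smul_eq_mul, mul_neg]
  simp only [h1]
  simp

private theorem killing_h54 {θ : L ≃ₗ⁅ℝ⁆ L} {b : Module.Basis (Fin N) ℝ L} (h : CartanBasis θ b) :
    LieAlgebra.IsKilling ℝ L := by
  refine ⟨?_⟩
  rw [LieSubmodule.eq_bot_iff]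
  intro x hx
  rw [LieIdeal.mem_killingCompl] at hx
  apply b.repr.injective
  ext i
  rw [coord_h54 h, LieModule.traceForm_comm, hx _ (LieSubmodule.mem_top _), neg_zero, map_zero]
  rfl

/-- the matrix of `ad x` -/
private noncomputable def TT_h54 (b : Module.Basis (Fin N) ℝ L) : L →ₗ[ℝ] Mat N :=
  (LinearMap.toMatrix b b).toLinearMap ∘ₗ (LieAlgebra.ad ℝ L : L →ₗ[ℝ] Module.End ℝ L)

private theorem TT_apply_h54 (b : Module.Basis (Fin N) ℝ L) (x : L) :
    TT_h54 b x = LinearMap.toMatrix b b (LieAlgebra.ad ℝ L x) := rfl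

private theorem toLin_TT_h54 (b : Module.Basis (Fin N) ℝ L) (x y : L) :
    toLin b b (TT_h54 b x) y = ⁅x, y⁆ := by
  rw [TT_apply_h54, Matrix.toLin_toMatrix, LieAlgebra.ad_apply]

private theorem TT_inj_h54 {θ : L ≃ₗ⁅ℝ⁆ L} {b : Module.Basis (Fin N) ℝ L} (h : CartanBasis θ b) :
    Function.Injective (TT_h54 b) := by
  intro x y hxy
  have hK := killing_h54 h
  have hF : Module.Finite ℝ L := Module.Finite.of_basis b
  have h1 : ∀ z : L, ⁅x, z⁆ = ⁅y, z⁆ := by
    intro z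
    rw [← toLin_TT_h54 b x z, hxy, toLin_TT_h54]
  have h2 : LieDerivation.ad ℝ L (x - y) = 0 := by
    ext z
    have h3 : (LieDerivation.ad ℝ L (x - y)) z = LieAlgebra.ad ℝ L (x - y) z := by
      rw [← LieDerivation.coe_ad_apply_eq_ad_apply]
      rfl
    rw [h3, LieAlgebra.ad_apply, sub_lie, h1, sub_self]
    rfl
  exact sub_eq_zero.1 ((LieDerivation.IsKilling.ad_apply_eq_zero_iff ℝ L _).1 h2)

private theorem TT_mem_h54 (b : Module.Basis (Fin N) ℝ L) (x : L) : TT_h54 b x ∈ lie (autG b) := by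
  rw [lie_autG]
  intro y z
  rw [toLin_TT_h54, toLin_TT_h54, toLin_TT_h54]
  exact leibniz_lie x y z

private theorem TT_surj_h54 {θ : L ≃ₗ⁅ℝ⁆ L} {b : Module.Basis (Fin N) ℝ L} (h : CartanBasis θ b) {X : Mat N}
    (hX : X ∈ lie (autG b)) : ∃ x, TT_h54 b x = X := by
  have hK := killing_h54 h
  have hF : Module.Finite ℝ L := Module.Finite.of_basis b
  rw [lie_autG] at hX
  let D : LieDerivation ℝ L L :=
    { toLin b b X with
      leibniz' := fun y z => by
        change toLin b b X ⁅y, z⁆ = ⁅y, toLin b b X z⁆ - ⁅z, toLin b b X y⁆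
        rw [hX y z, ← lie_skew z (toLin b b X y)]
        abel }
  obtain ⟨x, hx⟩ := LieDerivation.IsKilling.exists_eq_ad D
  refine ⟨x, ?_⟩
  rw [TT_apply_h54]
  have h1 : LieAlgebra.ad ℝ L x = toLin b b X := by
    ext z
    have h2 : (LieDerivation.ad ℝ L x) z = D z := by rw [hx]
    rw [← LieDerivation.coe_ad_apply_eq_ad_apply]
    exact h2
  rw [h1, LinearMap.toMatrix_toLin]

private theorem TT_transpose_h54 {θ : L ≃ₗ⁅ℝ⁆ L} {b : Module.Basis (Fin N) ℝ L} (h : CartanBasis θ b) (x : L) :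
    (TT_h54 b x)ᵀ = -TT_h54 b (θ x) := by
  ext i j
  rw [Matrix.transpose_apply, Matrix.neg_apply, TT_apply_h54, TT_apply_h54, LinearMap.toMatrix_apply,
    LinearMap.toMatrix_apply, LieAlgebra.ad_apply, LieAlgebra.ad_apply, coord_h54 h, coord_h54 h, neg_neg]
  have h1 : killingForm ℝ L ⁅θ x, b j⁆ (θ (b i)) = killingForm ℝ L ⁅x, θ (b j)⁆ (b i) := by
    rw [← LieAlgebra.killingForm_of_equiv_apply θ ⁅x, θ (b j)⁆ (b i), LieEquiv.map_lie, h.invol]
  have h2 : killingForm ℝ L ⁅x, b i⁆ (θ (b j)) = -killingForm ℝ L (b i) ⁅x, θ (b j)⁆ :=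
    LieModule.traceForm_apply_lie_apply' ℝ L L x (b i) (θ (b j))
  rw [h1, h2, neg_neg, LieModule.traceForm_comm]

private theorem TT_symm_iff_h54 {θ : L ≃ₗ⁅ℝ⁆ L} {b : Module.Basis (Fin N) ℝ L} (h : CartanBasis θ b) (x : L) :
    (TT_h54 b x)ᵀ = TT_h54 b x ↔ θ x = -x := by
  rw [TT_transpose_h54 h]
  constructor
  · intro h1
    apply TT_inj_h54 h
    rw [map_neg, ← h1, neg_neg]
  · intro h1
    rw [h1, map_neg, neg_neg]

private theorem TT_comm_iff_h54 {θ : L ≃ₗ⁅ℝ⁆ L} {b : Module.Basis (Fin N) ℝ L} (h : CartanBasis θ b) (x y : L) :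
    TT_h54 b x * TT_h54 b y = TT_h54 b y * TT_h54 b x ↔ ⁅x, y⁆ = 0 := by
  have h1 : TT_h54 b ⁅x, y⁆ = TT_h54 b x * TT_h54 b y - TT_h54 b y * TT_h54 b x := by
    apply (Matrix.toLin b b).injective
    refine LinearMap.ext fun z => ?_
    rw [toLin_TT_h54, map_sub, LinearMap.sub_apply, toLin_mul b b b, toLin_mul b b b,
      LinearMap.comp_apply, LinearMap.comp_apply, toLin_TT_h54, toLin_TT_h54, toLin_TT_h54,
      toLin_TT_h54, lie_lie]
  rw [← sub_eq_zero, ← h1]
  constructor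
  · intro h2
    apply TT_inj_h54 h
    rw [h2, map_zero]
  · intro h2
    rw [h2, map_zero]

private theorem finrank_map_h54 {V W : Type} [AddCommGroup V] [Module ℝ V] [AddCommGroup W] [Module ℝ W]
    {T : V →ₗ[ℝ] W} (hT : Function.Injective T) (a : Submodule ℝ V) :
    Module.finrank ℝ (a.map T) = Module.finrank ℝ a :=
  (LinearEquiv.finrank_eq (Submodule.equivMapOfInjective T hT a)).symm

/-- `G` is a closed group of automorphisms of the real Lie algebra `L` (as matrices with respect to the basis `b`) which contains the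
automorphisms `exp(ad x)`, `x ∈ L`. The smallest such group is the adjoint group of `L`. -/
structure IsAdj (b : Module.Basis (Fin N) ℝ L) (G : Subgroup (GL (Fin N) ℝ)) : Prop where
  closed : IsClosed (G : Set (GL (Fin N) ℝ))
  aut : G ≤ autG b
  exp_ad : ∀ x : L, ex (LinearMap.toMatrix b b (LieAlgebra.ad ℝ L x)) ∈ G

theorem lie_sub {θ : L ≃ₗ⁅ℝ⁆ L} {b : Module.Basis (Fin N) ℝ L} (h : CartanBasis θ b) {G : Subgroup (GL (Fin N) ℝ)}
    (hG : IsAdj b G) : ∀ X ∈ lie (autG b), X ∈ lie G := by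
  intro X hX
  obtain ⟨x, rfl⟩ := TT_surj_h54 h hX
  rw [mem_lie]
  intro t
  rw [← map_smul]
  exact hG.exp_ad (t • x)

theorem selfAdj_of_aut {θ : L ≃ₗ⁅ℝ⁆ L} {b : Module.Basis (Fin N) ℝ L} (h : CartanBasis θ b) {G : Subgroup (GL (Fin N) ℝ)}
    (hG : IsAdj b G) : SelfAdj G := by
  refine ⟨hG.closed, ⟨autG b, algSelfAdj_autG h, hG.aut, lie_sub h hG⟩, ?_⟩
  intro X hX _ hc
  rw [lie_eq' hG.aut (lie_sub h hG)] at hX hc
  exact commute_eq_zero h hX hc

/-- Closed subgroups of finite index of `Aut(L)`. -/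
theorem isAdj_of_finiteIndex {b : Module.Basis (Fin N) ℝ L} {G : Subgroup (GL (Fin N) ℝ)}
    (hG : IsClosed (G : Set (GL (Fin N) ℝ))) (hle : G ≤ autG b) (hf : (G.subgroupOf (autG b)).FiniteIndex) : IsAdj b G := by
  refine ⟨hG, hle, fun x => ?_⟩
  have h1 : LinearMap.toMatrix b b (LieAlgebra.ad ℝ L x) ∈ lie G := by
    rw [lie_eq hle hf]
    exact TT_mem_h54 b x
  have h2 := mem_lie.1 h1 1
  rwa [one_smul] at h2

theorem realRank_of_aut {θ : L ≃ₗ⁅ℝ⁆ L} {b : Module.Basis (Fin N) ℝ L} (h : CartanBasis θ b) {G : Subgroup (GL (Fin N) ℝ)}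
    (hG : IsAdj b G) : realRank G = rankL θ := by
  have hlie : lie G = lie (autG b) := lie_eq' hG.aut (lie_sub h hG)
  unfold realRank rankL
  congr 1
  ext d
  constructor
  · rintro ⟨V, hV, hd⟩
    refine ⟨V.comap (TT_h54 b), ?_, ?_, ?_⟩
    · intro x hx
      exact (TT_symm_iff_h54 h x).1 (hV.symm _ hx)
    · intro x hx y hy
      exact (TT_comm_iff_h54 h x y).1 (hV.comm _ hx _ hy)
    · have h1 : (V.comap (TT_h54 b)).map (TT_h54 b) = V := by
        rw [Submodule.map_comap_eq_self]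
        intro X hX
        have h2 := hV.mem X hX
        rw [hlie] at h2
        exact TT_surj_h54 h h2
      have h2 := finrank_map_h54 (TT_inj_h54 h) (V.comap (TT_h54 b))
      rw [h1] at h2
      rw [← h2, hd]
  · rintro ⟨a, ha1, ha2, hd⟩
    refine ⟨a.map (TT_h54 b), ⟨?_, ?_, ?_⟩, ?_⟩
    · rintro _ ⟨x, hx, rfl⟩
      rw [hlie]
      exact TT_mem_h54 b x
    · rintro _ ⟨x, hx, rfl⟩
      exact (TT_symm_iff_h54 h x).2 (ha1 x hx)
    · rintro _ ⟨x, hx, rfl⟩ _ ⟨y, hy, rfl⟩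
      exact (TT_comm_iff_h54 h x y).2 (ha2 x hx y hy)
    · rw [finrank_map_h54 (TT_inj_h54 h) a, hd]

end Pool.Agent.Helper96.SA
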