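import Pool.Agent.Helper96.SA.Rank
import Pool.Agent.Helper96.SA.Adj3
import Pool.Agent.Helper96.SZ.Psl
import Pool.Agent.Helper55.FR.Main
import Pool.Agent.Helper66.RK.Stmt
import Pool.Agent.Helper66.RK.MainA

/-!
# Project SA (MP_0f6f3f_an): the real rank is an invariant of the group von Neumann algebra

`rank_hom`, `rank_le`, `rank_eq`: lattices in self-adjoint real algebraic groups. `rank_aut`: lattices in closed groups of automorphisms of a real Lie algebra `L` with a Cartan involution which contain all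
`exp(ad x)`. `psl_hom`, `psl_iso`: `PSL(n, ℤ)`.
-/

set_option autoImplicit false

open Matrix Topology Filter

namespace Pool.Agent.Helper96.SA

open Pool.Agent.Helper66.RKS Pool.Agent.Helper96.FR Pool.Agent.Helper55.FR
open Pool.Agent.Helper84.NI Pool.Agent.Helper84.GN Pool.Agent.Helper84.GVN

section Abs

variable {G1 : Type} [Group G1] [TopologicalSpace G1] [IsTopologicalGroup G1] [LocallyCompactSpace G1]
  [SecondCountableTopology G1] [T2Space G1] {Γ1 Γ2 : Type} [Group Γ1] [Group Γ2] {r1 r2 : ℕ}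

/-- Restriction of an embedding along an isomorphism of groups. -/
noncomputable def embComp {Λ' Λ G : Type} [Group Λ'] [Group Λ] [Group G] (E : Emb Λ G) (φ : Λ' ≃* Λ) : Emb Λ' G where
  U := E.U.comp φ.toMonoidHom
  comm l := E.comm (φ l)
  tr l hl := E.tr (φ l) (fun h => hl (by rwa [EmbeddingLike.map_eq_one_iff] at h))

theorem abs_emb (i : Γ1 →* G1) (hi : Function.Injective i) (hL : FR.Lattice i.range) (hG : RankGE G1 r1)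
    (h2 : RankLE Γ2 r2) (E : Emb Γ1 Γ2) : r1 ≤ r2 :=
  full_rank_emb escAll hL hG h2 (embComp E (MonoidHom.ofInjective hi).symm)

/-- The full rank theorem for abstract groups which are isomorphic to lattices. -/
theorem abs_hom (i : Γ1 →* G1) (hi : Function.Injective i) (hL : FR.Lattice i.range) (hG : RankGE G1 r1)
    (h2 : RankLE Γ2 r2) (θ : LH Γ1 →⋆ₐ[ℂ] LH Γ2) (hτ : ∀ x, (θ x).tr = x.tr) : r1 ≤ r2 := by
  refine abs_emb i hi hL hG h2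
    (homEmb (((bridge Γ2).toStarAlgHom.comp θ).comp (bridge Γ1).symm.toStarAlgHom) fun x => ?_)
  have h1 := hτ ((bridge Γ1).symm x)
  change (θ ((bridge Γ1).symm x)).coeff 1 = ((bridge Γ1).symm x).coeff 1 at h1
  rw [← bridge_coeff, ← bridge_coeff] at h1
  exact h1

theorem abs_iso (i : Γ1 →* G1) (hi : Function.Injective i) (hL : FR.Lattice i.range) (hG : RankGE G1 r1)
    (h2 : RankLE Γ2 r2) (hicc : IsICC Γ1) (h : IsoL Γ1 Γ2) : r1 ≤ r2 := by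
  obtain ⟨e⟩ := h
  let e' : LG Γ1 ≃⋆ₐ[ℂ] LG Γ2 := (bridge Γ1).symm.trans (e.trans (bridge Γ2))
  exact abs_emb i hi hL hG h2
    (homEmb e'.toStarAlgHom fun x => Pool.Agent.Helper84.TU.tr_iso hicc e' x)

end Abs

variable {N₁ N₂ : ℕ} {G₁ : Subgroup (GL (Fin N₁) ℝ)} {G₂ : Subgroup (GL (Fin N₂) ℝ)}

/-- Trace preserving homomorphisms. -/
theorem rank_hom (h₁ : SelfAdj G₁) (h₂ : SelfAdj G₂) {Γ₁ : Subgroup G₁} {Γ₂ : Subgroup G₂} (hΓ₁ : FR.Lattice Γ₁)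
    (hΓ₂ : DiscreteTopology Γ₂) (θ : LH Γ₁ →⋆ₐ[ℂ] LH Γ₂) (hτ : ∀ x, (θ x).tr = x.tr) : realRank G₁ ≤ realRank G₂ := by
  obtain ⟨i1, i2, i3⟩ := instances h₁.closed
  exact full_rank_tr hΓ₁ (rankGE_realRank h₁) (rankLE_realRank h₂ Γ₂ hΓ₂) θ hτ

/-- Isomorphisms. -/
theorem rank_le (h₁ : SelfAdj G₁) (h₂ : SelfAdj G₂) {Γ₁ : Subgroup G₁} {Γ₂ : Subgroup G₂} (hΓ₁ : FR.Lattice Γ₁)
    (hΓ₂ : DiscreteTopology Γ₂) (hicc : IsICC Γ₁) (h : IsoL Γ₁ Γ₂) : realRank G₁ ≤ realRank G₂ := by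
  obtain ⟨i1, i2, i3⟩ := instances h₁.closed
  exact full_rank hΓ₁ hicc (rankGE_realRank h₁) (rankLE_realRank h₂ Γ₂ hΓ₂) h

theorem isoL_symm {Γ Λ : Type} [Group Γ] [Group Λ] (h : IsoL Γ Λ) : IsoL Λ Γ := ⟨h.some.symm⟩

/-- The real rank is determined by the group von Neumann algebra. -/
theorem rank_eq (h₁ : SelfAdj G₁) (h₂ : SelfAdj G₂) {Γ₁ : Subgroup G₁} {Γ₂ : Subgroup G₂} (hΓ₁ : FR.Lattice Γ₁)
    (hΓ₂ : FR.Lattice Γ₂) (i₁ : IsICC Γ₁) (i₂ : IsICC Γ₂) (h : IsoL Γ₁ Γ₂) : realRank G₁ = realRank G₂ :=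
  le_antisymm (rank_le h₁ h₂ hΓ₁ hΓ₂.1 i₁ h) (rank_le h₂ h₁ hΓ₂ hΓ₁.1 i₂ (isoL_symm h))

/-- The same for closed groups of automorphisms of real Lie algebras. -/
theorem rank_aut {L₁ L₂ : Type} [LieRing L₁] [LieAlgebra ℝ L₁] [LieRing L₂] [LieAlgebra ℝ L₂]
    {θ₁ : L₁ ≃ₗ⁅ℝ⁆ L₁} {θ₂ : L₂ ≃ₗ⁅ℝ⁆ L₂} {b₁ : Module.Basis (Fin N₁) ℝ L₁} {b₂ : Module.Basis (Fin N₂) ℝ L₂}
    (h₁ : CartanBasis θ₁ b₁) (h₂ : CartanBasis θ₂ b₂) (g₁ : IsAdj b₁ G₁) (g₂ : IsAdj b₂ G₂)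
    {Γ₁ : Subgroup G₁} {Γ₂ : Subgroup G₂} (hΓ₁ : FR.Lattice Γ₁) (hΓ₂ : FR.Lattice Γ₂) (i₁ : IsICC Γ₁) (i₂ : IsICC Γ₂)
    (h : IsoL Γ₁ Γ₂) : rankL θ₁ = rankL θ₂ := by
  rw [← realRank_of_aut h₁ g₁, ← realRank_of_aut h₂ g₂]
  exact rank_eq (selfAdj_of_aut h₁ g₁) (selfAdj_of_aut h₂ g₂) hΓ₁ hΓ₂ i₁ i₂ h

instance instT2PSL {n : ℕ} : T2Space (ProjectiveSpecialLinearGroup (Fin (n + 1)) ℝ) := by
  have : IsClosed (Subgroup.center (SpecialLinearGroup (Fin (n + 1)) ℝ) : Set (SpecialLinearGroup (Fin (n + 1)) ℝ)) :=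
    isCompact_center.isClosed
  have h3 : T3Space (SpecialLinearGroup (Fin (n + 1)) ℝ ⧸ Subgroup.center (SpecialLinearGroup (Fin (n + 1)) ℝ)) :=
    @QuotientGroup.instT3Space _ _ _ _ _ _ this
  exact (inferInstance : T2Space (SpecialLinearGroup (Fin (n + 1)) ℝ ⧸ Subgroup.center (SpecialLinearGroup (Fin (n + 1)) ℝ)))

theorem rankLE_PSLZ (n : ℕ) : RankLE (PSLZ n) (n - 1) := ⟨_, sl_rep n⟩

theorem icc_PSLZ (n : ℕ) : IsICC (PSLZ n) := fun x hx => Pool.Agent.Helper66.RK.icc_PSLZ x hx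

/-- `L(PSL(n, ℤ))` does not embed in `L(PSL(m, ℤ))` if `m < n`. -/
theorem psl_hom {n m : ℕ} (hn : 0 < n) (θ : LH (PSLZ n) →⋆ₐ[ℂ] LH (PSLZ m)) (hτ : ∀ x, (θ x).tr = x.tr) : n - 1 ≤ m - 1 := by
  obtain ⟨k, rfl⟩ : ∃ k, n = k + 1 := ⟨n - 1, by omega⟩
  exact abs_hom (G1 := ProjectiveSpecialLinearGroup (Fin (k + 1)) ℝ) (SZ.incl (k + 1)) (SZ.incl_injective hn)
    (SZ.lattice_PSLZ hn) (rankGE_PSL (𝕜 := ℝ) (r := k)) (rankLE_PSLZ m) θ hτ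

theorem psl_le {n m : ℕ} (hn : 0 < n) (h : IsoL (PSLZ n) (PSLZ m)) : n - 1 ≤ m - 1 := by
  obtain ⟨k, rfl⟩ : ∃ k, n = k + 1 := ⟨n - 1, by omega⟩
  exact abs_iso (G1 := ProjectiveSpecialLinearGroup (Fin (k + 1)) ℝ) (SZ.incl (k + 1)) (SZ.incl_injective hn)
    (SZ.lattice_PSLZ hn) (rankGE_PSL (𝕜 := ℝ) (r := k)) (rankLE_PSLZ m) (icc_PSLZ _) h

/-- The algebras `L(PSL(n, ℤ))`, `n ≥ 1`, are pairwise not isomorphic. -/
theorem psl_iso {n m : ℕ} (hn : 0 < n) (hm : 0 < m) (h : IsoL (PSLZ n) (PSLZ m)) : n = m := by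
  have h1 := psl_le hn h
  have h2 := psl_le hm (isoL_symm h)
  omega

end Pool.Agent.Helper96.SA
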