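import Pool.Agent.Helper96.SA.Trot

/-!
# Block SA-LIE: the Lie algebra of a closed group

PROOF. `0`, multiples: clear (`mem_lie`). Sums: `trotter` and closedness (`(ex ((n:ℝ)⁻¹ • t • X) * ex ((n:ℝ)⁻¹ • t • Y)) ^ n ∈ G` converges to `ex (t • (X + Y))`). Conjugation: `ex_conj`. Brackets: `L` the submodule with underlying set `lie G`; it is closed in the
space of matrices (finite dimensional: `Submodule.closed_of_finiteDimensional`); for `t ≠ 0` the matrix `t⁻¹ • (exp(tX) Y exp(-tX) - Y)` is in `L` (`lie_conj`) and converges to `X Y - Y X` for `t → 0` (derivative at `0`: `hasDerivAt_exp` entrywise,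
or `hasDerivAt_exp_smul_const` with `open scoped Matrix.Norms.Operator`).
-/

set_option autoImplicit false

open Matrix Filter Topology NormedSpace

namespace Pool.Agent.Helper96.SA

variable {N : ℕ} {G : Subgroup (GL (Fin N) ℝ)}

theorem lie_submodule (hG : IsClosed (G : Set (GL (Fin N) ℝ))) :
    ∃ L : Submodule ℝ (Mat N), (L : Set (Mat N)) = lie G := by
  refine ⟨⟨⟨⟨lie G, ?_⟩, ?_⟩, ?_⟩, rfl⟩
  · intro X Y hX hY
    rw [mem_lie] at hX hY ⊢
    intro t
    have h := trotter (t • X) (t • Y)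
    rw [← smul_add] at h
    refine hG.mem_of_tendsto h (Eventually.of_forall fun n => ?_)
    refine G.pow_mem (G.mul_mem ?_ ?_) n
    · rw [smul_smul]
      exact hX _
    · rw [smul_smul]
      exact hY _
  · rw [mem_lie]
    intro t
    rw [smul_zero, ex_zero]
    exact G.one_mem
  · intro c X hX
    change X ∈ lie G at hX
    change c • X ∈ lie G
    rw [mem_lie] at hX ⊢
    intro t
    rw [smul_smul]
    exact hX _

theorem lie_conj {g : GL (Fin N) ℝ} (hg : g ∈ G) {X : Mat N} (hX : X ∈ lie G) :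
    (g : Mat N) * X * ((g⁻¹ : GL (Fin N) ℝ) : Mat N) ∈ lie G := by
  rw [mem_lie] at hX ⊢
  intro t
  have e : t • ((g : Mat N) * X * ((g⁻¹ : GL (Fin N) ℝ) : Mat N)) =
      (g : Mat N) * (t • X) * ((g⁻¹ : GL (Fin N) ℝ) : Mat N) := by
    rw [mul_smul_comm, smul_mul_assoc]
  rw [e, ex_conj]
  exact G.mul_mem (G.mul_mem hg (hX t)) (G.inv_mem hg)

private theorem slope43 (X Y : Mat N) :
    Tendsto (fun t : ℝ => t⁻¹ • (exp (t • X) * Y * exp (t • (-X)) - Y)) (𝓝[≠] 0)
      (𝓝 (X * Y - Y * X)) := by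
  open scoped Matrix.Norms.Operator in
  have h1 : HasDerivAt (fun t : ℝ => exp (t • X)) (X * exp ((0 : ℝ) • X)) 0 :=
    hasDerivAt_exp_smul_const' X 0
  have h2 : HasDerivAt (fun t : ℝ => exp (t • (-X))) (-X * exp ((0 : ℝ) • (-X))) 0 :=
    hasDerivAt_exp_smul_const' (-X) 0
  have h3 := (h1.mul_const Y).mul h2
  have h4 := hasDerivAt_iff_tendsto_slope_zero.1 h3
  have e1 : X * exp ((0 : ℝ) • X) * Y * exp ((0 : ℝ) • (-X)) +
      exp ((0 : ℝ) • X) * Y * (-X * exp ((0 : ℝ) • (-X))) = X * Y - Y * X := by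
    rw [zero_smul, zero_smul, exp_zero, mul_one, mul_one, mul_one, one_mul, mul_neg, sub_eq_add_neg]
  rw [e1] at h4
  refine h4.congr fun t => ?_
  simp only [zero_add, zero_smul, exp_zero, one_mul, mul_one, Pi.mul_apply]

theorem lie_bracket (hG : IsClosed (G : Set (GL (Fin N) ℝ))) {X Y : Mat N} (hX : X ∈ lie G) (hY : Y ∈ lie G) :
    X * Y - Y * X ∈ lie G := by
  obtain ⟨L, hL⟩ := lie_submodule hG
  have hLc : IsClosed (L : Set (Mat N)) := L.closed_of_finiteDimensional
  have hmem : ∀ Z, Z ∈ (L : Set (Mat N)) ↔ Z ∈ lie G := fun Z => by rw [hL]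
  have h : X * Y - Y * X ∈ (L : Set (Mat N)) := by
    refine hLc.mem_of_tendsto (slope43 X Y) (Eventually.of_forall fun t => ?_)
    refine L.smul_mem _ (L.sub_mem ?_ ((hmem Y).2 hY))
    have h1 := lie_conj (mem_lie.1 hX t) hY
    rw [← ex_neg, ex_coe, ex_coe, ← smul_neg] at h1
    exact (hmem _).2 h1
  exact (hmem _).1 h

end Pool.Agent.Helper96.SA
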