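import Pool.Agent.Helper96.SA.Reg
import Pool.Agent.Helper96.SA.Lie

/-!
# Block SA-CONJ: symmetric elements of the Lie algebra are conjugate into a maximal flat

PROOF. `K = {k ∈ G | kᵀ k = 1}` is compact (`isEmbedding_val`: closed embedding of `GL` on the orthogonal matrices; entries bounded by `1`). `H ∈ V` from `exists_regular`. Let `k₀ ∈ K` maximize `f k = trace (k X kᵀ H)` and `X' = k₀ X k₀ᵀ` (in `lie G` by
`lie_conj`, `k₀⁻¹ = k₀ᵀ`; symmetric). `Z = X' H - H X' ∈ lie G` (`lie_bracket`), `Zᵀ = -Z`, so `ex (t • Z) ∈ K` and `t ↦ trace (exp(tZ) X' exp(-tZ) H)` is maximal at `t = 0`; its derivative at `0` is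
`trace ((Z X' - X' Z) H) = trace (Z (X' H - H X')) = trace (Z Z) = - trace (Zᵀ Z)`, so `Z = 0` (`Matrix.trace_conjTranspose_mul_self_eq_zero_iff` or a sum of squares). `X'` commutes with `H`, so with all of `V`, and `X' ∈ V` by maximality.
-/

set_option autoImplicit false

open Matrix Filter Topology NormedSpace

namespace Pool.Agent.Helper96.SA

variable {N : ℕ} {G : Subgroup (GL (Fin N) ℝ)}

private theorem norm_le_one_h54 {A : Mat N} (hA : Aᵀ * A = 1) (i j : Fin N) : ‖A i j‖ ≤ 1 := by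
  have h1 : (Aᵀ * A) j j = 1 := by rw [hA, Matrix.one_apply_eq]
  rw [Matrix.mul_apply] at h1
  have h2 : A i j * A i j ≤ ∑ l, Aᵀ j l * A l j := by
    have h3 : ∀ l ∈ Finset.univ, 0 ≤ Aᵀ j l * A l j := fun l _ => by
      rw [Matrix.transpose_apply]
      exact mul_self_nonneg _
    have h4 := Finset.single_le_sum h3 (Finset.mem_univ i)
    rwa [Matrix.transpose_apply] at h4
  rw [h1] at h2
  rw [Real.norm_eq_abs]
  exact abs_le_one_iff_mul_self_le_one.2 h2

theorem isCompact_orth (hG : IsClosed (G : Set (GL (Fin N) ℝ))) :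
    IsCompact {k : GL (Fin N) ℝ | k ∈ G ∧ (k : Mat N)ᵀ * (k : Mat N) = 1} := by
  have h1 : IsCompact (Set.pi Set.univ fun _ : Fin N => Set.pi Set.univ fun _ : Fin N =>
      Metric.closedBall (0 : ℝ) 1) :=
    isCompact_univ_pi fun _ => isCompact_univ_pi fun _ => isCompact_closedBall 0 1
  have h2 : IsClosed {A : Mat N | Aᵀ * A = 1} :=
    isClosed_eq ((continuous_id.matrix_transpose).matrix_mul continuous_id) continuous_const
  have h3 : IsCompact {A : Mat N | Aᵀ * A = 1} := by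
    refine IsCompact.of_isClosed_subset (X := Mat N) h1 h2 ?_
    intro A hA i _ j _
    rw [mem_closedBall_zero_iff]
    exact norm_le_one_h54 hA i j
  have h4 : (fun g : GL (Fin N) ℝ => (g : Mat N)) '' {k : GL (Fin N) ℝ | (k : Mat N)ᵀ * (k : Mat N) = 1} =
      {A : Mat N | Aᵀ * A = 1} := by
    ext A
    constructor
    · rintro ⟨k, hk, rfl⟩
      exact hk
    · intro hA
      exact ⟨⟨A, Aᵀ, mul_eq_one_comm.1 hA, hA⟩, hA, rfl⟩
  have h5 : IsCompact {k : GL (Fin N) ℝ | (k : Mat N)ᵀ * (k : Mat N) = 1} := by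
    rw [isEmbedding_val.isCompact_iff, h4]
    exact h3
  exact h5.inter_left hG

theorem conj_into (hG : IsClosed (G : Set (GL (Fin N) ℝ))) {V : Submodule ℝ (Mat N)} (hV : IsFlat G V)
    (hmax : ∀ Y ∈ lie G, Yᵀ = Y → (∀ H ∈ V, Y * H = H * Y) → Y ∈ V) {X : Mat N} (hX : X ∈ lie G) (hs : Xᵀ = X) :
    ∃ k ∈ G, (k : Mat N)ᵀ * (k : Mat N) = 1 ∧ (k : Mat N) * X * (k : Mat N)ᵀ ∈ V := by
  obtain ⟨H, hH, hreg⟩ := exists_regular V hV.symm hV.comm
  have cval : Continuous (fun g : GL (Fin N) ℝ => (g : Mat N)) := isEmbedding_val.continuous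
  have cf : Continuous fun k : GL (Fin N) ℝ => Matrix.trace ((k : Mat N) * X * (k : Mat N)ᵀ * H) :=
    (((cval.matrix_mul continuous_const).matrix_mul cval.matrix_transpose).matrix_mul
      continuous_const).matrix_trace
  obtain ⟨k, ⟨hkG, hk1⟩, hkm⟩ := (isCompact_orth hG).exists_isMaxOn
    ⟨1, G.one_mem, by rw [Units.val_one, Matrix.transpose_one, Matrix.one_mul]⟩ cf.continuousOn
  have hkinv : ((k⁻¹ : GL (Fin N) ℝ) : Mat N) = (k : Mat N)ᵀ := Units.inv_eq_of_mul_eq_one_left hk1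
  refine ⟨k, hkG, hk1, ?_⟩
  have hX' := lie_conj hkG hX
  rw [hkinv] at hX'
  obtain ⟨X', hXd⟩ : ∃ X' : Mat N, X' = (k : Mat N) * X * (k : Mat N)ᵀ := ⟨_, rfl⟩
  rw [← hXd] at hX' ⊢
  have hs' : X'ᵀ = X' := by
    rw [hXd, Matrix.transpose_mul, Matrix.transpose_mul, Matrix.transpose_transpose, hs,
      Matrix.mul_assoc]
  have hHs : Hᵀ = H := hV.symm H hH
  have hZ := lie_bracket hG hX' (hV.mem H hH)
  obtain ⟨Z, hZd⟩ : ∃ Z : Mat N, Z = X' * H - H * X' := ⟨_, rfl⟩
  rw [← hZd] at hZ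
  have hZt : Zᵀ = -Z := by
    rw [hZd, Matrix.transpose_sub, Matrix.transpose_mul, Matrix.transpose_mul, hs', hHs, neg_sub]
  have hle : ∀ t : ℝ, Matrix.trace (exp (t • Z) * X' * exp (t • (-Z)) * H) ≤
      Matrix.trace (X' * H) := by
    intro t
    have e1 : ((ex (t • Z) : GL (Fin N) ℝ) : Mat N)ᵀ = exp (t • (-Z)) := by
      rw [ex_transpose, ex_coe, Matrix.transpose_smul, hZt]
    have e2 : exp (t • (-Z)) * exp (t • Z) = 1 := by
      rw [smul_neg, ← ex_coe, ← ex_coe, ← Units.val_mul, ex_neg, inv_mul_cancel, Units.val_one]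
    have hmem : (ex (t • Z) * k) ∈ {k : GL (Fin N) ℝ | k ∈ G ∧ (k : Mat N)ᵀ * (k : Mat N) = 1} := by
      refine ⟨G.mul_mem (mem_lie.1 hZ t) hkG, ?_⟩
      rw [Units.val_mul, Matrix.transpose_mul, e1, ex_coe]
      calc (k : Mat N)ᵀ * exp (t • (-Z)) * (exp (t • Z) * (k : Mat N))
          = (k : Mat N)ᵀ * (exp (t • (-Z)) * exp (t • Z)) * (k : Mat N) := by
            simp only [Matrix.mul_assoc]
        _ = 1 := by rw [e2, Matrix.mul_one, hk1]
    have h1 := hkm hmem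
    have h2 : Matrix.trace (((ex (t • Z) * k : GL (Fin N) ℝ) : Mat N) * X *
        ((ex (t • Z) * k : GL (Fin N) ℝ) : Mat N)ᵀ * H) ≤ Matrix.trace (X' * H) := by
      rw [hXd]
      exact h1
    rw [Units.val_mul, Matrix.transpose_mul, e1, ex_coe] at h2
    have e3 : exp (t • Z) * (k : Mat N) * X * ((k : Mat N)ᵀ * exp (t • (-Z))) * H =
        exp (t • Z) * X' * exp (t • (-Z)) * H := by
      rw [hXd]
      simp only [Matrix.mul_assoc]
    rw [e3] at h2
    exact h2
  have hder : HasDerivAt (fun t : ℝ => Matrix.trace (exp (t • Z) * X' * exp (t • (-Z)) * H))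
      (Matrix.trace ((Z * X' - X' * Z) * H)) 0 := by
    open scoped Matrix.Norms.Operator in
    have h1 : HasDerivAt (fun t : ℝ => exp (t • Z)) (Z * exp ((0 : ℝ) • Z)) 0 :=
      hasDerivAt_exp_smul_const' Z 0
    have h2 : HasDerivAt (fun t : ℝ => exp (t • (-Z))) (-Z * exp ((0 : ℝ) • (-Z))) 0 :=
      hasDerivAt_exp_smul_const' (-Z) 0
    have h3 := (h1.mul_const X').mul h2
    have e1 : Z * exp ((0 : ℝ) • Z) * X' * exp ((0 : ℝ) • (-Z)) +
        exp ((0 : ℝ) • Z) * X' * (-Z * exp ((0 : ℝ) • (-Z))) = Z * X' - X' * Z := by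
      rw [zero_smul, zero_smul, exp_zero, mul_one, mul_one, mul_one, one_mul, mul_neg,
        sub_eq_add_neg]
    rw [e1] at h3
    let L : Mat N →ₗ[ℝ] ℝ := (Matrix.traceLinearMap (Fin N) ℝ ℝ).comp (LinearMap.mulRight ℝ H)
    have h4 : HasFDerivAt (fun A : Mat N => L A) (LinearMap.toContinuousLinearMap L)
        (exp ((0 : ℝ) • Z) * X' * exp ((0 : ℝ) • (-Z))) :=
      (LinearMap.toContinuousLinearMap L).hasFDerivAt
    exact h4.comp_hasDerivAt 0 h3
  have hloc : IsLocalMax (fun t : ℝ => Matrix.trace (exp (t • Z) * X' * exp (t • (-Z)) * H)) 0 := by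
    refine Eventually.of_forall fun t => ?_
    have e0 : exp ((0 : ℝ) • Z) * X' * exp ((0 : ℝ) • (-Z)) * H = X' * H := by
      rw [zero_smul, zero_smul, exp_zero, Matrix.mul_one, Matrix.one_mul]
    simp only
    rw [e0]
    exact hle t
  have h0 := hloc.hasDerivAt_eq_zero hder
  have h1 : Matrix.trace (Z * Z) = 0 := by
    have e1 : Matrix.trace (X' * Z * H) = Matrix.trace (Z * (H * X')) := by
      rw [Matrix.mul_assoc, Matrix.trace_mul_comm, Matrix.mul_assoc]
    have e2 : Matrix.trace (Z * Z) = Matrix.trace ((Z * X' - X' * Z) * H) := by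
      rw [Matrix.sub_mul, Matrix.trace_sub, e1]
      nth_rewrite 2 [hZd]
      rw [Matrix.mul_sub, Matrix.trace_sub, Matrix.mul_assoc]
    rw [e2, h0]
  have h2 : Z = 0 := by
    have e1 : Matrix.trace (Zᵀ * Z) = 0 := by
      rw [hZt, Matrix.neg_mul, Matrix.trace_neg, h1, neg_zero]
    have e2 : Matrix.trace (Zᴴ * Z) = 0 := by
      rw [Matrix.conjTranspose_eq_transpose_of_trivial, e1]
    exact Matrix.trace_conjTranspose_mul_self_eq_zero_iff.1 e2
  have h3 : X' * H = H * X' := by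
    rw [← sub_eq_zero, ← hZd, h2]
  exact hmax X' hX' hs' fun H' hH' => hreg X' h3 H' hH'

end Pool.Agent.Helper96.SA
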