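import Pool.Agent.Helper96.SA.Root

/-!
# Block SA-ROOT2: root vectors and `sl(2)`

PROOF of `sl2_of_root`. `T = X Xᵀ - Xᵀ X` is in `lie G`, symmetric, and commutes with `V` (`H' X - X H' = c X` gives `H' Xᵀ - Xᵀ H' = - c Xᵀ`), so `T ∈ V`, and `T X - X T = c X` for some `c`. `c tr(X Xᵀ) = tr((T X - X T) Xᵀ) = tr(T (X Xᵀ - Xᵀ X)) = tr(T T) ≥ 0`, and `T ≠ 0` since
`tr(T H) = tr(X (Xᵀ H - H Xᵀ)) = tr(X Xᵀ) > 0`.

PROOF of `trace_eq_zero`. With `H_i`, `X_i` from `exists_roots`, `T_i = X_i X_iᵀ - X_iᵀ X_i ∈ V`, `tr(T_i H_j) = δ_ij tr(X_i X_iᵀ)`, so the `T_i` are linearly independent, hence a basis of `V`, and `tr T_i = 0`.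
-/

set_option autoImplicit false

open Matrix Filter Topology NormedSpace

namespace Pool.Agent.Helper96.SA

variable {N : ℕ} {G : Subgroup (GL (Fin N) ℝ)}

private theorem tr65_eq (X : Mat N) : (X * Xᵀ).trace = ∑ i, ∑ j, X i j ^ 2 := by
  unfold Matrix.trace
  refine Finset.sum_congr rfl fun i _ => ?_
  rw [Matrix.diag_apply, Matrix.mul_apply]
  refine Finset.sum_congr rfl fun j _ => ?_
  rw [Matrix.transpose_apply, pow_two]

private theorem tr65_nonneg (X : Mat N) : 0 ≤ (X * Xᵀ).trace := by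
  rw [tr65_eq]
  exact Finset.sum_nonneg fun i _ => Finset.sum_nonneg fun j _ => sq_nonneg _

private theorem tr65_pos {X : Mat N} (h : X ≠ 0) : 0 < (X * Xᵀ).trace := by
  refine lt_of_le_of_ne (tr65_nonneg X) fun h0 => h ?_
  rw [tr65_eq] at h0
  have h1 := (Finset.sum_eq_zero_iff_of_nonneg fun i _ =>
    Finset.sum_nonneg fun j _ => sq_nonneg (X i j)).1 h0.symm
  ext i j
  have h2 := (Finset.sum_eq_zero_iff_of_nonneg fun j _ => sq_nonneg (X i j)).1
    (h1 i (Finset.mem_univ i)) j (Finset.mem_univ j)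
  rw [Matrix.zero_apply]
  exact pow_eq_zero_iff (two_ne_zero) |>.1 h2

private theorem tp65 {H X : Mat N} {c : ℝ} (hH : Hᵀ = H) (h : H * X - X * H = c • X) :
    Xᵀ * H - H * Xᵀ = c • Xᵀ := by
  have h1 := congrArg Matrix.transpose h
  rw [Matrix.transpose_sub, Matrix.transpose_mul, Matrix.transpose_mul, Matrix.transpose_smul, hH] at h1
  exact h1

private theorem trT65 {H X : Mat N} {c : ℝ} (hH : Hᵀ = H) (h : H * X - X * H = c • X) :
    ((X * Xᵀ - Xᵀ * X) * H).trace = c * (X * Xᵀ).trace := by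
  have h1 : (Xᵀ * X * H).trace = (X * H * Xᵀ).trace := by
    rw [Matrix.mul_assoc, Matrix.trace_mul_comm]
  have h2 := congrArg (fun Z => (X * Z).trace) (tp65 hH h)
  simp only [Matrix.mul_sub, Matrix.mul_smul, Matrix.trace_sub, Matrix.trace_smul, smul_eq_mul] at h2
  rw [Matrix.sub_mul, Matrix.trace_sub, h1, ← h2, Matrix.mul_assoc, Matrix.mul_assoc]

theorem sl2_of_root (hG : IsClosed (G : Set (GL (Fin N) ℝ))) (ht : ∀ X ∈ lie G, Xᵀ ∈ lie G)
    {V : Submodule ℝ (Mat N)} (hV : IsFlat G V)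
    (hmax : ∀ Y ∈ lie G, Yᵀ = Y → (∀ H ∈ V, Y * H = H * Y) → Y ∈ V)
    {H X : Mat N} (hH : H ∈ V) (hX : X ∈ lie G) (hX0 : X ≠ 0) (hroot : ∀ H' ∈ V, ∃ c : ℝ, H' * X - X * H' = c • X)
    (h1 : H * X - X * H = X) :
    X * Xᵀ - Xᵀ * X ∈ V ∧ ∃ c : ℝ, 0 < c ∧ (X * Xᵀ - Xᵀ * X) * X - X * (X * Xᵀ - Xᵀ * X) = c • X := by
  have hT : (X * Xᵀ - Xᵀ * X)ᵀ = X * Xᵀ - Xᵀ * X := by
    rw [Matrix.transpose_sub, Matrix.transpose_mul, Matrix.transpose_mul, Matrix.transpose_transpose]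
  have hmem : X * Xᵀ - Xᵀ * X ∈ V := by
    refine hmax _ (lie_bracket hG hX (ht X hX)) hT fun H' hH' => ?_
    obtain ⟨c, hc⟩ := hroot H' hH'
    have hc2 := tp65 (hV.symm H' hH') hc
    have e1 : H' * X = X * H' + c • X := by rw [← hc]; abel
    have e2 : Xᵀ * H' = H' * Xᵀ + c • Xᵀ := by rw [← hc2]; abel
    calc (X * Xᵀ - Xᵀ * X) * H' = X * (Xᵀ * H') - Xᵀ * (X * H') := by
          rw [Matrix.sub_mul, Matrix.mul_assoc, Matrix.mul_assoc]
      _ = X * (H' * Xᵀ + c • Xᵀ) - Xᵀ * (H' * X - c • X) := by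
          rw [e2, e1, add_sub_cancel_right]
      _ = (X * H' + c • X) * Xᵀ - (Xᵀ * H' - c • Xᵀ) * X := by
          simp only [Matrix.mul_add, Matrix.mul_sub, Matrix.add_mul, Matrix.sub_mul, Matrix.mul_smul,
            Matrix.smul_mul, Matrix.mul_assoc]
      _ = H' * (X * Xᵀ - Xᵀ * X) := by
          rw [e2, ← e1, add_sub_cancel_right, Matrix.mul_sub, Matrix.mul_assoc, Matrix.mul_assoc]
  refine ⟨hmem, ?_⟩
  obtain ⟨c, hc⟩ := hroot _ hmem
  refine ⟨c, ?_, hc⟩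
  have hTne : X * Xᵀ - Xᵀ * X ≠ 0 := by
    intro h0
    have h2 := trT65 (c := 1) (hV.symm H hH) (by rw [one_smul]; exact h1)
    rw [h0, Matrix.zero_mul, Matrix.trace_zero, one_mul] at h2
    exact (tr65_pos hX0).ne h2
  have h3 := trT65 hT hc
  have h4 := tr65_pos hTne
  rw [hT, h3] at h4
  exact (pos_iff_pos_of_mul_pos h4).2 (tr65_pos hX0)

theorem trace_eq_zero (hG : IsClosed (G : Set (GL (Fin N) ℝ))) (ht : ∀ X ∈ lie G, Xᵀ ∈ lie G)
    (hsemi : ∀ X ∈ lie G, Xᵀ = X → (∀ Y ∈ lie G, X * Y = Y * X) → X = 0)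
    {V : Submodule ℝ (Mat N)} (hV : IsFlat G V)
    (hmax : ∀ Y ∈ lie G, Yᵀ = Y → (∀ H ∈ V, Y * H = H * Y) → Y ∈ V) {H : Mat N} (hH : H ∈ V) : H.trace = 0 := by
  obtain ⟨K, X, hK, hX, hX0, hKX, hroot⟩ := exists_roots hG hsemi hV
  have hT : ∀ i, X i * (X i)ᵀ - (X i)ᵀ * X i ∈ V := fun i =>
    (sl2_of_root hG ht hV hmax (hK i) (hX i) (hX0 i) (hroot i) (by rw [hKX, if_pos rfl])).1
  have htr : ∀ i j, ((X i * (X i)ᵀ - (X i)ᵀ * X i) * K j).trace =
      if i = j then (X i * (X i)ᵀ).trace else 0 := by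
    intro i j
    have h1 : K j * X i - X i * K j = (if j = i then (1 : ℝ) else 0) • X i := by
      rw [hKX]
      split_ifs
      · rw [one_smul]
      · rw [zero_smul]
    rw [trT65 (hV.symm _ (hK j)) h1]
    by_cases hij : i = j
    · rw [if_pos hij, if_pos hij.symm, one_mul]
    · rw [if_neg hij, if_neg fun h => hij h.symm, zero_mul]
  let T : Fin (Module.finrank ℝ V) → V := fun i => ⟨_, hT i⟩
  have hli : LinearIndependent ℝ T := by
    rw [Fintype.linearIndependent_iff]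
    intro g hg j
    have h1 : ∑ i, g i • (X i * (X i)ᵀ - (X i)ᵀ * X i) = 0 := by
      have h2 := congrArg V.subtype hg
      rw [map_sum, map_zero] at h2
      simp only [map_smul] at h2
      exact h2
    have h2 := congrArg (fun Z => (Z * K j).trace) h1
    simp only [Finset.sum_mul, Matrix.smul_mul, Matrix.trace_sum, Matrix.trace_smul, htr, smul_eq_mul,
      mul_ite, mul_zero, Finset.sum_ite_eq', Finset.mem_univ, if_true, Matrix.zero_mul,
      Matrix.trace_zero] at h2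
    exact (mul_eq_zero.1 h2).resolve_right (tr65_pos (hX0 j)).ne'
  have hspan := hli.span_eq_top_of_card_eq_finrank' (Fintype.card_fin _)
  have hφ : (Matrix.traceLinearMap (Fin N) ℝ ℝ).comp V.subtype = 0 := by
    refine LinearMap.ext_on hspan ?_
    rintro _ ⟨i, rfl⟩
    change (X i * (X i)ᵀ - (X i)ᵀ * X i).trace = 0
    rw [Matrix.trace_sub, Matrix.trace_mul_comm, sub_self]
  exact DFunLike.congr_fun hφ ⟨H, hH⟩

end Pool.Agent.Helper96.SA
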