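import Pool.Agent.Helper96.SA.Pol
import Pool.Agent.Helper96.SA.Conj
import Pool.Agent.Helper96.SA.Root2
import Pool.Agent.Helper66.RK.StmtDef

/-!
# Block SA-LE: discrete subgroups of `G` have rank at most the dimension of a maximal flat

PROOF. `ρ.ι γ` is the matrix of `γ` as a complex matrix, with `c = 1` in `mul`. KAK: `g = k ex X` (`polar`), `k' X k'ᵀ = X' ∈ V` (`conj_into`), so `g = (k k'ᵀ) ex X' k'`; with `O` from `simDiag` for `V`, `X' = O diagonal d Oᵀ`, `ex X' = O diagonal (exp d) Oᵀ` (`exp_diag`),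
so `g = (k k'ᵀ O) diagonal (exp d) (Oᵀ k')`. The `d` form the subspace `{d | O diagonal d Oᵀ ∈ V}` of `Fin N → ℝ`, of dimension `finrank V` (a linear equivalence with `V`, or `comap` of `V` under an injective linear map; `≤` is enough). Real orthogonal matrices are unitary as complex matrices.
`|det g| = 1`: `|det k| = 1`, `det exp X' = exp (∑ d i) = exp (trace X') = 1` (`trace_eq_zero`). Properness: if the entries of `γ` are bounded by `R`, so are those of `γ⁻¹ = ± adjugate γ` by some `R'`, so `γ` is in a compact set of `GL` (`isCompact_GL` in FR/Rge2.lean), intersected with the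
closed discrete subgroup `Γ` (closed in `G`, `G` closed) it is finite (`Subgroup.isClosed_of_discrete`; see the end of the proof of `exists_cocycle` in FR/Lat3.lean).
-/

set_option autoImplicit false

open Matrix Topology Filter

namespace Pool.Agent.Helper96.SA

open Pool.Agent.Helper66.RKS

variable {N : ℕ} {G : Subgroup (GL (Fin N) ℝ)}

/-- Cartan decomposition of the elements of `G` -/
private theorem kak_h80 (hG : SelfAdj G) {V : Submodule ℝ (Mat N)} (hV : IsFlat G V)
    (hmax : ∀ Y ∈ lie G, Yᵀ = Y → (∀ H ∈ V, Y * H = H * Y) → Y ∈ V) {O : Mat N} (h1 : Oᵀ * O = 1)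
    (h2 : O * Oᵀ = 1) (hO : ∀ X ∈ V, ∃ d : Fin N → ℝ, X = O * diagonal d * Oᵀ) {g : GL (Fin N) ℝ} (hg : g ∈ G) :
    ∃ k k' : Mat N, kᵀ * k = 1 ∧ k'ᵀ * k' = 1 ∧ ∃ d : Fin N → ℝ, O * diagonal d * Oᵀ ∈ V ∧
      (g : Mat N) = k * diagonal (fun i => Real.exp (d i)) * k' := by
  obtain ⟨X, hX, hXs, k, hk, hkk, hgk⟩ := polar hG hg
  obtain ⟨k', hk', hkk', hV'⟩ := conj_into hG.closed hV hmax hX hXs
  obtain ⟨d, hd⟩ := hO _ hV'
  have hinv : ((k'⁻¹ : GL (Fin N) ℝ) : Mat N) = (k' : Mat N)ᵀ := Units.inv_eq_of_mul_eq_one_left hkk'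
  have hkk2 : (k' : Mat N) * (k' : Mat N)ᵀ = 1 := mul_eq_one_comm.1 hkk'
  have hex : (k' : Mat N) * (ex X : GL (Fin N) ℝ) * (k' : Mat N)ᵀ =
      O * diagonal (fun i => Real.exp (d i)) * Oᵀ := by
    have h3 := ex_conj k' X
    rw [hinv] at h3
    have h4 := congrArg (fun u : GL (Fin N) ℝ => (u : Mat N)) h3
    simp only [Units.val_mul, hinv] at h4
    rw [← h4, ex_coe, hd, exp_diag O h1 h2 d]
  have hexX : ((ex X : GL (Fin N) ℝ) : Mat N) =
      (k' : Mat N)ᵀ * (O * diagonal (fun i => Real.exp (d i)) * Oᵀ) * (k' : Mat N) := by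
    rw [← hex]
    calc ((ex X : GL (Fin N) ℝ) : Mat N)
        = ((k' : Mat N)ᵀ * (k' : Mat N)) * (ex X : GL (Fin N) ℝ) * ((k' : Mat N)ᵀ * (k' : Mat N)) := by
          rw [hkk', one_mul, mul_one]
      _ = _ := by simp only [Matrix.mul_assoc]
  refine ⟨(k : Mat N) * (k' : Mat N)ᵀ * O, Oᵀ * (k' : Mat N), ?_, ?_, d, ?_, ?_⟩
  · rw [Matrix.transpose_mul, Matrix.transpose_mul, Matrix.transpose_transpose]
    calc Oᵀ * ((k' : Mat N) * (k : Mat N)ᵀ) * ((k : Mat N) * (k' : Mat N)ᵀ * O)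
        = Oᵀ * ((k' : Mat N) * ((k : Mat N)ᵀ * (k : Mat N)) * (k' : Mat N)ᵀ) * O := by
          simp only [Matrix.mul_assoc]
      _ = 1 := by rw [hkk, Matrix.mul_one, hkk2, Matrix.mul_one, h1]
  · rw [Matrix.transpose_mul, Matrix.transpose_transpose]
    calc (k' : Mat N)ᵀ * O * (Oᵀ * (k' : Mat N)) = (k' : Mat N)ᵀ * (O * Oᵀ) * (k' : Mat N) := by
          simp only [Matrix.mul_assoc]
      _ = 1 := by rw [h2, Matrix.mul_one, hkk']
  · rw [← hd]
    exact hV'
  · rw [hgk, Units.val_mul, hexX]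
    simp only [Matrix.mul_assoc]

private theorem abs_det_orth_h80 {k : Mat N} (h : kᵀ * k = 1) : |k.det| = 1 := by
  have h1 := congrArg Matrix.det h
  rw [Matrix.det_mul, Matrix.det_transpose, Matrix.det_one] at h1
  have h2 : |k.det| * |k.det| = 1 := by rw [← abs_mul, h1, abs_one]
  nlinarith [abs_nonneg k.det]

private theorem abs_det_h80 (hG : SelfAdj G) {V : Submodule ℝ (Mat N)} (hV : IsFlat G V)
    (hmax : ∀ Y ∈ lie G, Yᵀ = Y → (∀ H ∈ V, Y * H = H * Y) → Y ∈ V) {O : Mat N} (h1 : Oᵀ * O = 1)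
    (h2 : O * Oᵀ = 1) (hO : ∀ X ∈ V, ∃ d : Fin N → ℝ, X = O * diagonal d * Oᵀ) {g : GL (Fin N) ℝ} (hg : g ∈ G) :
    |(g : Mat N).det| = 1 := by
  obtain ⟨k, k', hk, hk', d, hd, hgd⟩ := kak_h80 hG hV hmax h1 h2 hO hg
  have htr := trace_eq_zero hG.closed (fun X hX => lie_transpose hG hX) hG.semi hV hmax hd
  rw [Matrix.trace_mul_comm, ← Matrix.mul_assoc, h1, Matrix.one_mul, Matrix.trace_diagonal] at htr
  rw [hgd, Matrix.det_mul, Matrix.det_mul, abs_mul, abs_mul, abs_det_orth_h80 hk, abs_det_orth_h80 hk',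
    Matrix.det_diagonal, ← Real.exp_sum, htr, Real.exp_zero, abs_one, mul_one, mul_one]

private theorem isCompact_det_h80 (R : ℝ) :
    IsCompact {g : GL (Fin N) ℝ | (∀ i j, |(g : Mat N) i j| ≤ R) ∧ |(g : Mat N).det| = 1} := by
  rw [(isEmbedding_val (N := N)).isInducing.isCompact_iff]
  have h1 : IsCompact {A : Mat N | ∀ i j, |A i j| ≤ R} := by
    have h : IsCompact (Set.univ.pi fun _ : Fin N => (Set.univ.pi fun _ : Fin N => Metric.closedBall (0 : ℝ) R)) :=
      isCompact_univ_pi fun _ => isCompact_univ_pi fun _ => isCompact_closedBall 0 R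
    have e : (Set.univ.pi fun _ : Fin N => (Set.univ.pi fun _ : Fin N => Metric.closedBall (0 : ℝ) R)) =
        {A : Fin N → Fin N → ℝ | ∀ i j, |A i j| ≤ R} := by
      ext A
      simp only [Set.mem_univ_pi, mem_closedBall_zero_iff, Set.mem_ofPred_eq, Real.norm_eq_abs]
    rw [e] at h
    exact h
  have h2 : IsClosed {A : Mat N | |A.det| = 1} := by
    refine isClosed_eq ?_ continuous_const
    exact continuous_abs.comp (continuous_id.matrix_det)
  have e : (fun g : GL (Fin N) ℝ => (g : Mat N)) ''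
      {g : GL (Fin N) ℝ | (∀ i j, |(g : Mat N) i j| ≤ R) ∧ |(g : Mat N).det| = 1} =
      {A : Mat N | ∀ i j, |A i j| ≤ R} ∩ {A : Mat N | |A.det| = 1} := by
    ext A
    constructor
    · rintro ⟨g, hg, rfl⟩
      exact hg
    · rintro ⟨hA1, hA2⟩
      have hA2 : |A.det| = 1 := hA2
      have hdet : IsUnit A.det := by
        rw [isUnit_iff_ne_zero]
        intro h0
        rw [h0, abs_zero] at hA2
        exact zero_ne_one hA2
      obtain ⟨g, hg⟩ := (Matrix.isUnit_iff_isUnit_det A).2 hdet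
      refine ⟨g, ?_, hg⟩
      subst hg
      exact ⟨hA1, hA2⟩
  rw [e]
  exact h1.inter_right h2

theorem rankLE_flat (hG : SelfAdj G) {V : Submodule ℝ (Mat N)} (hV : IsFlat G V)
    (hmax : ∀ Y ∈ lie G, Yᵀ = Y → (∀ H ∈ V, Y * H = H * Y) → Y ∈ V) (Γ : Subgroup G) (hΓ : DiscreteTopology Γ) :
    RankLE Γ (Module.finrank ℝ V) := by
  obtain ⟨O, h1, h2, hO⟩ := simDiag (V : Set (Mat N)) hV.symm hV.comm
  let c : Mat N →+* Matrix (Fin N) (Fin N) ℂ := Complex.ofRealHom.mapMatrix
  have hc : ∀ (A : Mat N) (i j : Fin N), c A i j = ((A i j : ℝ) : ℂ) := fun A i j => rfl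
  have hcT : ∀ A : Mat N, (c A)ᴴ = c Aᵀ := by
    intro A
    ext i j
    rw [Matrix.conjTranspose_apply, hc, hc, Matrix.transpose_apply]
    exact Complex.conj_ofReal _
  have hdet : ∀ g : Γ, |((g : G) : GL (Fin N) ℝ).val.det| = 1 := fun g =>
    abs_det_h80 hG hV hmax h1 h2 hO (g : G).2
  refine ⟨N, ⟨fun g => c ((g : G) : GL (Fin N) ℝ).val, ?_, ?_, ?_⟩, ?_⟩
  · intro g
    have h3 : (c ((g : G) : GL (Fin N) ℝ).val).det = ((((g : G) : GL (Fin N) ℝ).val.det : ℝ) : ℂ) :=
      (RingHom.map_det Complex.ofRealHom ((g : G) : GL (Fin N) ℝ).val).symm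
    rw [h3, Complex.norm_real, Real.norm_eq_abs]
    exact hdet g
  · intro g h
    refine ⟨1, norm_one, ?_⟩
    rw [one_smul, ← map_mul]
    rfl
  · intro R
    have hcl : IsClosed (Γ : Set G) := Subgroup.isClosed_of_discrete
    have hemb : IsClosedEmbedding (fun g : Γ => ((g : G) : GL (Fin N) ℝ)) :=
      hG.closed.isClosedEmbedding_subtypeVal.comp hcl.isClosedEmbedding_subtypeVal
    have hK := hemb.isCompact_preimage (isCompact_det_h80 (N := N) R)
    refine (hK.finite_of_discrete).subset ?_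
    intro g hg
    refine ⟨fun i j => ?_, hdet g⟩
    have h3 := hg i j
    rw [hc, Complex.norm_real, Real.norm_eq_abs] at h3
    exact h3
  · let L : (Fin N → ℝ) →ₗ[ℝ] Mat N :=
      { toFun := fun d => O * diagonal d * Oᵀ
        map_add' := fun d e => by
          have e1 : diagonal (d + e) = diagonal d + diagonal e := (Matrix.diagonal_add d e).symm
          rw [e1, Matrix.mul_add, Matrix.add_mul]
        map_smul' := fun a d => by
          rw [Matrix.diagonal_smul, Matrix.mul_smul, Matrix.smul_mul, RingHom.id_apply] }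
    have hL : Function.Injective L := by
      intro d e hde
      have hde : O * diagonal d * Oᵀ = O * diagonal e * Oᵀ := hde
      have h3 : ∀ f : Fin N → ℝ, Oᵀ * (O * diagonal f * Oᵀ) * O = diagonal f := by
        intro f
        calc Oᵀ * (O * diagonal f * Oᵀ) * O = (Oᵀ * O) * diagonal f * (Oᵀ * O) := by
              simp only [Matrix.mul_assoc]
          _ = diagonal f := by rw [h1, Matrix.one_mul, Matrix.mul_one]
      apply Matrix.diagonal_injective
      rw [← h3 d, ← h3 e, hde]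
    refine ⟨V.comap L, ?_, ?_⟩
    · have h3 : Module.finrank ℝ (V.comap L) = Module.finrank ℝ ((V.comap L).map L) :=
        (Submodule.equivMapOfInjective L hL (V.comap L)).finrank_eq
      rw [h3]
      exact Submodule.finrank_mono (Submodule.map_comap_le L V)
    · intro g
      obtain ⟨k, k', hk, hk', d, hd, hgd⟩ := kak_h80 hG hV hmax h1 h2 hO (g : G).2
      refine ⟨c k, c k', ?_, ?_, d, hd, ?_⟩
      · rw [hcT, ← map_mul, hk, map_one]
      · rw [hcT, ← map_mul, hk', map_one]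
      · have h3 : c (diagonal fun i => Real.exp (d i)) = diagonal (fun i => (Real.exp (d i) : ℂ)) := by
          ext i j
          rw [hc]
          by_cases hij : i = j
          · subst hij
            rw [Matrix.diagonal_apply_eq, Matrix.diagonal_apply_eq]
          · rw [Matrix.diagonal_apply_ne _ hij, Matrix.diagonal_apply_ne _ hij, Complex.ofReal_zero]
        rw [← h3, ← map_mul, ← map_mul, ← hgd]

end Pool.Agent.Helper96.SA
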