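import Pool.Agent.Helper96.SA.GE
import Pool.Agent.Helper96.SA.LE

/-!
# Block SA-RANK: the real rank

PROOF. The dimensions of the flats are bounded by `N ^ 2`, so there is a flat `V` with `finrank V = realRank G` (`Nat.sSup_mem`, `{0}` is a flat). It is maximal: if `Y ∈ lie G` is symmetric and commutes with `V`, then `V ⊔ span {Y}` is a flat (`lie_submodule`), so it has the same dimension as `V` and `Y ∈ V`.
`rankGE_flat`, `rankLE_flat`. Instances: `GL (Fin N) ℝ` is second countable, locally compact and Hausdorff (closed embedding `Units.embedProduct` into `Mat N × (Mat N)ᵐᵒᵖ`), so the closed subgroup `G` is.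
-/

set_option autoImplicit false

open Matrix Topology Filter

namespace Pool.Agent.Helper96.SA

open Pool.Agent.Helper66.RKS Pool.Agent.Helper96.FR

variable {N : ℕ} {G : Subgroup (GL (Fin N) ℝ)}

theorem exists_maxFlat (hG : IsClosed (G : Set (GL (Fin N) ℝ))) : ∃ V : Submodule ℝ (Mat N), IsFlat G V ∧
    Module.finrank ℝ V = realRank G ∧ ∀ Y ∈ lie G, Yᵀ = Y → (∀ H ∈ V, Y * H = H * Y) → Y ∈ V := by
  have hbdd : BddAbove {d | ∃ V : Submodule ℝ (Mat N), IsFlat G V ∧ Module.finrank ℝ V = d} := by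
    refine ⟨Module.finrank ℝ (Mat N), ?_⟩
    rintro d ⟨V, -, rfl⟩
    exact Submodule.finrank_le V
  have hne : {d | ∃ V : Submodule ℝ (Mat N), IsFlat G V ∧ Module.finrank ℝ V = d}.Nonempty := by
    refine ⟨_, ⊥, ⟨?_, ?_, ?_⟩, rfl⟩
    · intro X hX
      rw [Submodule.mem_bot] at hX
      rw [hX, mem_lie]
      intro t
      rw [smul_zero, ex_zero]
      exact G.one_mem
    · intro X hX
      rw [Submodule.mem_bot] at hX
      rw [hX, transpose_zero]
    · intro X hX Y hY
      rw [Submodule.mem_bot] at hX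
      rw [hX, zero_mul, mul_zero]
  obtain ⟨V, hV, hr⟩ := Nat.sSup_mem hne hbdd
  refine ⟨V, hV, hr, fun Y hY hYs hYc => ?_⟩
  obtain ⟨L, hL⟩ := lie_submodule hG
  have hmemL : ∀ X : Mat N, X ∈ lie G ↔ X ∈ L := fun X => by rw [← hL, SetLike.mem_coe]
  have hW : IsFlat G (V ⊔ Submodule.span ℝ {Y}) := by
    have hdec : ∀ X ∈ V ⊔ Submodule.span ℝ {Y}, ∃ v ∈ V, ∃ c : ℝ, X = v + c • Y := by
      intro X hX
      obtain ⟨v, hv, w, hw, rfl⟩ := Submodule.mem_sup.1 hX
      obtain ⟨c, rfl⟩ := Submodule.mem_span_singleton.1 hw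
      exact ⟨v, hv, c, rfl⟩
    refine ⟨fun X hX => ?_, fun X hX => ?_, fun X hX X' hX' => ?_⟩
    · obtain ⟨v, hv, c, rfl⟩ := hdec X hX
      rw [hmemL]
      exact L.add_mem ((hmemL v).1 (hV.mem v hv)) (L.smul_mem c ((hmemL Y).1 hY))
    · obtain ⟨v, hv, c, rfl⟩ := hdec X hX
      rw [transpose_add, transpose_smul, hYs, hV.symm v hv]
    · obtain ⟨v, hv, c, rfl⟩ := hdec X hX
      obtain ⟨v', hv', c', rfl⟩ := hdec X' hX'
      have e1 := hYc v hv
      have e2 := hYc v' hv'
      have e3 := hV.comm v hv v' hv'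
      rw [add_mul, add_mul, mul_add, mul_add, mul_add, mul_add, smul_mul_assoc, smul_mul_assoc, smul_mul_assoc,
        smul_mul_assoc, mul_smul_comm, mul_smul_comm, mul_smul_comm, mul_smul_comm, e3, e1, e2, smul_comm c c' (Y * Y)]
      abel
  have hle : Module.finrank ℝ (V ⊔ Submodule.span ℝ {Y} : Submodule ℝ (Mat N)) ≤ Module.finrank ℝ V := by
    rw [hr]
    exact le_csSup hbdd ⟨_, hW, rfl⟩
  have heq := Submodule.eq_of_le_of_finrank_le (le_sup_left : V ≤ V ⊔ Submodule.span ℝ {Y}) hle
  rw [heq]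
  exact Submodule.mem_sup_right (Submodule.mem_span_singleton_self Y)

theorem rankGE_realRank (hG : SelfAdj G) : RankGE G (realRank G) := by
  obtain ⟨V, hV, hr, hmax⟩ := exists_maxFlat hG.closed
  rw [← hr]
  exact rankGE_flat hG.closed (fun X hX => lie_transpose hG hX) hG.semi hV hmax

theorem rankLE_realRank (hG : SelfAdj G) (Γ : Subgroup G) (hΓ : DiscreteTopology Γ) : RankLE Γ (realRank G) := by
  obtain ⟨V, hV, hr, hmax⟩ := exists_maxFlat hG.closed
  rw [← hr]
  exact rankLE_flat hG hV hmax Γ hΓ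

private theorem h94_openEmb : IsOpenEmbedding (fun g : GL (Fin N) ℝ => (g : Mat N)) := by
  open scoped Matrix.Norms.Operator in
  have : CompleteSpace (Mat N) := inferInstance
  exact Units.isOpenEmbedding_val

theorem instances (hG : IsClosed (G : Set (GL (Fin N) ℝ))) : LocallyCompactSpace G ∧ SecondCountableTopology G ∧ T2Space G := by
  have h1 : LocallyCompactSpace (Mat N) := inferInstanceAs (LocallyCompactSpace (Fin N → Fin N → ℝ))
  have h2 : SecondCountableTopology (Mat N) := inferInstanceAs (SecondCountableTopology (Fin N → Fin N → ℝ))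
  have h3 : T2Space (Mat N) := inferInstanceAs (T2Space (Fin N → Fin N → ℝ))
  have he := h94_openEmb (N := N)
  have g1 : LocallyCompactSpace (GL (Fin N) ℝ) := he.locallyCompactSpace
  have g2 : SecondCountableTopology (GL (Fin N) ℝ) := he.isEmbedding.secondCountableTopology
  have g3 : T2Space (GL (Fin N) ℝ) := he.isEmbedding.t2Space
  have hc : IsClosedEmbedding (fun g : G => (g : GL (Fin N) ℝ)) := hG.isClosedEmbedding_subtypeVal
  exact ⟨hc.locallyCompactSpace, hc.isEmbedding.secondCountableTopology, hc.isEmbedding.t2Space⟩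

end Pool.Agent.Helper96.SA
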