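import Pool.Agent.Helper96.SA.Defs

/-!
# Project SA (MP_0f6f3f_an): the exponential map, basic facts
-/

set_option autoImplicit false

open Matrix Filter Topology NormedSpace

namespace Pool.Agent.Helper96.SA

variable {N : ℕ}

theorem ex_coe (X : Mat N) : ((ex X : GL (Fin N) ℝ) : Mat N) = exp X := rfl

theorem mem_lie {G : Subgroup (GL (Fin N) ℝ)} {X : Mat N} : X ∈ lie G ↔ ∀ t : ℝ, ex (t • X) ∈ G := by
  constructor
  · intro h t
    obtain ⟨g, hg, hg2⟩ := h t
    have e : g = ex (t • X) := Units.ext hg2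
    rwa [← e]
  · intro h t
    exact ⟨_, h t, rfl⟩

theorem ex_zero : ex (0 : Mat N) = 1 := Units.ext (by rw [ex_coe, exp_zero, Units.val_one])

theorem ex_add {X Y : Mat N} (h : X * Y = Y * X) : ex (X + Y) = ex X * ex Y :=
  Units.ext (by rw [Units.val_mul, ex_coe, ex_coe, ex_coe]; exact Matrix.exp_add_of_commute X Y h)

theorem ex_add_smul (s t : ℝ) (X : Mat N) : ex ((s + t) • X) = ex (s • X) * ex (t • X) := by
  rw [add_smul]
  exact ex_add (by rw [smul_mul_smul_comm, smul_mul_smul_comm, mul_comm s t])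

theorem ex_neg (X : Mat N) : ex (-X) = (ex X)⁻¹ := by
  rw [eq_inv_iff_mul_eq_one, ← ex_add (by rw [neg_mul, mul_neg]), neg_add_cancel, ex_zero]

theorem ex_nsmul (n : ℕ) (X : Mat N) : ex ((n : ℝ) • X) = ex X ^ n := by
  induction n with
  | zero => rw [Nat.cast_zero, zero_smul, ex_zero, pow_zero]
  | succ n ih =>
    have h := ex_add_smul (n : ℝ) 1 X
    rw [Nat.cast_succ, h, ih, one_smul, pow_succ]

theorem ex_conj (g : GL (Fin N) ℝ) (X : Mat N) :
    ex ((g : Mat N) * X * ((g⁻¹ : GL (Fin N) ℝ) : Mat N)) = g * ex X * g⁻¹ := by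
  apply Units.ext
  rw [Units.val_mul, Units.val_mul, ex_coe, ex_coe]
  exact Matrix.exp_units_conj g X

theorem ex_commute {X : Mat N} {g : GL (Fin N) ℝ} (h : (g : Mat N) * X = X * (g : Mat N)) : g * ex X = ex X * g := by
  have h1 := ex_conj g X
  rw [h, mul_assoc, Units.mul_inv, mul_one] at h1
  exact (eq_mul_inv_iff_mul_eq.1 h1).symm

theorem ex_transpose (X : Mat N) : ((ex X : GL (Fin N) ℝ) : Mat N)ᵀ = (ex Xᵀ : GL (Fin N) ℝ) := by
  rw [ex_coe, ex_coe, Matrix.exp_transpose]

theorem exp_diag (O : Mat N) (h1 : Oᵀ * O = 1) (h2 : O * Oᵀ = 1) (d : Fin N → ℝ) :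
    exp (O * diagonal d * Oᵀ) = O * diagonal (fun i => Real.exp (d i)) * Oᵀ := by
  have h := Matrix.exp_units_conj (⟨O, Oᵀ, h2, h1⟩ : (Mat N)ˣ) (diagonal d)
  have e : exp (diagonal d) = diagonal (fun i => Real.exp (d i)) := by
    rw [Matrix.exp_diagonal]
    congr 1
    funext i
    rw [Pi.coe_exp, Real.exp_eq_exp_ℝ]
  rw [e] at h
  exact h

theorem continuous_expM : Continuous (exp : Mat N → Mat N) := by
  open scoped Matrix.Norms.Operator in exact exp_continuous

theorem continuous_ex : Continuous (ex : Mat N → GL (Fin N) ℝ) := by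
  rw [Units.continuous_iff]
  exact ⟨continuous_expM, continuous_expM.comp continuous_neg⟩

/-- derivative of the entries of `exp(tX)` -/
theorem hasDerivAt_exp (X : Mat N) (t : ℝ) (i j : Fin N) :
    HasDerivAt (fun t : ℝ => exp (t • X) i j) ((X * exp (t • X)) i j) t := by
  open scoped Matrix.Norms.Operator in
  have h : HasDerivAt (fun t : ℝ => exp (t • X)) (X * exp (t • X)) t := hasDerivAt_exp_smul_const' X t
  have h2 : HasFDerivAt (fun A : Mat N => A i j) (LinearMap.toContinuousLinearMap (Matrix.entryLinearMap ℝ ℝ i j)) (exp (t • X)) :=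
    (LinearMap.toContinuousLinearMap (Matrix.entryLinearMap ℝ ℝ i j)).hasFDerivAt
  exact h2.comp_hasDerivAt t h

/-- the topology of `GL(N, ℝ)` is the one of the space of matrices -/
theorem isEmbedding_val : IsEmbedding (fun g : GL (Fin N) ℝ => (g : Mat N)) := by
  open scoped Matrix.Norms.Operator in
  have : CompleteSpace (Mat N) := inferInstance
  exact Units.isOpenEmbedding_val.isEmbedding

end Pool.Agent.Helper96.SA
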