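import Pool.Agent.Helper96.SA.Exp

/-!
# Block SA-HW: highest weight vectors

PROOF. `T = X Xᵀ - Xᵀ X` is symmetric with `T X - X T = 2 X`, hence (transpose) `T Xᵀ - Xᵀ T = -2 Xᵀ`. `T ≠ 0` and `trace T = 0`, so `T` has a positive eigenvalue; let `a > 0` be the largest eigenvalue (`Matrix.IsHermitian.eigenvalues`) and `T v = a v`, `v ≠ 0`. `T (X v) = (a + 2) X v`, so
`X v = 0`. Put `v j = (1 / j!) (Xᵀ) ^ j v` (recursively `v (j + 1) = (1 / (j + 1)) Xᵀ v j`). By induction `T (v j) = (a - 2 j) v j` and `X (v (j + 1)) = (a - j) v j`: `(j + 1) X (v (j+1)) = X Xᵀ (v j) = Xᵀ X (v j) + T (v j) = (a - j + 1) j v j + (a - 2 j) v j = (j + 1) (a - j) v j`.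
The `v j` are eventually zero (they are eigenvectors of `T` for different eigenvalues, or `a - 2 j` is smaller than the smallest eigenvalue); let `k` be minimal with `v (k + 1) = 0`: `0 = X (v (k+1)) = (a - k) v k`, so `a = k`, `k ≥ 1`.
-/

set_option autoImplicit false

open Matrix

namespace Pool.Agent.Helper96.SA

variable {N : ℕ}

theorem exists_hw (X : Mat N) (hX : X ≠ 0) (h : (X * Xᵀ - Xᵀ * X) * X - X * (X * Xᵀ - Xᵀ * X) = (2 : ℝ) • X) :
    ∃ (k : ℕ) (v : ℕ → Fin N → ℝ), 1 ≤ k ∧ (∀ j ≤ k, v j ≠ 0) ∧ (∀ j, k < j → v j = 0) ∧ X *ᵥ v 0 = 0 ∧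
      (∀ j : ℕ, X *ᵥ v (j + 1) = ((k : ℝ) - j) • v j) ∧ (∀ j : ℕ, Xᵀ *ᵥ v j = ((j : ℝ) + 1) • v (j + 1)) ∧
      ∀ j : ℕ, (X * Xᵀ - Xᵀ * X) *ᵥ v j = ((k : ℝ) - 2 * j) • v j := by
  classical
  obtain ⟨T, hTd⟩ : ∃ T : Mat N, T = X * Xᵀ - Xᵀ * X := ⟨_, rfl⟩
  rw [← hTd] at h ⊢
  have hTt : Tᵀ = T := by
    rw [hTd, transpose_sub, transpose_mul, transpose_mul, transpose_transpose]
  have hTh : T.IsHermitian := by
    rw [Matrix.IsHermitian, conjTranspose_eq_transpose_of_trivial, hTt]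
  have h' : T * Xᵀ - Xᵀ * T = (-2 : ℝ) • Xᵀ := by
    have h1 := congrArg transpose h
    rw [transpose_sub, transpose_mul, transpose_mul, hTt, transpose_smul] at h1
    rw [neg_smul, ← h1, neg_sub]
  have hT0 : T ≠ 0 := by
    intro h0
    rw [h0, zero_mul, mul_zero, sub_zero] at h
    exact hX ((smul_eq_zero.1 h.symm).resolve_left two_ne_zero)
  -- a positive eigenvalue
  have hpos : ∃ i, 0 < hTh.eigenvalues i := by
    by_contra hcon
    push Not at hcon
    have h1 := hTh.trace_eq_sum_eigenvalues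
    have h2 : T.trace = 0 := by
      rw [hTd, trace_sub, trace_mul_comm, sub_self]
    rw [h2] at h1
    have h3 : ∑ i, hTh.eigenvalues i = 0 := by
      have h4 : ((0 : ℝ)) = ∑ i, hTh.eigenvalues i := by simpa using h1
      exact h4.symm
    have h5 := (Finset.sum_eq_zero_iff_of_nonpos fun i _ => hcon i).1 h3
    exact hT0 (hTh.eigenvalues_eq_zero_iff.1 (funext fun i => h5 i (Finset.mem_univ i)))
  -- the set of eigenvalues
  obtain ⟨S, hS⟩ : ∃ S : Set ℝ, S = {μ : ℝ | ∃ u : Fin N → ℝ, u ≠ 0 ∧ T *ᵥ u = μ • u} := ⟨_, rfl⟩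
  have hSf : S.Finite := by
    refine (Module.End.finite_hasEigenvalue (Matrix.toLin' T)).subset ?_
    rintro μ hμ
    rw [hS] at hμ
    obtain ⟨u, hu, hTu⟩ := hμ
    refine Module.End.hasEigenvalue_of_hasEigenvector (x := u) ⟨?_, hu⟩
    rw [Module.End.mem_eigenspace_iff, Matrix.toLin'_apply, hTu]
  obtain ⟨i, hi⟩ := hpos
  have hiS : hTh.eigenvalues i ∈ S := by
    rw [hS]
    refine ⟨(hTh.eigenvectorBasis i : EuclideanSpace ℝ (Fin N)).ofLp, ?_, hTh.mulVec_eigenvectorBasis i⟩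
    intro h0
    have h1 := (hTh.eigenvectorBasis).orthonormal.ne_zero i
    exact h1 (by ext x; exact congrFun h0 x)
  obtain ⟨a, haS, hamax0⟩ := hSf.exists_maximal ⟨_, hiS⟩
  have hamax : ∀ {μ : ℝ}, μ ∈ S → a ≤ μ → μ ≤ a := fun hμ h => hamax0 hμ h
  have ha : 0 < a := by
    by_contra hcon
    push Not at hcon
    have h1 := hamax hiS (hcon.trans hi.le)
    linarith
  have hamax' : ∀ μ ∈ S, μ ≤ a := by
    intro μ hμ
    by_contra hcon
    push Not at hcon
    have h1 := hamax hμ hcon.le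
    linarith
  have haS' := haS
  rw [hS] at haS'
  obtain ⟨v0, hv0, hTv0⟩ := haS'
  have hXv : X *ᵥ v0 = 0 := by
    by_contra hne
    have h1 : T *ᵥ (X *ᵥ v0) = (a + 2) • (X *ᵥ v0) := by
      have h2 : T * X = X * T + (2 : ℝ) • X := by rw [← h]; abel
      rw [mulVec_mulVec, h2, add_mulVec, ← mulVec_mulVec, hTv0, mulVec_smul, smul_mulVec, add_smul]
    have h2 : a + 2 ∈ S := by
      rw [hS]
      exact ⟨_, hne, h1⟩
    have h3 := hamax' _ h2
    linarith
  -- the chain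
  obtain ⟨v, hv00, hvs⟩ : ∃ v : ℕ → Fin N → ℝ, v 0 = v0 ∧ ∀ j, v (j + 1) = (1 / ((j : ℝ) + 1)) • (Xᵀ *ᵥ v j) :=
    ⟨fun j => Nat.rec v0 (fun j u => (1 / ((j : ℝ) + 1)) • (Xᵀ *ᵥ u)) j, rfl, fun j => rfl⟩
  rw [← hv00] at hv0 hTv0 hXv
  have hXt : ∀ j : ℕ, Xᵀ *ᵥ v j = ((j : ℝ) + 1) • v (j + 1) := by
    intro j
    have hj : ((j : ℝ) + 1) ≠ 0 := by positivity
    rw [hvs, smul_smul, mul_one_div_cancel hj, one_smul]
  have hTv : ∀ j : ℕ, T *ᵥ v j = (a - 2 * j) • v j := by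
    intro j
    induction j with
    | zero =>
      rw [Nat.cast_zero, mul_zero, sub_zero]
      exact hTv0
    | succ j ih =>
      have h2 : T * Xᵀ = Xᵀ * T + (-2 : ℝ) • Xᵀ := by rw [← h']; abel
      rw [hvs, mulVec_smul, mulVec_mulVec, h2, add_mulVec, ← mulVec_mulVec, ih, mulVec_smul, smul_mulVec,
        ← add_smul, smul_comm]
      congr 1
      push_cast
      ring
  have hXX : X * Xᵀ = T + Xᵀ * X := by rw [hTd]; abel
  have hXvs : ∀ j : ℕ, X *ᵥ v (j + 1) = (a - j) • v j := by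
    intro j
    induction j with
    | zero =>
      have e0 : X *ᵥ v 0 = 0 := hXv
      have e1 := hTv 0
      rw [hvs, mulVec_smul, mulVec_mulVec, hXX, add_mulVec, ← mulVec_mulVec, e0, mulVec_zero, add_zero, e1,
        Nat.cast_zero, mul_zero, zero_add, div_one, one_smul]
    | succ j ih =>
      have hj : ((j : ℝ) + 1 + 1) ≠ 0 := by positivity
      rw [hvs (j + 1), mulVec_smul, mulVec_mulVec, hXX, add_mulVec, ← mulVec_mulVec, ih, mulVec_smul, hXt,
        hTv (j + 1), smul_smul, ← add_smul, smul_smul]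
      congr 1
      push_cast
      field_simp
      ring
  -- the end of the chain
  obtain ⟨j0, hj0⟩ : ∃ j, v j = 0 := by
    by_contra hcon
    push Not at hcon
    have hinf : Set.Infinite (Set.range fun j : ℕ => a - 2 * (j : ℝ)) := by
      refine Set.infinite_range_of_injective fun x y hxy => ?_
      have h1 : a - 2 * (x : ℝ) = a - 2 * (y : ℝ) := hxy
      have h2 : (x : ℝ) = y := by linarith
      exact_mod_cast h2
    refine hinf (hSf.subset ?_)
    rintro _ ⟨j, rfl⟩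
    rw [hS]
    exact ⟨v j, hcon j, hTv j⟩
  have hne : ∃ j, v j = 0 := ⟨j0, hj0⟩
  obtain ⟨m, hm⟩ : ∃ m, m = Nat.find hne := ⟨Nat.find hne, rfl⟩
  have hm0 : v m = 0 := by rw [hm]; exact Nat.find_spec hne
  have hm1 : ∀ j < m, v j ≠ 0 := by
    intro j hj
    rw [hm] at hj
    exact Nat.find_min hne hj
  have hmpos : m ≠ 0 := by
    rintro rfl
    exact hv0 hm0
  obtain ⟨k, rfl⟩ := Nat.exists_eq_succ_of_ne_zero hmpos
  have hak : a = k := by
    have h1 := hXvs k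
    have h2 : X *ᵥ v (k + 1) = 0 := by
      have h3 : v (k + 1) = 0 := hm0
      rw [h3, mulVec_zero]
    rw [h2] at h1
    have h3 := (smul_eq_zero.1 h1.symm).resolve_right (hm1 k (Nat.lt_succ_self k))
    linarith
  refine ⟨k, v, ?_, fun j hj => hm1 j (by omega), ?_, hXv, ?_, hXt, ?_⟩
  · have h1 : (0 : ℝ) < k := by rw [← hak]; exact ha
    exact_mod_cast h1
  · intro j hj
    induction j with
    | zero => omega
    | succ j ih =>
      by_cases hjk : j = k
      · subst hjk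
        exact hm0
      · rw [hvs, ih (by omega), mulVec_zero, smul_zero]
  · intro j
    rw [hXvs j, hak]
  · intro j
    rw [hTv j, hak]

end Pool.Agent.Helper96.SA
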