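import Pool.Agent.Helper96.SA.Sl2
import Pool.Agent.Helper96.SA.Root2

/-!
# Block SA-GE: `G` has rank at least the dimension of a maximal flat

PROOF. `H_i`, `X_i` from `exists_roots`; `a i = ex (H i)`, `s_i` from `discrete_nonAm` (with `sl2_of_root`), `u i = ex (s_i • X i)`, `w i = ex (s_i • (X i)ᵀ)`, as elements of `G` (`mem_lie`). The `a i` commute (`ex_add`). `a j` commutes with `u i`, `w i` for `j ≠ i` (`H j` commutes with `X i` and, by
transposition, with `(X i)ᵀ`; `ex_commute`). `(a i ^ m)⁻¹ u i (a i ^ m) = ex ((s_i e^(-m)) • X i) → 1`: `exp(-m H) X exp(m H) = e^(-m) X` if `H X - X H = X` (from `H X = X (H + 1)`: `X exp(m(H + 1)) = exp(m H) X`, e.g. by uniqueness of derivatives or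
`Commute`-type lemma: semiconjugation `X (H + 1) = H X` gives `X exp(m (H + 1)) = exp(m H) X` by the power series / `SemiconjBy`; or differentiate `t ↦ exp(-tH) X exp(tH) e^t`), `ex_conj`, `continuous_ex`. Similarly `w`. `a 0 ^ m → ∞` in `G`: the entries of `g`, `g⁻¹` are bounded on a compact set
of `G`; `H = H_0` is symmetric and `≠ 0` (`H_0 X_0 - X_0 H_0 = X_0 ≠ 0`), `H = O diagonal d Oᵀ` with some `d i ≠ 0` and `trace exp(mH) + trace exp(-mH) ≥ exp(m |d i|) → ∞`. Discreteness and nonamenability of the subgroup of `↥G` generated by `u i`, `w i`: it is isomorphic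
(`Subgroup.map` by the injective `G.subtype`, a topological embedding) to the subgroup of `GL` of `discrete_nonAm` (`Pool.Agent.Helper66.RK.Am.congr`, `nonAm_iff`).
-/

set_option autoImplicit false

open Matrix Topology Filter

namespace Pool.Agent.Helper96.SA

open Pool.Agent.Helper96.FR

variable {N : ℕ} {G : Subgroup (GL (Fin N) ℝ)}

private theorem ex_comm66 {X Y : Mat N} (h : X * Y = Y * X) : ex X * ex Y = ex Y * ex X := by
  rw [← ex_add h, ← ex_add h.symm, add_comm]

/-- the spectral theorem -/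
private theorem spec66 {H : Mat N} (hs : Hᵀ = H) : ∃ (O : Mat N) (d : Fin N → ℝ), Oᵀ * O = 1 ∧ O * Oᵀ = 1 ∧
    H = O * diagonal d * Oᵀ := by
  have hH : H.IsHermitian := by
    unfold Matrix.IsHermitian
    rw [Matrix.conjTranspose_eq_transpose_of_trivial, hs]
  refine ⟨hH.eigenvectorUnitary, hH.eigenvalues, ?_, ?_, ?_⟩
  · have h := Unitary.coe_star_mul_self hH.eigenvectorUnitary
    rwa [Matrix.star_eq_conjTranspose, Matrix.conjTranspose_eq_transpose_of_trivial] at h
  · have h := Unitary.coe_mul_star_self hH.eigenvectorUnitary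
    rwa [Unitary.coe_star, Matrix.star_eq_conjTranspose, Matrix.conjTranspose_eq_transpose_of_trivial] at h
  · have h := hH.spectral_theorem
    rw [Unitary.conjStarAlgAut_apply, Matrix.star_eq_conjTranspose,
      Matrix.conjTranspose_eq_transpose_of_trivial] at h
    exact h

private theorem smul_spec66 (O : Mat N) (d : Fin N → ℝ) (t : ℝ) :
    t • (O * diagonal d * Oᵀ) = O * diagonal (fun i => t * d i) * Oᵀ := by
  have e : diagonal (fun i => t * d i) = t • diagonal d := by
    rw [← Matrix.diagonal_smul]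
    rfl
  rw [e, Matrix.mul_smul, Matrix.smul_mul]

/-- conjugation by the exponential -/
private theorem conj66 {H X : Mat N} (hs : Hᵀ = H) (h : H * X - X * H = X) (t : ℝ) :
    NormedSpace.exp (-(t • H)) * X * NormedSpace.exp (t • H) = Real.exp (-t) • X := by
  obtain ⟨O, d, h1, h2, rfl⟩ := spec66 hs
  have e1 : -(t • (O * diagonal d * Oᵀ)) = O * diagonal (fun i => -t * d i) * Oᵀ := by
    rw [← neg_smul, smul_spec66]
  rw [e1, smul_spec66, exp_diag O h1 h2, exp_diag O h1 h2]
  -- in the basis of eigenvectors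
  have key : diagonal (fun i => Real.exp (-t * d i)) * (Oᵀ * X * O) * diagonal (fun i => Real.exp (t * d i)) =
      Real.exp (-t) • (Oᵀ * X * O) := by
    have h3 : diagonal d * (Oᵀ * X * O) - (Oᵀ * X * O) * diagonal d = Oᵀ * X * O := by
      have h4 : Oᵀ * (O * diagonal d * Oᵀ * X - X * (O * diagonal d * Oᵀ)) * O = Oᵀ * X * O := by rw [h]
      refine Eq.trans ?_ h4
      rw [Matrix.mul_sub, Matrix.sub_mul]
      congr 1
      · calc diagonal d * (Oᵀ * X * O) = 1 * diagonal d * Oᵀ * X * O := by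
              rw [Matrix.one_mul]; simp only [Matrix.mul_assoc]
          _ = Oᵀ * O * diagonal d * Oᵀ * X * O := by rw [h1]
          _ = _ := by simp only [Matrix.mul_assoc]
      · calc Oᵀ * X * O * diagonal d = Oᵀ * X * O * diagonal d * 1 := by rw [Matrix.mul_one]
          _ = Oᵀ * X * O * diagonal d * (Oᵀ * O) := by rw [h1]
          _ = _ := by simp only [Matrix.mul_assoc]
    ext i j
    have h5 := congrFun (congrFun h3 i) j
    rw [Matrix.sub_apply, Matrix.diagonal_mul, Matrix.mul_diagonal] at h5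
    rw [Matrix.mul_diagonal, Matrix.diagonal_mul, Matrix.smul_apply, smul_eq_mul]
    set y := (Oᵀ * X * O) i j with hy
    by_cases hy0 : y = 0
    · rw [hy0]
      ring
    · have h6 : d i - d j = 1 := by
        have : (d i - d j) * y = 1 * y := by linarith
        exact mul_right_cancel₀ hy0 this
      have h7 : Real.exp (-t * d i) * y * Real.exp (t * d j) = Real.exp (-t * d i + t * d j) * y := by
        rw [Real.exp_add]
        ring
      rw [h7]
      congr 2
      have : d i = d j + 1 := by linarith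
      rw [this]
      ring
  calc O * diagonal (fun i => Real.exp (-t * d i)) * Oᵀ * X * (O * diagonal (fun i => Real.exp (t * d i)) * Oᵀ) =
      O * (diagonal (fun i => Real.exp (-t * d i)) * (Oᵀ * X * O) * diagonal (fun i => Real.exp (t * d i))) * Oᵀ := by
        simp only [Matrix.mul_assoc]
    _ = O * (Real.exp (-t) • (Oᵀ * X * O)) * Oᵀ := by rw [key]
    _ = Real.exp (-t) • (O * Oᵀ * X * (O * Oᵀ)) := by
        rw [Matrix.mul_smul, Matrix.smul_mul]
        simp only [Matrix.mul_assoc]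
    _ = Real.exp (-t) • X := by rw [h2, Matrix.one_mul, Matrix.mul_one]

private theorem conjT66 {H X : Mat N} (hs : Hᵀ = H) (h : H * X - X * H = X) (t : ℝ) :
    NormedSpace.exp (t • H) * Xᵀ * NormedSpace.exp (-(t • H)) = Real.exp (-t) • Xᵀ := by
  have h1 := congrArg Matrix.transpose (conj66 hs h t)
  rw [Matrix.transpose_mul, Matrix.transpose_mul, Matrix.transpose_smul, ← Matrix.exp_transpose,
    ← Matrix.exp_transpose, Matrix.transpose_neg, Matrix.transpose_smul, hs, ← Matrix.mul_assoc] at h1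
  exact h1

/-- conjugation in the group -/
private theorem gconj66 {H X : Mat N} (hs : Hᵀ = H) (h : H * X - X * H = X) (s : ℝ) (m : ℕ) :
    (ex H ^ m)⁻¹ * ex (s • X) * ex H ^ m = ex ((s * Real.exp (-(m : ℝ))) • X) := by
  have h1 := ex_conj ((ex H ^ m)⁻¹) (s • X)
  rw [inv_inv] at h1
  rw [← h1]
  congr 1
  have e1 : ((ex H ^ m : GL (Fin N) ℝ) : Mat N) = NormedSpace.exp ((m : ℝ) • H) := by
    rw [← ex_nsmul, ex_coe]
  have e2 : (((ex H ^ m)⁻¹ : GL (Fin N) ℝ) : Mat N) = NormedSpace.exp (-((m : ℝ) • H)) := by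
    rw [← ex_nsmul, ← ex_neg, ex_coe]
  rw [e1, e2, Matrix.mul_smul, Matrix.smul_mul, conj66 hs h, smul_smul]

private theorem gconjT66 {H X : Mat N} (hs : Hᵀ = H) (h : H * X - X * H = X) (s : ℝ) (m : ℕ) :
    ex H ^ m * ex (s • Xᵀ) * (ex H ^ m)⁻¹ = ex ((s * Real.exp (-(m : ℝ))) • Xᵀ) := by
  have h1 := ex_conj (ex H ^ m) (s • Xᵀ)
  rw [← h1]
  congr 1
  have e1 : ((ex H ^ m : GL (Fin N) ℝ) : Mat N) = NormedSpace.exp ((m : ℝ) • H) := by
    rw [← ex_nsmul, ex_coe]
  have e2 : (((ex H ^ m)⁻¹ : GL (Fin N) ℝ) : Mat N) = NormedSpace.exp (-((m : ℝ) • H)) := by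
    rw [← ex_nsmul, ← ex_neg, ex_coe]
  rw [e1, e2, Matrix.mul_smul, Matrix.smul_mul, conjT66 hs h, smul_smul]

private theorem tend66 (X : Mat N) (s : ℝ) :
    Tendsto (fun m : ℕ => ex ((s * Real.exp (-(m : ℝ))) • X)) atTop (𝓝 1) := by
  have h1 : Tendsto (fun m : ℕ => (s * Real.exp (-(m : ℝ))) • X) atTop (𝓝 ((s * 0) • X)) := by
    refine Tendsto.smul_const (Tendsto.const_mul s ?_) X
    exact (Real.tendsto_exp_neg_atTop_nhds_zero).comp tendsto_natCast_atTop_atTop
  rw [mul_zero, zero_smul] at h1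
  have h2 := (continuous_ex.tendsto (0 : Mat N)).comp h1
  rwa [ex_zero] at h2

/-- the powers tend to infinity -/
private theorem infty66 {H : Mat N} (hs : Hᵀ = H) (hH : H ≠ 0) (a : G) (ha : (a : GL (Fin N) ℝ) = ex H) :
    Tendsto (fun m : ℕ => a ^ m) atTop (cocompact G) := by
  obtain ⟨O, d, h1, h2, hd⟩ := spec66 hs
  have hd0 : ∃ i, d i ≠ 0 := by
    by_contra hcon
    push Not at hcon
    apply hH
    have e : d = 0 := funext hcon
    rw [hd, e]
    simp
  obtain ⟨i0, hi0⟩ := hd0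
  let F : G → ℝ := fun g => ((g : GL (Fin N) ℝ) : Mat N).trace + (((g : GL (Fin N) ℝ)⁻¹ : GL (Fin N) ℝ) : Mat N).trace
  have hF : Continuous F := by
    have c1 : Continuous fun g : G => ((g : GL (Fin N) ℝ) : Mat N) := Units.continuous_val.comp continuous_subtype_val
    have c2 : Continuous fun g : G => (((g : GL (Fin N) ℝ)⁻¹ : GL (Fin N) ℝ) : Mat N) :=
      Units.continuous_val.comp (continuous_inv.comp continuous_subtype_val)
    exact c1.matrix_trace.add c2.matrix_trace
  have htr : ∀ e : Fin N → ℝ, (O * diagonal e * Oᵀ).trace = ∑ i, e i := by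
    intro e
    rw [Matrix.trace_mul_comm, ← Matrix.mul_assoc, h1, Matrix.one_mul, Matrix.trace_diagonal]
  have hlow : ∀ m : ℕ, (m : ℝ) * |d i0| ≤ F (a ^ m) := by
    intro m
    have e1 : (((a ^ m : G) : GL (Fin N) ℝ) : Mat N) = O * diagonal (fun i => Real.exp (m * d i)) * Oᵀ := by
      rw [SubmonoidClass.coe_pow, ha, ← ex_nsmul, ex_coe, hd, smul_spec66, exp_diag O h1 h2]
    have e2 : ((((a ^ m : G) : GL (Fin N) ℝ)⁻¹ : GL (Fin N) ℝ) : Mat N) =
        O * diagonal (fun i => Real.exp (-m * d i)) * Oᵀ := by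
      rw [SubmonoidClass.coe_pow, ha, ← ex_nsmul, ← ex_neg, ex_coe, hd, ← neg_smul, smul_spec66, exp_diag O h1 h2]
    change _ ≤ (((a ^ m : G) : GL (Fin N) ℝ) : Mat N).trace + ((((a ^ m : G) : GL (Fin N) ℝ)⁻¹ : GL (Fin N) ℝ) : Mat N).trace
    rw [e1, e2, htr, htr]
    have h3 : Real.exp (m * d i0) ≤ ∑ i, Real.exp (m * d i) :=
      Finset.single_le_sum (f := fun i => Real.exp (m * d i)) (fun _ _ => (Real.exp_pos _).le) (Finset.mem_univ i0)
    have h4 : Real.exp (-m * d i0) ≤ ∑ i, Real.exp (-m * d i) :=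
      Finset.single_le_sum (f := fun i => Real.exp (-m * d i)) (fun _ _ => (Real.exp_pos _).le) (Finset.mem_univ i0)
    have h5 := Real.add_one_le_exp ((m : ℝ) * d i0)
    have h6 := Real.add_one_le_exp (-(m : ℝ) * d i0)
    have h7 := Real.exp_pos ((m : ℝ) * d i0)
    have h8 := Real.exp_pos (-(m : ℝ) * d i0)
    rcases abs_cases (d i0) with ⟨h9, _⟩ | ⟨h9, _⟩
    · rw [h9]
      linarith
    · rw [h9]
      linarith
  have hlim : Tendsto (fun m : ℕ => F (a ^ m)) atTop atTop := by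
    refine tendsto_atTop_mono hlow ?_
    exact Tendsto.atTop_mul_const (abs_pos.2 hi0) tendsto_natCast_atTop_atTop
  rw [Filter.tendsto_def]
  intro s hs'
  obtain ⟨K, hK, hKs⟩ := mem_cocompact.1 hs'
  obtain ⟨B, hB⟩ := (hK.image hF).bddAbove
  filter_upwards [hlim.eventually (eventually_gt_atTop B)] with m hm
  refine hKs fun hmK => ?_
  exact absurd (hB ⟨a ^ m, hmK, rfl⟩) (not_le.2 hm)

private theorem map66 (x y : G) : (Subgroup.closure {x, y}).map G.subtype =
    Subgroup.closure {(x : GL (Fin N) ℝ), (y : GL (Fin N) ℝ)} := by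
  rw [MonoidHom.map_closure, Set.image_pair]
  rfl

private theorem disc66 (x y : G) (h : DiscreteTopology (Subgroup.closure {(x : GL (Fin N) ℝ), (y : GL (Fin N) ℝ)})) :
    DiscreteTopology (Subgroup.closure {x, y}) := by
  rw [← map66] at h
  let f : Subgroup.closure {x, y} → (Subgroup.closure {x, y}).map G.subtype :=
    fun z => ⟨((z : G) : GL (Fin N) ℝ), ⟨z, z.2, rfl⟩⟩
  have hf : Continuous f := by
    refine Continuous.subtype_mk ?_ _
    exact continuous_subtype_val.comp continuous_subtype_val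
  refine DiscreteTopology.of_continuous_injective hf fun z z' hzz => ?_
  have h2 : (f z : GL (Fin N) ℝ) = f z' := by rw [hzz]
  exact Subtype.ext (Subtype.ext h2)

private theorem nonam66 (x y : G) (h : Pool.Agent.Helper90.RK.NonAm (Subgroup.closure {(x : GL (Fin N) ℝ), (y : GL (Fin N) ℝ)})) :
    Pool.Agent.Helper90.RK.NonAm (Subgroup.closure {x, y}) := by
  rw [Pool.Agent.Helper66.RK.nonAm_iff] at h ⊢
  intro hA
  apply h
  rw [← map66]
  exact hA.congr ((Subgroup.closure {x, y}).equivMapOfInjective G.subtype G.subtype_injective)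

theorem rankGE_flat (hG : IsClosed (G : Set (GL (Fin N) ℝ))) (ht : ∀ X ∈ lie G, Xᵀ ∈ lie G)
    (hsemi : ∀ X ∈ lie G, Xᵀ = X → (∀ Y ∈ lie G, X * Y = Y * X) → X = 0)
    {V : Submodule ℝ (Mat N)} (hV : IsFlat G V)
    (hmax : ∀ Y ∈ lie G, Yᵀ = Y → (∀ H ∈ V, Y * H = H * Y) → Y ∈ V) : RankGE G (Module.finrank ℝ V) := by
  obtain ⟨H, X, hH, hX, hX0, hbr, hroot⟩ := exists_roots hG hsemi hV
  have h1 : ∀ i, H i * X i - X i * H i = X i := fun i => by rw [hbr, if_pos rfl]
  have hs : ∀ i, (H i)ᵀ = H i := fun i => hV.symm _ (hH i)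
  have hd : ∀ i, ∃ s : ℝ, 0 < s ∧ DiscreteTopology (Subgroup.closure {ex (s • X i), ex (s • (X i)ᵀ)}) ∧
      Pool.Agent.Helper90.RK.NonAm (Subgroup.closure {ex (s • X i), ex (s • (X i)ᵀ)}) := by
    intro i
    obtain ⟨_, c, hc, h2⟩ := sl2_of_root hG ht hV hmax (hH i) (hX i) (hX0 i) (hroot i) (h1 i)
    exact discrete_nonAm (X i) (hX0 i) c hc h2
  choose s hs0 hdis hna using hd
  let a : Fin (Module.finrank ℝ V) → G := fun i => ⟨ex (H i), by
    have h := mem_lie.1 (hV.mem _ (hH i)) 1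
    rwa [one_smul] at h⟩
  let u : Fin (Module.finrank ℝ V) → G := fun i => ⟨ex (s i • X i), mem_lie.1 (hX i) (s i)⟩
  let w : Fin (Module.finrank ℝ V) → G := fun i => ⟨ex (s i • (X i)ᵀ), mem_lie.1 (ht _ (hX i)) (s i)⟩
  have hcomm : ∀ i j, i ≠ j → H j * X i = X i * H j := by
    intro i j hij
    have h := hbr j i
    rw [if_neg (Ne.symm hij)] at h
    exact sub_eq_zero.1 h
  have hcommT : ∀ i j, i ≠ j → H j * (X i)ᵀ = (X i)ᵀ * H j := by
    intro i j hij
    have h := congrArg Matrix.transpose (hcomm i j hij)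
    rw [Matrix.transpose_mul, Matrix.transpose_mul, hs] at h
    exact h.symm
  refine ⟨a, u, w, ?_, ?_, ?_⟩
  · intro i j
    exact Subtype.ext (ex_comm66 (hV.comm _ (hH i) _ (hH j)))
  · intro i _
    refine infty66 (hs i) ?_ (a i) rfl
    intro h0
    apply hX0 i
    have h2 := h1 i
    rw [h0, zero_mul, mul_zero, sub_zero] at h2
    exact h2.symm
  · intro i _
    refine ⟨fun j hj => ⟨?_, ?_⟩, ?_, ?_, disc66 (u i) (w i) (hdis i), nonam66 (u i) (w i) (hna i)⟩
    · refine Subtype.ext (ex_comm66 ?_)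
      rw [Matrix.mul_smul, Matrix.smul_mul, hcomm i j hj.ne']
    · refine Subtype.ext (ex_comm66 ?_)
      rw [Matrix.mul_smul, Matrix.smul_mul, hcommT i j hj.ne']
    · rw [tendsto_subtype_rng]
      refine (tend66 (X i) (s i)).congr fun m => ?_
      exact (gconj66 (hs i) (h1 i) (s i) m).symm
    · rw [tendsto_subtype_rng]
      refine (tend66 (X i)ᵀ (s i)).congr fun m => ?_
      exact (gconjT66 (hs i) (h1 i) (s i) m).symm

end Pool.Agent.Helper96.SA
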