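import Pool.Agent.Helper96.SA.Exp

/-!
# Project SA (MP_0f6f3f_an): automorphism groups of real Lie algebras (definitions)

`CartanBasis θ b`: `θ` is a Cartan involution of the real Lie algebra `L`, and the basis `b` of `L` is orthonormal for the inner product `-κ(x, θ y)`, where `κ` is the Killing form. `autG b`: the group of the automorphisms of the Lie algebra `L`, as a group of
matrices.
-/

set_option autoImplicit false

open Matrix

namespace Pool.Agent.Helper96.SA

variable {L : Type} [LieRing L] [LieAlgebra ℝ L] {N : ℕ}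

/-- `θ` is an involution of the Lie algebra `L`, and the basis `b` is orthonormal for `-κ(x, θ y)`, `κ` the Killing form. -/
structure CartanBasis (θ : L ≃ₗ⁅ℝ⁆ L) (b : Module.Basis (Fin N) ℝ L) : Prop where
  invol : ∀ x, θ (θ x) = x
  orth : ∀ i j, -killingForm ℝ L (b i) (θ (b j)) = if i = j then 1 else 0

/-- The group of the automorphisms of `L`, as matrices with respect to the basis `b`. -/
def autG (b : Module.Basis (Fin N) ℝ L) : Subgroup (GL (Fin N) ℝ) where
  carrier := {g | ∀ x y : L, toLin b b (g : Mat N) ⁅x, y⁆ = ⁅toLin b b (g : Mat N) x, toLin b b (g : Mat N) y⁆}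
  mul_mem' {g h} hg hh x y := by
    rw [Units.val_mul, toLin_mul b b b]
    simp only [LinearMap.comp_apply]
    rw [hh x y, hg]
  one_mem' x y := by
    rw [Units.val_one, toLin_one]
    simp
  inv_mem' {g} hg x y := by
    have key : ∀ z : L, toLin b b (g : Mat N) (toLin b b ((g⁻¹ : GL (Fin N) ℝ) : Mat N) z) = z := by
      intro z
      rw [← LinearMap.comp_apply, ← toLin_mul b b b, Units.mul_inv, toLin_one]
      rfl
    have key' : ∀ z : L, toLin b b ((g⁻¹ : GL (Fin N) ℝ) : Mat N) (toLin b b (g : Mat N) z) = z := by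
      intro z
      rw [← LinearMap.comp_apply, ← toLin_mul b b b, Units.inv_mul, toLin_one]
      rfl
    have h := hg (toLin b b ((g⁻¹ : GL (Fin N) ℝ) : Mat N) x) (toLin b b ((g⁻¹ : GL (Fin N) ℝ) : Mat N) y)
    rw [key, key] at h
    rw [← h, key']

theorem mem_autG {b : Module.Basis (Fin N) ℝ L} {g : GL (Fin N) ℝ} : g ∈ autG b ↔
    ∀ x y : L, toLin b b (g : Mat N) ⁅x, y⁆ = ⁅toLin b b (g : Mat N) x, toLin b b (g : Mat N) y⁆ := Iff.rfl

end Pool.Agent.Helper96.SA
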