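import Pool.Agent.Helper96.SA.AdjDef

/-!
# Block SA-ADJ1: `Aut(L)` is a real algebraic group, closed under transposition

PROOF. Polynomials: for all `i j k` the `k`-th coordinate of `φ ⁅b i, b j⁆ - ⁅φ (b i), φ (b j)⁆`, `φ = toLin b b g`: `∑ l, C (b.repr ⁅b i, b j⁆ l) * X (k, l) - ∑ l m, C (b.repr ⁅b l, b m⁆ k) * X (l, i) * X (m, j)`; by bilinearity it is enough to consider basis vectors
(`Module.Basis.ext`, `LinearMap.ext_basis`). Transposition: the Killing form is invariant under automorphisms (`LieAlgebra.killingForm_of_equiv_apply`; build the `LieEquiv` from `g ∈ autG b`), `B(x, y) = -κ(x, θ y)` is the inner product with orthonormal basis `b`, and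
`B(φ x, y) = -κ(φ x, θ y) = -κ(x, φ⁻¹ θ y) = B(x, θ φ⁻¹ θ y)`, so `gᵀ` is the matrix of the automorphism `θ φ⁻¹ θ`.
-/

set_option autoImplicit false

open Matrix

namespace Pool.Agent.Helper96.SA

variable {L : Type} [LieRing L] [LieAlgebra ℝ L] {N : ℕ}

private lemma toLin_mul_inv64 (b : Module.Basis (Fin N) ℝ L) (g : GL (Fin N) ℝ) (z : L) :
    toLin b b (g : Mat N) (toLin b b ((g⁻¹ : GL (Fin N) ℝ) : Mat N) z) = z := by
  rw [← LinearMap.comp_apply, ← toLin_mul b b b, Units.mul_inv, toLin_one]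
  rfl

private lemma toLin_inv_mul64 (b : Module.Basis (Fin N) ℝ L) (g : GL (Fin N) ℝ) (z : L) :
    toLin b b ((g⁻¹ : GL (Fin N) ℝ) : Mat N) (toLin b b (g : Mat N) z) = z := by
  rw [← LinearMap.comp_apply, ← toLin_mul b b b, Units.inv_mul, toLin_one]
  rfl

/-- the Lie equivalence of an element of `autG b` -/
private noncomputable def eqv64 (b : Module.Basis (Fin N) ℝ L) (g : GL (Fin N) ℝ) (hg : g ∈ autG b) : L ≃ₗ⁅ℝ⁆ L :=
  { toLin b b (g : Mat N) with
    map_lie' := fun {x y} => hg x y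
    invFun := toLin b b ((g⁻¹ : GL (Fin N) ℝ) : Mat N)
    left_inv := toLin_inv_mul64 b g
    right_inv := toLin_mul_inv64 b g }

private lemma eqv64_apply (b : Module.Basis (Fin N) ℝ L) (g : GL (Fin N) ℝ) (hg : g ∈ autG b) (x : L) :
    eqv64 b g hg x = toLin b b (g : Mat N) x := rfl

private lemma coord64 {θ : L ≃ₗ⁅ℝ⁆ L} {b : Module.Basis (Fin N) ℝ L} (h : CartanBasis θ b) (x : L) (i : Fin N) :
    b.repr x i = -killingForm ℝ L x (θ (b i)) := by
  conv_rhs => rw [← b.sum_repr x]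
  simp only [map_sum, map_smul, LinearMap.sum_apply, LinearMap.smul_apply]
  rw [← Finset.sum_neg_distrib]
  have h1 : ∀ j, -(b.repr x j • killingForm ℝ L (b j) (θ (b i))) = b.repr x j * (if j = i then 1 else 0) := by
    intro j
    rw [← h.orth j i, smul_eq_mul, mul_neg]
  simp only [h1]
  simp

private lemma coordT64 {θ : L ≃ₗ⁅ℝ⁆ L} {b : Module.Basis (Fin N) ℝ L} (h : CartanBasis θ b) (φ : L ≃ₗ⁅ℝ⁆ L) (i j : Fin N) :
    b.repr (θ (φ.symm (θ (b j)))) i = b.repr (φ (b i)) j := by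
  rw [coord64 h, coord64 h]
  congr 1
  rw [LieAlgebra.killingForm_of_equiv_apply, ← LieAlgebra.killingForm_of_equiv_apply φ, LieEquiv.apply_symm_apply,
    LieModule.traceForm_comm]

theorem algSelfAdj_autG {θ : L ≃ₗ⁅ℝ⁆ L} {b : Module.Basis (Fin N) ℝ L} (h : CartanBasis θ b) : AlgSelfAdj (autG b) := by
  constructor
  · refine ⟨Set.range fun ijk : Fin N × Fin N × Fin N =>
      ((∑ l, MvPolynomial.C (b.repr ⁅b ijk.1, b ijk.2.1⁆ l) * MvPolynomial.X (ijk.2.2, l)) -
        ∑ l, ∑ m, MvPolynomial.C (b.repr ⁅b l, b m⁆ ijk.2.2) * MvPolynomial.X (l, ijk.1) * MvPolynomial.X (m, ijk.2.1) :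
        MvPolynomial (Fin N × Fin N) ℝ), fun g => ?_⟩
    have key : ∀ i j k : Fin N, MvPolynomial.eval (fun ij : Fin N × Fin N => (g : Mat N) ij.1 ij.2)
        ((∑ l, MvPolynomial.C (b.repr ⁅b i, b j⁆ l) * MvPolynomial.X (k, l)) -
        ∑ l, ∑ m, MvPolynomial.C (b.repr ⁅b l, b m⁆ k) * MvPolynomial.X (l, i) * MvPolynomial.X (m, j)) =
        b.repr (toLin b b (g : Mat N) ⁅b i, b j⁆) k - b.repr ⁅toLin b b (g : Mat N) (b i), toLin b b (g : Mat N) (b j)⁆ k := by
      intro i j k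
      have h1 : b.repr (toLin b b (g : Mat N) ⁅b i, b j⁆) k = ∑ l, b.repr ⁅b i, b j⁆ l * (g : Mat N) k l := by
        rw [Matrix.repr_toLin]
        simp only [Matrix.mulVec, dotProduct]
        exact Finset.sum_congr rfl fun l _ => mul_comm _ _
      have h2 : b.repr ⁅toLin b b (g : Mat N) (b i), toLin b b (g : Mat N) (b j)⁆ k =
          ∑ l, ∑ m, b.repr ⁅b l, b m⁆ k * (g : Mat N) l i * (g : Mat N) m j := by
        rw [Matrix.toLin_self, Matrix.toLin_self]
        simp only [sum_lie, lie_sum, smul_lie, lie_smul, map_sum, map_smul, Finsupp.coe_finsetSum, Finset.sum_apply,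
          Finsupp.coe_smul, Pi.smul_apply, smul_eq_mul]
        rw [Finset.sum_comm (s := Finset.univ) (t := Finset.univ) (f := fun l m => b.repr ⁅b l, b m⁆ k * (g : Mat N) l i * (g : Mat N) m j)]
        refine Finset.sum_congr rfl fun l _ => ?_
        rw [Finset.mul_sum]
        refine Finset.sum_congr rfl fun m _ => ?_
        ring
      rw [h1, h2]
      simp
    constructor
    · rintro hg p ⟨⟨i, j, k⟩, rfl⟩
      refine (key i j k).trans ?_
      rw [hg (b i) (b j), sub_self]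
    · intro hp
      have h3 : ∀ i j, toLin b b (g : Mat N) ⁅b i, b j⁆ = ⁅toLin b b (g : Mat N) (b i), toLin b b (g : Mat N) (b j)⁆ := by
        intro i j
        apply b.repr.injective
        ext k
        have h4 := hp _ ⟨(i, j, k), rfl⟩
        have h5 := (key i j k).symm.trans h4
        linarith
      have h6 : ((LieModule.toEnd ℝ L L : L →ₗ[ℝ] L →ₗ[ℝ] L)).compr₂ (toLin b b (g : Mat N)) =
          ((LieModule.toEnd ℝ L L : L →ₗ[ℝ] L →ₗ[ℝ] L)).compl₁₂ (toLin b b (g : Mat N)) (toLin b b (g : Mat N)) := by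
        refine LinearMap.ext_basis b b fun i j => ?_
        exact h3 i j
      intro x y
      exact LinearMap.congr_fun₂ h6 x y
  · intro g hg
    set φ := eqv64 b g hg with hφ
    have h1 : toLin b b (g : Mat N)ᵀ = ((θ.toLinearEquiv : L →ₗ[ℝ] L) ∘ₗ (φ.symm.toLinearEquiv : L →ₗ[ℝ] L) ∘ₗ (θ.toLinearEquiv : L →ₗ[ℝ] L)) := by
      refine b.ext fun j => ?_
      apply b.repr.injective
      ext i
      rw [Matrix.toLin_self]
      simp only [map_sum, map_smul, Module.Basis.repr_self, Finsupp.coe_finsetSum, Finset.sum_apply, Finsupp.coe_smul, Pi.smul_apply,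
        smul_eq_mul, transpose_apply, LinearMap.comp_apply]
      have h2 := coordT64 h φ i j
      have h3 : φ (b i) = ∑ k, (g : Mat N) k i • b k := Matrix.toLin_self b b _ i
      refine Eq.trans ?_ h2.symm
      rw [h3]
      simp [Finsupp.single_apply]
    have hT : (g : Mat N)ᵀ * ((g⁻¹ : GL (Fin N) ℝ) : Mat N)ᵀ = 1 := by
      rw [← transpose_mul, Units.inv_mul, transpose_one]
    have hT' : ((g⁻¹ : GL (Fin N) ℝ) : Mat N)ᵀ * (g : Mat N)ᵀ = 1 := by
      rw [← transpose_mul, Units.mul_inv, transpose_one]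
    refine ⟨⟨(g : Mat N)ᵀ, ((g⁻¹ : GL (Fin N) ℝ) : Mat N)ᵀ, hT, hT'⟩, ?_, rfl⟩
    intro x y
    change toLin b b (g : Mat N)ᵀ ⁅x, y⁆ = ⁅toLin b b (g : Mat N)ᵀ x, toLin b b (g : Mat N)ᵀ y⁆
    rw [h1]
    change θ (φ.symm (θ ⁅x, y⁆)) = ⁅θ (φ.symm (θ x)), θ (φ.symm (θ y))⁆
    rw [LieEquiv.map_lie, LieEquiv.map_lie, LieEquiv.map_lie]

end Pool.Agent.Helper96.SA
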