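import Pool.Agent.Helper96.SA.Exp

/-!
# Block SA-CRV: the rational normal curve

PROOF. `X (crv x y) = ∑ j < k, x^(k-j-1) y^(j+1) (k - j) v j = y ∂_x (crv x y)` and `Y (crv x y) = ∑ 1 ≤ j ≤ k, x^(k-j+1) y^(j-1) j v j = x ∂_y (crv x y)`. So the function `s ↦ exp(-sX) (crv (x + s y) y)` has derivative `0` (entrywise `hasDerivAt_exp`, or
`open scoped Matrix.Norms.Operator`, `HasDerivAt` of `mulVec` through a finite sum), so it is equal to its value `crv x y` at `s = 0`; multiply by `exp(sX)`. The same for `Y`.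
-/

set_option autoImplicit false

open Matrix NormedSpace

namespace Pool.Agent.Helper96.SA

variable {N : ℕ}

private theorem flow52 (X : Mat N) (F : ℝ → Fin N → ℝ)
    (hF : ∀ s j, HasDerivAt (fun s => F s j) ((X *ᵥ F s) j) s) (s : ℝ) :
    exp (s • X) *ᵥ F 0 = F s := by
  have hcomm : ∀ s : ℝ, exp (s • (-X)) * X = X * exp (s • (-X)) := by
    intro s
    have h1 : Commute X (s • (-X)) := ((Commute.refl X).neg_right).smul_right s
    exact h1.exp_right.eq.symm
  have hd : ∀ i (s : ℝ), HasDerivAt (fun s : ℝ => ∑ j, exp (s • (-X)) i j * F s j) 0 s := by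
    intro i s
    have h1 : ∀ j ∈ (Finset.univ : Finset (Fin N)),
        HasDerivAt (fun s : ℝ => exp (s • (-X)) i j * F s j)
        (((-X) * exp (s • (-X))) i j * F s j + exp (s • (-X)) i j * (X *ᵥ F s) j) s :=
      fun j _ => (hasDerivAt_exp (-X) s i j).mul (hF s j)
    have h2 := HasDerivAt.fun_sum h1
    have e : ∑ j, (((-X) * exp (s • (-X))) i j * F s j + exp (s • (-X)) i j * (X *ᵥ F s) j) = 0 := by
      rw [Finset.sum_add_distrib]
      have e1 : ∑ j, ((-X) * exp (s • (-X))) i j * F s j = (((-X) * exp (s • (-X))) *ᵥ F s) i := rfl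
      have e2 : ∑ j, exp (s • (-X)) i j * (X *ᵥ F s) j = (exp (s • (-X)) *ᵥ (X *ᵥ F s)) i := rfl
      rw [e1, e2, Matrix.mulVec_mulVec, hcomm, neg_mul, Matrix.neg_mulVec, Pi.neg_apply,
        neg_add_cancel]
    rw [e] at h2
    exact h2
  have hconst : exp (s • (-X)) *ᵥ F s = F 0 := by
    funext i
    have h1 : (fun s : ℝ => ∑ j, exp (s • (-X)) i j * F s j) s =
        (fun s : ℝ => ∑ j, exp (s • (-X)) i j * F s j) 0 :=
      is_const_of_deriv_eq_zero (fun s => (hd i s).differentiableAt) (fun s => (hd i s).deriv) s 0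
    have h2 : (exp ((0 : ℝ) • (-X)) *ᵥ F 0) i = F 0 i := by
      rw [zero_smul, exp_zero, Matrix.one_mulVec]
    calc (exp (s • (-X)) *ᵥ F s) i = (fun s : ℝ => ∑ j, exp (s • (-X)) i j * F s j) s := rfl
      _ = (fun s : ℝ => ∑ j, exp (s • (-X)) i j * F s j) 0 := h1
      _ = (exp ((0 : ℝ) • (-X)) *ᵥ F 0) i := rfl
      _ = F 0 i := h2
  have hinv : exp (s • X) * exp (s • (-X)) = 1 := by
    rw [← Matrix.exp_add_of_commute (s • X) (s • (-X))
      ((((Commute.refl X).neg_right).smul_right s).smul_left s), smul_neg, add_neg_cancel, exp_zero]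
  rw [← hconst, Matrix.mulVec_mulVec, hinv, Matrix.one_mulVec]

/-- the curve -/
def crv (k : ℕ) (v : ℕ → Fin N → ℝ) (x y : ℝ) : Fin N → ℝ := ∑ j ∈ Finset.range (k + 1), (x ^ (k - j) * y ^ j) • v j

theorem exp_crv_X {X : Mat N} {k : ℕ} {v : ℕ → Fin N → ℝ} (h0 : X *ᵥ v 0 = 0)
    (h : ∀ j : ℕ, X *ᵥ v (j + 1) = ((k : ℝ) - j) • v j) (s x y : ℝ) :
    exp (s • X) *ᵥ crv k v x y = crv k v (x + s * y) y := by
  have key : ∀ s j0, HasDerivAt (fun s => crv k v (x + s * y) y j0)
      ((X *ᵥ crv k v (x + s * y) y) j0) s := by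
    intro s j0
    have hlin : HasDerivAt (fun s : ℝ => x + s * y) y s := by
      simpa using ((hasDerivAt_id s).mul_const y).const_add x
    have h1 : ∀ j ∈ Finset.range (k + 1), HasDerivAt (fun s : ℝ => (x + s * y) ^ (k - j) * y ^ j * v j j0)
        (((k - j : ℕ) : ℝ) * (x + s * y) ^ (k - j - 1) * y * y ^ j * v j j0) s :=
      fun j _ => (((hlin.pow (k - j)).mul_const (y ^ j)).mul_const (v j j0))
    have h2 := HasDerivAt.fun_sum h1
    have e1 : (fun s : ℝ => crv k v (x + s * y) y j0) =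
        fun s => ∑ j ∈ Finset.range (k + 1), (x + s * y) ^ (k - j) * y ^ j * v j j0 := by
      funext s
      unfold crv
      rw [Finset.sum_apply]
      rfl
    have e2 : (X *ᵥ crv k v (x + s * y) y) j0 =
        ∑ j ∈ Finset.range (k + 1),
          ((k - j : ℕ) : ℝ) * (x + s * y) ^ (k - j - 1) * y * y ^ j * v j j0 := by
      unfold crv
      rw [Matrix.mulVec_sum, Finset.sum_apply, Finset.sum_range_succ', Finset.sum_range_succ]
      rw [Matrix.mulVec_smul, h0, smul_zero, Pi.zero_apply, add_zero, Nat.sub_self, Nat.cast_zero]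
      rw [zero_mul, zero_mul, zero_mul, zero_mul, add_zero]
      refine Finset.sum_congr rfl fun j hj => ?_
      rw [Finset.mem_range] at hj
      rw [Matrix.mulVec_smul, h j, Pi.smul_apply, Pi.smul_apply, smul_eq_mul, smul_eq_mul,
        Nat.cast_sub hj.le, Nat.sub_sub]
      ring
    rw [e1, e2]
    exact h2
  have h3 := flow52 X (fun s => crv k v (x + s * y) y) key s
  simpa using h3

theorem exp_crv_Y {Y : Mat N} {k : ℕ} {v : ℕ → Fin N → ℝ} (h0 : ∀ j, k < j → v j = 0)
    (h : ∀ j : ℕ, Y *ᵥ v j = ((j : ℝ) + 1) • v (j + 1)) (s x y : ℝ) :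
    exp (s • Y) *ᵥ crv k v x y = crv k v x (y + s * x) := by
  have key : ∀ s j0, HasDerivAt (fun s => crv k v x (y + s * x) j0)
      ((Y *ᵥ crv k v x (y + s * x)) j0) s := by
    intro s j0
    have hlin : HasDerivAt (fun s : ℝ => y + s * x) x s := by
      simpa using ((hasDerivAt_id s).mul_const x).const_add y
    have h1 : ∀ j ∈ Finset.range (k + 1), HasDerivAt (fun s : ℝ => x ^ (k - j) * (y + s * x) ^ j * v j j0)
        (x ^ (k - j) * ((j : ℝ) * (y + s * x) ^ (j - 1) * x) * v j j0) s :=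
      fun j _ => (((hlin.pow j).const_mul (x ^ (k - j))).mul_const (v j j0))
    have h2 := HasDerivAt.fun_sum h1
    have e1 : (fun s : ℝ => crv k v x (y + s * x) j0) =
        fun s => ∑ j ∈ Finset.range (k + 1), x ^ (k - j) * (y + s * x) ^ j * v j j0 := by
      funext s
      unfold crv
      rw [Finset.sum_apply]
      rfl
    have e2 : (Y *ᵥ crv k v x (y + s * x)) j0 =
        ∑ j ∈ Finset.range (k + 1), x ^ (k - j) * ((j : ℝ) * (y + s * x) ^ (j - 1) * x) * v j j0 := by
      unfold crv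
      rw [Matrix.mulVec_sum, Finset.sum_apply, Finset.sum_range_succ, Finset.sum_range_succ']
      have hk : Y *ᵥ v k = 0 := by
        rw [h k, h0 (k + 1) (Nat.lt_succ_self k), smul_zero]
      rw [Matrix.mulVec_smul, hk, smul_zero, Pi.zero_apply, add_zero, Nat.cast_zero]
      rw [zero_mul, zero_mul, mul_zero, zero_mul, add_zero]
      refine Finset.sum_congr rfl fun j hj => ?_
      rw [Finset.mem_range] at hj
      have hx : x ^ (k - j) = x ^ (k - (j + 1)) * x := by
        rw [← pow_succ]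
        congr 1
        omega
      rw [Matrix.mulVec_smul, h j, Pi.smul_apply, Pi.smul_apply, smul_eq_mul, smul_eq_mul,
        Nat.add_sub_cancel, hx]
      push_cast
      ring
    rw [e1, e2]
    exact h2
  have h3 := flow52 Y (fun s => crv k v x (y + s * x)) key s
  simpa using h3

end Pool.Agent.Helper96.SA
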