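import Mathlib

/-!
# Project SA (MP_0f6f3f_an): real algebraic self-adjoint groups and their real rank (definitions)

`lie G`: the matrices `X` with `exp(tX) ∈ G` for all real `t`. `IsFlat G V`: `V` is a vector space of commuting symmetric matrices in `lie G`;
`realRank G` is the largest dimension of such a space. `SelfAdj G`: `G` is a closed subgroup, with the same Lie algebra, of a group `A` which consists of all invertible
real matrices at which some polynomials vanish and is closed under transposition, and no nonzero symmetric matrix in `lie G` commutes with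
all matrices in `lie G`. (If `𝔤` is a simple real Lie algebra which is not compact, then the adjoint group of `𝔤` is such a group `G`, in a suitable basis of `𝔤`, with
`A = Aut(𝔤)`, and `realRank G` is its real rank.)
-/

set_option autoImplicit false

open Matrix Filter Topology

namespace Pool.Agent.Helper96.SA

variable {N : ℕ}

/-- square matrices -/
abbrev Mat (N : ℕ) : Type := Matrix (Fin N) (Fin N) ℝ

/-- The matrices `X` with `exp(tX) ∈ G` for all real `t`. -/
def lie (G : Subgroup (GL (Fin N) ℝ)) : Set (Mat N) :=
  {X | ∀ t : ℝ, ∃ g ∈ G, (g : Mat N) = NormedSpace.exp (t • X)}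

/-- `V` is a vector space of commuting symmetric matrices in `lie G`. -/
structure IsFlat (G : Subgroup (GL (Fin N) ℝ)) (V : Submodule ℝ (Mat N)) : Prop where
  mem : ∀ X ∈ V, X ∈ lie G
  symm : ∀ X ∈ V, Xᵀ = X
  comm : ∀ X ∈ V, ∀ Y ∈ V, X * Y = Y * X

/-- The real rank: the largest dimension of a vector space of commuting symmetric matrices in `lie G`. -/
noncomputable def realRank (G : Subgroup (GL (Fin N) ℝ)) : ℕ :=
  sSup {d | ∃ V : Submodule ℝ (Mat N), IsFlat G V ∧ Module.finrank ℝ V = d}

/-- `A` is a real algebraic group (the set of all invertible matrices at which some polynomials vanish) and closed under transposition. -/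
structure AlgSelfAdj (A : Subgroup (GL (Fin N) ℝ)) : Prop where
  alg : ∃ S : Set (MvPolynomial (Fin N × Fin N) ℝ),
    ∀ g : GL (Fin N) ℝ, g ∈ A ↔ ∀ p ∈ S, MvPolynomial.eval (fun ij => (g : Mat N) ij.1 ij.2) p = 0
  transpose : ∀ g ∈ A, ∃ h ∈ A, (h : Mat N) = (g : Mat N)ᵀ

/-- `G` is a closed subgroup, with the same Lie algebra, of a real algebraic group which is closed under transposition, and no nonzero
symmetric matrix in `lie G` commutes with all matrices in `lie G`. -/
structure SelfAdj (G : Subgroup (GL (Fin N) ℝ)) : Prop where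
  closed : IsClosed (G : Set (GL (Fin N) ℝ))
  alg : ∃ A : Subgroup (GL (Fin N) ℝ), AlgSelfAdj A ∧ G ≤ A ∧ ∀ X ∈ lie A, X ∈ lie G
  semi : ∀ X ∈ lie G, Xᵀ = X → (∀ Y ∈ lie G, X * Y = Y * X) → X = 0

/-- the matrix exponential, with values in `GL(N, ℝ)` -/
noncomputable def ex (X : Mat N) : GL (Fin N) ℝ :=
  ⟨NormedSpace.exp X, NormedSpace.exp (-X),
    by rw [← Matrix.exp_add_of_commute X (-X) (Commute.neg_right (Commute.refl X)), add_neg_cancel, NormedSpace.exp_zero],
    by rw [← Matrix.exp_add_of_commute (-X) X (Commute.neg_left (Commute.refl X)), neg_add_cancel, NormedSpace.exp_zero]⟩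

end Pool.Agent.Helper96.SA
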