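import Pool.Agent.Helper96.SA.Exp

/-!
# Block SA-DIAG: simultaneous diagonalization of commuting symmetric real matrices

PROOF. `T X = Matrix.toEuclideanLin X` for `X ∈ S` (index type the subtype `S`) are commuting symmetric operators of `E = EuclideanSpace ℝ (Fin N)`; by `LinearMap.IsSymmetric.iSup_iInf_eq_top_of_commute` the joint eigenspaces
`E χ = ⨅ X, eigenspace (T X) (χ X)`, `χ : S → ℝ`, span `E`, and they are orthogonal (`LinearMap.IsSymmetric.orthogonalFamily_iInf_eigenspaces`). Only finitely many of them are nonzero (`OrthogonalFamily.independent`,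
`iSupIndep`/`WellFoundedGT.finite_ne_bot_of_iSupIndep`), so `DirectSum.IsInternal` over the finite subtype and `DirectSum.IsInternal.subordinateOrthonormalBasis` give an orthonormal basis of joint eigenvectors; its vectors are the columns of `O`. (Alternative: a maximal
orthonormal family of joint eigenvectors; or induction on `N`.)
-/

set_option autoImplicit false

open Matrix Filter Topology

namespace Pool.Agent.Helper96.SA

variable {N : ℕ}

open scoped Function in
private lemma comm_h12 (S : Set (Mat N)) (hc : ∀ X ∈ S, ∀ Y ∈ S, X * Y = Y * X) :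
    Pairwise (Commute on fun X : S =>
      (Matrix.toEuclideanLin X.1 : Module.End ℝ (EuclideanSpace ℝ (Fin N)))) := by
  intro X Y _
  change _ * _ = _ * _
  refine LinearMap.ext fun v => ?_
  change Matrix.toEuclideanLin X.1 (Matrix.toEuclideanLin Y.1 v) =
    Matrix.toEuclideanLin Y.1 (Matrix.toEuclideanLin X.1 v)
  simp only [Matrix.toEuclideanLin_apply, Matrix.mulVec_mulVec]
  rw [hc X.1 X.2 Y.1 Y.2]

theorem simDiag (S : Set (Mat N)) (hs : ∀ X ∈ S, Xᵀ = X) (hc : ∀ X ∈ S, ∀ Y ∈ S, X * Y = Y * X) :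
    ∃ O : Mat N, Oᵀ * O = 1 ∧ O * Oᵀ = 1 ∧ ∀ X ∈ S, ∃ d : Fin N → ℝ, X = O * diagonal d * Oᵀ := by
  classical
  set T : S → Module.End ℝ (EuclideanSpace ℝ (Fin N)) := fun X => Matrix.toEuclideanLin X.1 with hTdef
  have hT : ∀ X, (T X).IsSymmetric := by
    intro X
    refine Matrix.isSymmetric_toEuclideanLin_iff.2 ?_
    change X.1ᴴ = X.1
    rw [Matrix.conjTranspose_eq_transpose_of_trivial]
    exact hs _ X.2
  have hC := comm_h12 S hc
  have hO := LinearMap.IsSymmetric.orthogonalFamily_iInf_eigenspaces hT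
  have hsup := LinearMap.IsSymmetric.iSup_iInf_eq_top_of_commute hT hC
  set V : (S → ℝ) → Submodule ℝ (EuclideanSpace ℝ (Fin N)) :=
    fun χ => ⨅ X, Module.End.eigenspace (T X) (χ X) with hV
  have hfin : {χ | V χ ≠ ⊥}.Finite := Submodule.finite_ne_bot_of_iSupIndep hO.independent
  have hFT : Fintype {χ // V χ ≠ ⊥} := hfin.fintype
  have hO' : OrthogonalFamily ℝ (fun i : {χ // V χ ≠ ⊥} => V i.1) fun i => (V i.1).subtypeₗᵢ :=
    hO.comp Subtype.val_injective
  have hI : DirectSum.IsInternal (fun i : {χ // V χ ≠ ⊥} => V i.1) := by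
    rw [hO'.isInternal_iff, iSup_ne_bot_subtype V, hsup, Submodule.top_orthogonal_eq_bot]
  have hn : Module.finrank ℝ (EuclideanSpace ℝ (Fin N)) = N := finrank_euclideanSpace_fin
  obtain ⟨b, χ, hb⟩ : ∃ (b : OrthonormalBasis (Fin N) ℝ (EuclideanSpace ℝ (Fin N)))
      (χ : Fin N → S → ℝ), ∀ a (X : S), T X (b a) = χ a X • b a := by
    refine ⟨hI.subordinateOrthonormalBasis hn hO',
      fun a => (hI.subordinateOrthonormalBasisIndex hn a hO').1, fun a X => ?_⟩
    have h1 := hI.subordinateOrthonormalBasis_subordinate hn a hO'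
    exact Module.End.mem_eigenspace_iff.1 ((Submodule.mem_iInf _).1 h1 X)
  set O : Mat N := Matrix.of fun i a => b a i with hOdef
  have h1 : Oᵀ * O = 1 := by
    ext a a'
    rw [Matrix.mul_apply, Matrix.one_apply]
    have h2 := orthonormal_iff_ite.1 b.orthonormal a a'
    rw [← h2, PiLp.inner_apply]
    refine Finset.sum_congr rfl fun i _ => ?_
    rw [Matrix.transpose_apply, hOdef, Matrix.of_apply, Matrix.of_apply]
    simp [mul_comm]
  have h2 : O * Oᵀ = 1 := mul_eq_one_comm.1 h1
  refine ⟨O, h1, h2, fun X hX => ⟨fun a => χ a ⟨X, hX⟩, ?_⟩⟩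
  have h3 : X * O = O * diagonal (fun a => χ a ⟨X, hX⟩) := by
    ext i a
    rw [Matrix.mul_diagonal, Matrix.mul_apply]
    have h4 := congrArg (fun v : EuclideanSpace ℝ (Fin N) => v i) (hb a ⟨X, hX⟩)
    simp only [hTdef, Matrix.toEuclideanLin_apply] at h4
    have h5 : (X *ᵥ (b a).ofLp) i = χ a ⟨X, hX⟩ * b a i := h4
    rw [Matrix.mulVec, dotProduct] at h5
    rw [hOdef]
    simp only [Matrix.of_apply]
    rw [mul_comm, ← h5]
  rw [← h3, Matrix.mul_assoc, h2, Matrix.mul_one]

end Pool.Agent.Helper96.SA
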