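import Pool.Agent.Helper96.SA.Exp

/-!
# Block SA-EXPS: polynomials on one-parameter groups

PROOF. Let `E` be the set of the functions `f : ℝ → ℝ` of the form `t ↦ ∑ λ ∈ s, c λ * exp(t λ)`, `s : Finset ℝ` (equivalently the span of the functions `t ↦ exp(t λ)`). It contains the constants and is closed under sums and products
(`Submodule.span_induction` twice; or use the range of an algebra homomorphism from `AddMonoidAlgebra ℝ ℝ`), so it contains `t ↦ eval (entries of O diag(exp(t d_i)) O') p` (`MvPolynomial.induction_on`; the entries are `∑ i, O a i * exp(t d_i) * O' i b`).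
If `f ∈ E` vanishes at all `n : ℕ`, then `f = 0`: the maps `n ↦ exp(λ) ^ n` (`λ` pairwise different) are distinct monoid homomorphisms `Multiplicative ℕ →* ℝ` (`powersHom`), so they are linearly independent (`linearIndependent_monoidHom`), and all `c λ = 0`.
-/

set_option autoImplicit false

open Matrix Filter Topology

namespace Pool.Agent.Helper96.SA

variable {N : ℕ}

/-- the function `t ↦ exp(t l)` -/
private noncomputable def ef_h5 (l : ℝ) : ℝ → ℝ := fun t => Real.exp (t * l)

private theorem mul_mem_h5 {f g : ℝ → ℝ} (hf : f ∈ Submodule.span ℝ (Set.range ef_h5))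
    (hg : g ∈ Submodule.span ℝ (Set.range ef_h5)) : f * g ∈ Submodule.span ℝ (Set.range ef_h5) := by
  have h := Submodule.mul_mem_mul hf hg
  rw [Submodule.span_mul_span] at h
  refine Submodule.span_mono ?_ h
  rintro _ ⟨_, ⟨a, rfl⟩, _, ⟨b, rfl⟩, rfl⟩
  refine ⟨a + b, ?_⟩
  funext t
  change Real.exp (t * (a + b)) = Real.exp (t * a) * Real.exp (t * b)
  rw [mul_add, Real.exp_add]

private theorem eval_mem_h5 (p : MvPolynomial (Fin N × Fin N) ℝ) (v : Fin N × Fin N → ℝ → ℝ)
    (hv : ∀ ij, v ij ∈ Submodule.span ℝ (Set.range ef_h5)) :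
    (fun t => MvPolynomial.eval (fun ij => v ij t) p) ∈ Submodule.span ℝ (Set.range ef_h5) := by
  induction p using MvPolynomial.induction_on with
  | C a =>
    simp only [MvPolynomial.eval_C]
    have e : (fun _ : ℝ => a) = a • ef_h5 0 := by
      funext t
      simp [ef_h5]
    rw [e]
    exact Submodule.smul_mem _ _ (Submodule.subset_span ⟨0, rfl⟩)
  | add p q hp hq =>
    simp only [map_add]
    exact Submodule.add_mem _ hp hq
  | mul_X p i hp =>
    simp only [map_mul, MvPolynomial.eval_X]
    exact mul_mem_h5 hp (hv i)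

private theorem zero_of_nat_h5 {f : ℝ → ℝ} (hf : f ∈ Submodule.span ℝ (Set.range ef_h5))
    (h0 : ∀ n : ℕ, f n = 0) : f = 0 := by
  obtain ⟨c, rfl⟩ := Finsupp.mem_span_range_iff_exists_finsupp.1 hf
  have hinj : Function.Injective (fun l : ℝ => powersHom ℝ (Real.exp l)) := fun a b hab =>
    Real.exp_injective ((powersHom ℝ).injective hab)
  have hli := (linearIndependent_monoidHom (Multiplicative ℕ) ℝ).comp _ hinj
  rw [linearIndependent_iff] at hli
  have hc : c = 0 := by
    refine hli c ?_
    funext n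
    rw [Finsupp.linearCombination_apply, Finsupp.sum_apply']
    have h := h0 n.toAdd
    rw [Finsupp.sum_apply'] at h
    rw [Pi.zero_apply, ← h]
    refine Finsupp.sum_congr fun l _ => ?_
    rw [Pi.smul_apply, Pi.smul_apply]
    congr 1
    change (powersHom ℝ (Real.exp l)) n = Real.exp ((n.toAdd : ℝ) * l)
    rw [powersHom_apply, Real.exp_nat_mul]
  rw [hc, Finsupp.sum_zero_index]

theorem eval_exp_eq_zero (p : MvPolynomial (Fin N × Fin N) ℝ) (O O' : Mat N) (d : Fin N → ℝ)
    (h : ∀ n : ℕ, MvPolynomial.eval (fun ij => (O * diagonal (fun i => Real.exp (n * d i)) * O') ij.1 ij.2) p = 0) (t : ℝ) :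
    MvPolynomial.eval (fun ij => (O * diagonal (fun i => Real.exp (t * d i)) * O') ij.1 ij.2) p = 0 := by
  have hv : ∀ ij : Fin N × Fin N, (fun t : ℝ => (O * diagonal (fun i => Real.exp (t * d i)) * O') ij.1 ij.2) ∈
      Submodule.span ℝ (Set.range ef_h5) := by
    intro ij
    have e : (fun t : ℝ => (O * diagonal (fun i => Real.exp (t * d i)) * O') ij.1 ij.2) =
        ∑ i, (O ij.1 i * O' i ij.2) • ef_h5 (d i) := by
      funext t
      rw [Finset.sum_apply, Matrix.mul_apply]
      refine Finset.sum_congr rfl fun i _ => ?_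
      rw [Matrix.mul_diagonal, Pi.smul_apply, smul_eq_mul]
      change O ij.1 i * Real.exp (t * d i) * O' i ij.2 = O ij.1 i * O' i ij.2 * Real.exp (t * d i)
      ring
    rw [e]
    exact Submodule.sum_mem _ fun i _ => Submodule.smul_mem _ _ (Submodule.subset_span ⟨d i, rfl⟩)
  have hf := zero_of_nat_h5 (eval_mem_h5 p _ hv) h
  exact congrFun hf t

end Pool.Agent.Helper96.SA
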