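import Pool.Agent.Helper96.FR.Rge0

/-!
# Block SA-FREE: `[1 4; 0 1]` and `[1 0; 4 1]` generate a free subgroup of `SL(2, ℤ)`

PROOF. `FreeGroup.injective_lift_of_ping_pong` for the action of `G = SL(2, ℤ)` on itself by left multiplication; for `A ∈ G` let `(x, y) = (A 0 0, A 1 0) ≠ (0, 0)` be the first column. `X_u = {|y| < |x|, 0 ≤ x y}`, `Y_u = {|y| < |x|, x y < 0}`,
`X_w = {|x| < |y|, 0 ≤ x y}`, `Y_w = {|x| < |y|, x y < 0}`: pairwise disjoint; `u = uE 4 : (x, y) ↦ (x + 4 y, y)` maps the complement of `Y_u` to `X_u` and `u⁻¹` maps the complement of `X_u` to `Y_u`; `w = lE 4 : (x, y) ↦ (x, y + 4 x)` similarly (with slopes `s = x / y`: `X_u = {s > 1} ∪ {∞}`,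
`Y_u = {s < -1}`, `X_w = {0 ≤ s < 1}`, `Y_w = {-1 < s < 0}`, `u : s ↦ s + 4`).
-/

set_option autoImplicit false

open Matrix

namespace Pool.Agent.Helper96.SA

open Pool.Agent.Helper96.FR

/-- the homomorphism from the free group -/
def sg : FreeGroup Bool →* SpecialLinearGroup (Fin 2) ℤ := FreeGroup.lift fun b => if b then uE 4 else lE 4

private theorem k1_68 {x y : ℤ} (h0 : ¬ (x = 0 ∧ y = 0)) (h : ¬ (|y| < |x| ∧ x * y < 0)) :
    |y| < |x + 4 * y| ∧ 0 ≤ (x + 4 * y) * y := by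
  rw [mul_neg_iff] at h
  rw [mul_nonneg_iff]
  rcases abs_cases x with hx | hx <;> rcases abs_cases y with hy | hy <;>
    rcases abs_cases (x + 4 * y) with hz | hz <;> omega

private theorem k2_68 {x y : ℤ} (h0 : ¬ (x = 0 ∧ y = 0)) (h : ¬ (|y| < |x| ∧ 0 ≤ x * y)) :
    |y| < |x - 4 * y| ∧ (x - 4 * y) * y < 0 := by
  rw [mul_nonneg_iff] at h
  rw [mul_neg_iff]
  rcases abs_cases x with hx | hx <;> rcases abs_cases y with hy | hy <;>
    rcases abs_cases (x - 4 * y) with hz | hz <;> omega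

private theorem col_ne68 (A : SpecialLinearGroup (Fin 2) ℤ) :
    ¬ ((A : Matrix (Fin 2) (Fin 2) ℤ) 0 0 = 0 ∧ (A : Matrix (Fin 2) (Fin 2) ℤ) 1 0 = 0) := by
  rintro ⟨h1, h2⟩
  have h := A.det_coe
  rw [Matrix.det_fin_two, h1, h2] at h
  simp at h

private theorem uE_inv68 : (uE 4 : SpecialLinearGroup (Fin 2) ℤ)⁻¹ = uE (-4) := by
  apply inv_eq_of_mul_eq_one_right
  ext i j
  fin_cases i <;> fin_cases j <;> simp [uE_coe, Matrix.mul_apply, Fin.sum_univ_two]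

private theorem lE_inv68 : (lE 4 : SpecialLinearGroup (Fin 2) ℤ)⁻¹ = lE (-4) := by
  apply inv_eq_of_mul_eq_one_right
  ext i j
  fin_cases i <;> fin_cases j <;> simp [lE_coe, Matrix.mul_apply, Fin.sum_univ_two]

private theorem uE_mul68 (t : ℤ) (A : SpecialLinearGroup (Fin 2) ℤ) :
    ((uE t * A : SpecialLinearGroup (Fin 2) ℤ) : Matrix (Fin 2) (Fin 2) ℤ) 0 0 =
      (A : Matrix (Fin 2) (Fin 2) ℤ) 0 0 + t * (A : Matrix (Fin 2) (Fin 2) ℤ) 1 0 ∧
    ((uE t * A : SpecialLinearGroup (Fin 2) ℤ) : Matrix (Fin 2) (Fin 2) ℤ) 1 0 =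
      (A : Matrix (Fin 2) (Fin 2) ℤ) 1 0 := by
  show (!![1, t; 0, 1] * (A : Matrix (Fin 2) (Fin 2) ℤ)) 0 0 = _ ∧
    (!![1, t; 0, 1] * (A : Matrix (Fin 2) (Fin 2) ℤ)) 1 0 = _
  rw [Matrix.mul_apply, Matrix.mul_apply, Fin.sum_univ_two, Fin.sum_univ_two]
  simp

private theorem lE_mul68 (t : ℤ) (A : SpecialLinearGroup (Fin 2) ℤ) :
    ((lE t * A : SpecialLinearGroup (Fin 2) ℤ) : Matrix (Fin 2) (Fin 2) ℤ) 0 0 =
      (A : Matrix (Fin 2) (Fin 2) ℤ) 0 0 ∧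
    ((lE t * A : SpecialLinearGroup (Fin 2) ℤ) : Matrix (Fin 2) (Fin 2) ℤ) 1 0 =
      (A : Matrix (Fin 2) (Fin 2) ℤ) 1 0 + t * (A : Matrix (Fin 2) (Fin 2) ℤ) 0 0 := by
  show (!![1, 0; t, 1] * (A : Matrix (Fin 2) (Fin 2) ℤ)) 0 0 = _ ∧
    (!![1, 0; t, 1] * (A : Matrix (Fin 2) (Fin 2) ℤ)) 1 0 = _
  rw [Matrix.mul_apply, Matrix.mul_apply, Fin.sum_univ_two, Fin.sum_univ_two]
  simp [add_comm]

/-- for `b = true` the first column `(x, y)`, for `b = false` the reversed one -/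
private def cc68 (b : Bool) (A : SpecialLinearGroup (Fin 2) ℤ) : ℤ × ℤ :=
  if b then ((A : Matrix (Fin 2) (Fin 2) ℤ) 0 0, (A : Matrix (Fin 2) (Fin 2) ℤ) 1 0)
  else ((A : Matrix (Fin 2) (Fin 2) ℤ) 1 0, (A : Matrix (Fin 2) (Fin 2) ℤ) 0 0)

private theorem cc_ne68 (b : Bool) (A : SpecialLinearGroup (Fin 2) ℤ) :
    ¬ ((cc68 b A).1 = 0 ∧ (cc68 b A).2 = 0) := by
  have h := col_ne68 A
  cases b
  · exact fun h' => h ⟨h'.2, h'.1⟩
  · exact h

private theorem cc_mul68 (b : Bool) (A : SpecialLinearGroup (Fin 2) ℤ) :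
    cc68 b ((if b then uE 4 else lE 4) * A) = ((cc68 b A).1 + 4 * (cc68 b A).2, (cc68 b A).2) := by
  cases b
  · exact Prod.ext (lE_mul68 4 A).2 (lE_mul68 4 A).1
  · exact Prod.ext (uE_mul68 4 A).1 (uE_mul68 4 A).2

private theorem cc_inv68 (b : Bool) (A : SpecialLinearGroup (Fin 2) ℤ) :
    cc68 b ((if b then uE 4 else lE 4)⁻¹ * A) = ((cc68 b A).1 - 4 * (cc68 b A).2, (cc68 b A).2) := by
  have e : ∀ x y : ℤ, x - 4 * y = x + -4 * y := fun x y => by ring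
  rw [e]
  cases b
  · simp only [Bool.false_eq_true, if_false, lE_inv68]
    exact Prod.ext (lE_mul68 (-4) A).2 (lE_mul68 (-4) A).1
  · simp only [if_true, uE_inv68]
    exact Prod.ext (uE_mul68 (-4) A).1 (uE_mul68 (-4) A).2

private theorem cc_swap68 {b b' : Bool} (h : b ≠ b') (A : SpecialLinearGroup (Fin 2) ℤ) :
    cc68 b' A = ((cc68 b A).2, (cc68 b A).1) := by
  cases b <;> cases b'
  · exact absurd rfl h
  · rfl
  · rfl
  · exact absurd rfl h

private def PX68 (c : ℤ × ℤ) : Prop := |c.2| < |c.1| ∧ 0 ≤ c.1 * c.2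

private def PY68 (c : ℤ × ℤ) : Prop := |c.2| < |c.1| ∧ c.1 * c.2 < 0

theorem sg_injective : Function.Injective sg := by
  refine FreeGroup.injective_lift_of_ping_pong (α := SpecialLinearGroup (Fin 2) ℤ)
    (fun b : Bool => if b then uE 4 else lE 4)
    (fun b => {A | PX68 (cc68 b A)}) (fun b => {A | PY68 (cc68 b A)})
    ?_ ?_ ?_ ?_ ?_ ?_
  · intro b
    refine ⟨if b then uE 4 else lE 4, ?_⟩
    cases b
    · show PX68 (4, 1)
      unfold PX68
      norm_num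
    · show PX68 (1, 0)
      unfold PX68
      norm_num
  · intro b b' hb
    refine Set.disjoint_left.mpr fun A h1 h2 => ?_
    have h3 := h2.1
    rw [cc_swap68 hb] at h3
    exact lt_asymm h1.1 h3
  · intro b b' hb
    refine Set.disjoint_left.mpr fun A h1 h2 => ?_
    have h3 := h2.1
    rw [cc_swap68 hb] at h3
    exact lt_asymm h1.1 h3
  · intro b b'
    refine Set.disjoint_left.mpr fun A h1 h2 => ?_
    by_cases hb : b = b'
    · subst hb
      exact absurd h1.2 (not_le.mpr h2.2)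
    · have h3 := h2.1
      rw [cc_swap68 hb] at h3
      exact lt_asymm h1.1 h3
  · rintro b _ ⟨A, hA, rfl⟩
    have h := k1_68 (cc_ne68 b A) hA
    show PX68 (cc68 b ((if b then uE 4 else lE 4) * A))
    rw [cc_mul68]
    exact h
  · rintro b _ ⟨A, hA, rfl⟩
    have h := k2_68 (cc_ne68 b A) hA
    show PY68 (cc68 b ((if b then uE 4 else lE 4)⁻¹ * A))
    rw [cc_inv68]
    exact h

end Pool.Agent.Helper96.SA
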