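import Pool.Agent.Helper96.SA.Diag

/-!
# Block SA-REG: regular elements

PROOF. `O` from `simDiag`: `H = O diagonal (h H) Oᵀ` for `H ∈ V`, `h H i = (Oᵀ H O) i i` is linear in `H`. The subspaces `{H ∈ V | h H i = h H j}`, for those `(i, j)` for which this is not all of `V`, are finitely many proper subspaces, so they do not cover `V`
(`Subspace.biUnion_ne_univ_of_top_notMem`, `Submodule.iUnion_ne_univ..`, real field infinite). Let `H ∈ V` be outside of them. If `Y H = H Y`, `Z = Oᵀ Y O`, then `Z i j * h H j = h H i * Z i j`, so `Z i j = 0` or `h H i = h H j`, and in this case `h H' i = h H' j` for all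
`H' ∈ V`; hence `Z` commutes with `diagonal (h H')`.
-/

set_option autoImplicit false

open Matrix Filter Topology

namespace Pool.Agent.Helper96.SA

variable {N : ℕ}

/-- the diagonal entries in the basis `O` -/
private noncomputable def hh1 (O : Mat N) (i : Fin N) : Mat N →ₗ[ℝ] ℝ where
  toFun X := (Oᵀ * X * O) i i
  map_add' X Y := by rw [Matrix.mul_add, Matrix.add_mul, Matrix.add_apply]
  map_smul' c X := by
    rw [Matrix.mul_smul, Matrix.smul_mul, Matrix.smul_apply, RingHom.id_apply]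

private theorem hh_apply1 (O : Mat N) (i : Fin N) (X : Mat N) : hh1 O i X = (Oᵀ * X * O) i i := rfl

private theorem conj_diag1 {O X : Mat N} {d : Fin N → ℝ} (h1 : Oᵀ * O = 1)
    (hX : X = O * diagonal d * Oᵀ) : Oᵀ * X * O = diagonal (fun i => hh1 O i X) := by
  have e1 : Oᵀ * X * O = diagonal d := by
    rw [hX]
    calc Oᵀ * (O * diagonal d * Oᵀ) * O = (Oᵀ * O) * diagonal d * (Oᵀ * O) := by
          simp only [Matrix.mul_assoc]
      _ = diagonal d := by rw [h1, Matrix.one_mul, Matrix.mul_one]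
  rw [e1]
  congr 1
  funext i
  rw [hh_apply1, e1, Matrix.diagonal_apply_eq]

theorem exists_regular (V : Submodule ℝ (Mat N)) (hs : ∀ X ∈ V, Xᵀ = X) (hc : ∀ X ∈ V, ∀ Y ∈ V, X * Y = Y * X) :
    ∃ H ∈ V, ∀ Y : Mat N, Y * H = H * Y → ∀ H' ∈ V, Y * H' = H' * Y := by
  classical
  obtain ⟨O, h1, h2, hd⟩ := simDiag (V : Set (Mat N)) hs hc
  -- the subspaces
  let W : Fin N × Fin N → Submodule ℝ V := fun p =>
    LinearMap.ker ((hh1 O p.1 - hh1 O p.2).domRestrict V)
  have hW : ∀ (p : Fin N × Fin N) (H : V), H ∈ W p ↔ hh1 O p.1 H = hh1 O p.2 H := by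
    intro p H
    rw [LinearMap.mem_ker, LinearMap.domRestrict_apply, LinearMap.sub_apply, sub_eq_zero]
  let s : Finset (Submodule ℝ V) := (Finset.univ.image W).filter (fun p => p ≠ ⊤)
  have hs1 : ⊤ ∉ s := fun h => (Finset.mem_filter.1 h).2 rfl
  have hs2 := Subspace.biUnion_ne_univ_of_top_notMem (k := ℝ) (E := V) (s := s) hs1
  obtain ⟨H, hH⟩ := (Set.ne_univ_iff_exists_notMem _).1 hs2
  have hH1 : ∀ p, H ∈ W p → W p = ⊤ := by
    intro p hp
    by_contra hne
    refine hH (Set.mem_iUnion₂.2 ⟨W p, ?_, hp⟩)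
    exact Finset.mem_filter.2 ⟨Finset.mem_image_of_mem W (Finset.mem_univ p), hne⟩
  refine ⟨H, H.2, fun Y hY H' hH' => ?_⟩
  obtain ⟨d, hd1⟩ := hd H.1 H.2
  obtain ⟨d', hd2⟩ := hd H' hH'
  have e1 := conj_diag1 h1 hd1
  have e2 := conj_diag1 h1 hd2
  -- `Z` commutes with the diagonal matrix of `H`
  have cm : ∀ A B : Mat N, Oᵀ * (A * B) * O = (Oᵀ * A * O) * (Oᵀ * B * O) := by
    intro A B
    calc Oᵀ * (A * B) * O = Oᵀ * A * 1 * B * O := by simp only [Matrix.mul_assoc, Matrix.one_mul]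
      _ = Oᵀ * A * (O * Oᵀ) * B * O := by rw [h2]
      _ = (Oᵀ * A * O) * (Oᵀ * B * O) := by simp only [Matrix.mul_assoc]
  have back : ∀ A : Mat N, O * (Oᵀ * A * O) * Oᵀ = A := by
    intro A
    calc O * (Oᵀ * A * O) * Oᵀ = (O * Oᵀ) * A * (O * Oᵀ) := by simp only [Matrix.mul_assoc]
      _ = A := by rw [h2, Matrix.one_mul, Matrix.mul_one]
  have h3 : (Oᵀ * Y * O) * diagonal (fun i => hh1 O i H.1) =
      diagonal (fun i => hh1 O i H.1) * (Oᵀ * Y * O) := by
    rw [← e1, ← cm, ← cm, hY]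
  have h4 : (Oᵀ * Y * O) * diagonal (fun i => hh1 O i H') =
      diagonal (fun i => hh1 O i H') * (Oᵀ * Y * O) := by
    ext i j
    rw [Matrix.mul_diagonal, Matrix.diagonal_mul]
    have h5 := congrFun (congrFun h3 i) j
    rw [Matrix.mul_diagonal, Matrix.diagonal_mul] at h5
    by_cases hz : (Oᵀ * Y * O) i j = 0
    · rw [hz, zero_mul, mul_zero]
    · have h6 : hh1 O i H.1 = hh1 O j H.1 := by
        have : (Oᵀ * Y * O) i j * hh1 O j H.1 = (Oᵀ * Y * O) i j * hh1 O i H.1 := by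
          rw [h5, mul_comm]
        exact (mul_left_cancel₀ hz this).symm
      have h7 := hH1 (i, j) ((hW (i, j) H).2 h6)
      have h8 : (⟨H', hH'⟩ : V) ∈ W (i, j) := by rw [h7]; exact Submodule.mem_top
      have h9 := (hW (i, j) ⟨H', hH'⟩).1 h8
      have h10 : hh1 O i H' = hh1 O j H' := h9
      rw [h10, mul_comm]
  rw [← back (Y * H'), ← back (H' * Y), cm, cm, e2, h4]

end Pool.Agent.Helper96.SA
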