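import Pool.Agent.Helper96.SA.Diag
import Pool.Agent.Helper96.SA.Lie

/-!
# Block SA-ROOT: roots

PROOF of `exists_roots`. `L` the submodule with `(L : Set _) = lie G` (`lie_submodule`), `O` from `simDiag` for `V`; for `H ∈ V`: `H = O diagonal (h H) Oᵀ`, `h H i = (Oᵀ H O) i i` (linear in `H`). For `Y : Mat N` write `Y^ = Oᵀ Y O`; then `(H Y - Y H)^ i j = (h H i - h H j) Y^ i j`.
Choose `H₀ ∈ V` such that for all `i j k l`, `h H₀ i - h H₀ j = h H₀ k - h H₀ l` implies the same for all `H ∈ V` (finitely many proper subspaces do not cover `V`). Let `Y ∈ L`, `Y^ i j ≠ 0`; let `Y'` be the matrix with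
`Y'^ k l = Y^ k l` if `h H₀ k - h H₀ l = h H₀ i - h H₀ j`, and `0` otherwise. `Y' = q(ad H₀) Y` for a (Lagrange) polynomial `q`, so `Y' ∈ L` (`lie_bracket`); `Y' ≠ 0`, and `H Y' - Y' H = α_ij(H) Y'` for all `H ∈ V`, `α_ij(H) = h H i - h H j`.
If `H ∈ V` and `α_ij(H) = 0` for all such `(i, j)` (those for which there is `Y ∈ L` with `Y^ i j ≠ 0`), then `H` commutes with `L`, so `H = 0` (`hsemi`). So these `α_ij` span the dual space of `V`, some of them form a basis of it; take the dual basis `H_i`.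
-/

set_option autoImplicit false

open Matrix Filter Topology NormedSpace

namespace Pool.Agent.Helper96.SA

variable {N : ℕ} {G : Subgroup (GL (Fin N) ℝ)}

/-- diagonal entries in the basis `O` -/
def cf (O : Mat N) (i : Fin N) : Mat N →ₗ[ℝ] ℝ where
  toFun A := (Oᵀ * A * O) i i
  map_add' A B := by rw [Matrix.mul_add, Matrix.add_mul, Matrix.add_apply]
  map_smul' c A := by rw [Matrix.mul_smul, Matrix.smul_mul, Matrix.smul_apply, RingHom.id_apply]

theorem hat_comm {O : Mat N} (h1 : Oᵀ * O = 1) {d : Fin N → ℝ} (Y : Mat N) (i j : Fin N) :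
    (Oᵀ * ((O * diagonal d * Oᵀ) * Y - Y * (O * diagonal d * Oᵀ)) * O) i j = (d i - d j) * (Oᵀ * Y * O) i j := by
  have e : Oᵀ * ((O * diagonal d * Oᵀ) * Y - Y * (O * diagonal d * Oᵀ)) * O =
      diagonal d * (Oᵀ * Y * O) - (Oᵀ * Y * O) * diagonal d := by
    rw [Matrix.mul_sub, Matrix.sub_mul]
    congr 1
    · calc Oᵀ * (O * diagonal d * Oᵀ * Y) * O = (Oᵀ * O) * diagonal d * (Oᵀ * Y * O) := by simp only [Matrix.mul_assoc]
        _ = _ := by rw [h1, Matrix.one_mul]
    · calc Oᵀ * (Y * (O * diagonal d * Oᵀ)) * O = (Oᵀ * Y * O) * diagonal d * (Oᵀ * O) := by simp only [Matrix.mul_assoc]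
        _ = _ := by rw [h1, Matrix.mul_one]
  rw [e, Matrix.sub_apply, diagonal_mul, mul_diagonal]
  ring

theorem hat_inj {O : Mat N} (h2 : O * Oᵀ = 1) {A B : Mat N} (h : ∀ i j, (Oᵀ * A * O) i j = (Oᵀ * B * O) i j) : A = B := by
  have e : Oᵀ * A * O = Oᵀ * B * O := Matrix.ext h
  have key : ∀ C : Mat N, O * (Oᵀ * C * O) * Oᵀ = C := by
    intro C
    calc O * (Oᵀ * C * O) * Oᵀ = (O * Oᵀ) * C * (O * Oᵀ) := by simp only [Matrix.mul_assoc]
      _ = C := by rw [h2, Matrix.one_mul, Matrix.mul_one]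
  rw [← key A, ← key B, e]

/-- the operator `Y ↦ H Y - Y H` -/
def adM (H : Mat N) : Module.End ℝ (Mat N) where
  toFun Y := H * Y - Y * H
  map_add' A B := by rw [Matrix.mul_add, Matrix.add_mul]; abel
  map_smul' c A := by rw [Matrix.mul_smul, Matrix.smul_mul, RingHom.id_apply, smul_sub]

theorem adM_apply (H Y : Mat N) : adM H Y = H * Y - Y * H := rfl

theorem aeval_mem {H : Mat N} {L : Submodule ℝ (Mat N)} (hL : ∀ Y ∈ L, H * Y - Y * H ∈ L) (p : Polynomial ℝ) :
    ∀ Y ∈ L, Polynomial.aeval (adM H) p Y ∈ L := by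
  induction p using Polynomial.induction_on' with
  | add p q hp hq =>
    intro Y hY
    rw [map_add, LinearMap.add_apply]
    exact L.add_mem (hp Y hY) (hq Y hY)
  | monomial n a =>
    intro Y hY
    rw [Polynomial.aeval_monomial, Module.End.mul_apply, Module.algebraMap_end_apply]
    refine L.smul_mem a ?_
    induction n with
    | zero => rwa [pow_zero, Module.End.one_apply]
    | succ n ih =>
      rw [pow_succ', Module.End.mul_apply]
      exact hL _ ih

theorem aeval_hat {O : Mat N} (h1 : Oᵀ * O = 1) {d : Fin N → ℝ} (p : Polynomial ℝ) (Y : Mat N) (i j : Fin N) :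
    (Oᵀ * (Polynomial.aeval (adM (O * diagonal d * Oᵀ)) p Y) * O) i j = p.eval (d i - d j) * (Oᵀ * Y * O) i j := by
  induction p using Polynomial.induction_on' with
  | add p q hp hq =>
    rw [map_add, LinearMap.add_apply, Matrix.mul_add, Matrix.add_mul, Matrix.add_apply, hp, hq, Polynomial.eval_add, add_mul]
  | monomial n a =>
    have key : (Oᵀ * ((adM (O * diagonal d * Oᵀ) ^ n) Y) * O) i j = (d i - d j) ^ n * (Oᵀ * Y * O) i j := by
      induction n with
      | zero => rw [pow_zero, Module.End.one_apply, pow_zero, one_mul]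
      | succ n ih =>
        rw [pow_succ', Module.End.mul_apply, adM_apply, hat_comm h1, ih, pow_succ]
        ring
    rw [Polynomial.aeval_monomial, Module.End.mul_apply, Module.algebraMap_end_apply, Matrix.mul_smul, Matrix.smul_mul,
      Matrix.smul_apply, Polynomial.eval_monomial, smul_eq_mul, key]
    ring

theorem exists_roots (hG : IsClosed (G : Set (GL (Fin N) ℝ)))
    (hsemi : ∀ X ∈ lie G, Xᵀ = X → (∀ Y ∈ lie G, X * Y = Y * X) → X = 0)
    {V : Submodule ℝ (Mat N)} (hV : IsFlat G V) :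
    ∃ H X : Fin (Module.finrank ℝ V) → Mat N, (∀ i, H i ∈ V) ∧ (∀ i, X i ∈ lie G) ∧ (∀ i, X i ≠ 0) ∧
      (∀ i j, H i * X j - X j * H i = if i = j then X j else 0) ∧
      ∀ i, ∀ H' ∈ V, ∃ c : ℝ, H' * X i - X i * H' = c • X i := by
  classical
  obtain ⟨L, hL⟩ := lie_submodule hG
  have hLm : ∀ Y, Y ∈ L ↔ Y ∈ lie G := fun Y => by rw [← hL]; rfl
  obtain ⟨O, h1, h2, hdiag⟩ := simDiag (V : Set (Mat N)) hV.symm hV.comm
  -- elements of `V` are diagonal
  have hd : ∀ H ∈ V, H = O * diagonal (fun i => cf O i H) * Oᵀ := by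
    intro H hH
    obtain ⟨d, hd⟩ := hdiag H hH
    have e : (fun i => cf O i H) = d := by
      funext i
      show (Oᵀ * H * O) i i = d i
      have e1 : Oᵀ * H * O = diagonal d := by
        rw [hd]
        calc Oᵀ * (O * diagonal d * Oᵀ) * O = (Oᵀ * O) * diagonal d * (Oᵀ * O) := by simp only [Matrix.mul_assoc]
          _ = diagonal d := by rw [h1, Matrix.one_mul, Matrix.mul_one]
      rw [e1, diagonal_apply_eq]
    rw [e]
    exact hd
  have hcomm : ∀ H ∈ V, ∀ (Y : Mat N) (i j : Fin N), (Oᵀ * (H * Y - Y * H) * O) i j = (cf O i H - cf O j H) * (Oᵀ * Y * O) i j := by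
    intro H hH Y i j
    have := hat_comm h1 (d := fun i => cf O i H) Y i j
    rwa [← hd H hH] at this
  -- the roots as functionals on `V`
  let α : Fin N × Fin N → Module.Dual ℝ V := fun ij => (cf O ij.1 - cf O ij.2).domRestrict V
  have hα : ∀ ij (H : V), α ij H = cf O ij.1 (H : Mat N) - cf O ij.2 (H : Mat N) := fun ij H => rfl
  obtain ⟨H₀, hH₀⟩ : ∃ H₀ : V, ∀ p : (Fin N × Fin N) × (Fin N × Fin N), α p.1 H₀ = α p.2 H₀ → α p.1 = α p.2 := by
    obtain ⟨x, hx⟩ := Module.Dual.exists_forall_ne_zero_of_forall_exists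
      (K := ℝ) (M := V) (ι := {p : (Fin N × Fin N) × (Fin N × Fin N) // α p.1 ≠ α p.2})
      (fun p => α p.1.1 - α p.1.2) (fun p => by
        by_contra hn
        push Not at hn
        apply p.2
        ext x
        have := hn x
        rw [LinearMap.sub_apply, sub_eq_zero] at this
        exact this)
    refine ⟨x, fun p hp => ?_⟩
    by_contra hne
    apply hx ⟨p, hne⟩
    rw [LinearMap.sub_apply, sub_eq_zero]
    exact hp
  have hadL : ∀ Y ∈ L, (H₀ : Mat N) * Y - Y * (H₀ : Mat N) ∈ L := by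
    intro Y hY
    rw [hLm] at hY ⊢
    exact lie_bracket hG (hV.mem _ H₀.2) hY
  -- the set of the roots which occur
  let Sg : Set (Fin N × Fin N) := {ij | ∃ Y ∈ L, (Oᵀ * Y * O) ij.1 ij.2 ≠ 0}
  have hroot : ∀ ij ∈ Sg, ∃ X ∈ L, X ≠ 0 ∧ ∀ H : V, (H : Mat N) * X - X * (H : Mat N) = (α ij H) • X := by
    rintro ij ⟨Y, hY, hYne⟩
    let vals : Finset ℝ := Finset.univ.image fun kl : Fin N × Fin N => α kl H₀
    let q : Polynomial ℝ := Lagrange.interpolate vals id (fun μ => if μ = α ij H₀ then 1 else 0)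
    have hq : ∀ kl : Fin N × Fin N, q.eval (α kl H₀) = if α kl H₀ = α ij H₀ then 1 else 0 := by
      intro kl
      have hmem : α kl H₀ ∈ vals := Finset.mem_image_of_mem _ (Finset.mem_univ _)
      exact Lagrange.eval_interpolate_at_node (s := vals) (v := id) (r := fun μ => if μ = α ij H₀ then (1 : ℝ) else 0)
        (i := α kl H₀) (fun a _ b _ h => h) hmem
    have hX : ∀ k l, (Oᵀ * (Polynomial.aeval (adM (H₀ : Mat N)) q Y) * O) k l =
        if α (k, l) H₀ = α ij H₀ then (Oᵀ * Y * O) k l else 0 := by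
      intro k l
      have e := aeval_hat h1 (d := fun i => cf O i (H₀ : Mat N)) q Y k l
      rw [← hd _ H₀.2] at e
      rw [e]
      have e2 := hq (k, l)
      rw [hα] at e2
      rw [e2, ← hα]
      split_ifs <;> simp
    refine ⟨Polynomial.aeval (adM (H₀ : Mat N)) q Y, aeval_mem hadL q Y hY, fun h0 => hYne ?_, fun H => ?_⟩
    · have := hX ij.1 ij.2
      rw [h0, if_pos rfl] at this
      rw [← this]
      simp
    · apply hat_inj h2
      intro k l
      rw [hcomm _ H.2, Matrix.mul_smul, Matrix.smul_mul, Matrix.smul_apply, smul_eq_mul, hX]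
      split_ifs with h
      · have := hH₀ ((k, l), ij) h
        have h3 : α (k, l) H = α ij H := by rw [this]
        rw [← h3, hα]
      · rw [mul_zero, mul_zero]
  -- the roots span the dual space
  have hspan : Submodule.span ℝ (Set.range fun ij : Sg => α ij) = ⊤ := by
    rw [eq_top_iff]
    intro K _
    refine FiniteDimensional.mem_span_of_iInf_ker_le_ker ?_
    intro H hH
    have hz : ∀ ij ∈ Sg, α ij H = 0 := fun ij hij => (Submodule.mem_iInf _).1 hH ⟨ij, hij⟩
    have h0 : (H : Mat N) = 0 := by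
      refine hsemi _ (hV.mem _ H.2) (hV.symm _ H.2) fun Y hY => ?_
      rw [← sub_eq_zero]
      apply hat_inj h2
      intro i j
      rw [hcomm _ H.2]
      have : (Oᵀ * (0 : Mat N) * O) i j = 0 := by simp
      rw [this]
      by_cases h3 : (Oᵀ * Y * O) i j = 0
      · rw [h3, mul_zero]
      · have h4 : α (i, j) H = 0 := hz (i, j) ⟨Y, (hLm Y).2 hY, h3⟩
        rw [hα] at h4
        rw [h4, zero_mul]
    have : H = 0 := Subtype.ext h0
    rw [this]
    exact Submodule.zero_mem _
  obtain ⟨κ, a, -, hsp, hli⟩ := exists_linearIndependent' ℝ (fun ij : Sg => α ij)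
  rw [hspan] at hsp
  let β : Module.Basis κ ℝ (Module.Dual ℝ V) := Module.Basis.mk hli hsp.ge
  have hfin : Finite κ := Module.Finite.finite_basis β
  have hfk : Fintype κ := Fintype.ofFinite κ
  have hcard : Module.finrank ℝ V = Fintype.card κ := by
    rw [← Subspace.dual_finrank_eq, Module.finrank_eq_card_basis β]
  let e : κ ≃ Fin (Module.finrank ℝ V) := (Fintype.equivFin κ).trans (finCongr hcard.symm)
  let b : Module.Basis (Fin (Module.finrank ℝ V)) ℝ (Module.Dual ℝ V) := β.reindex e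
  have hb : ∀ i, b i = α (a (e.symm i)) := by
    intro i
    simp only [b, β, Module.Basis.reindex_apply, Module.Basis.mk_apply]
    rfl
  choose X hX hX0 hXr using hroot
  refine ⟨fun i => ((Module.evalEquiv ℝ V).symm (b.dualBasis i) : V), fun i => X _ (a (e.symm i)).2, fun i => Subtype.coe_prop _,
    fun i => (hLm _).1 (hX _ _), fun i => hX0 _ _, fun i j => ?_, fun i H' hH' => ⟨_, hXr _ _ ⟨H', hH'⟩⟩⟩
  rw [hXr]
  have h5 : α (a (e.symm j)) ((Module.evalEquiv ℝ V).symm (b.dualBasis i)) = if j = i then 1 else 0 := by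
    rw [← hb, Module.apply_evalEquiv_symm_apply, Module.Basis.dualBasis_apply_self]
  rw [h5]
  by_cases hij : i = j
  · rw [if_pos hij, if_pos hij.symm, one_smul]
  · rw [if_neg hij, if_neg (fun h => hij h.symm), zero_smul]

end Pool.Agent.Helper96.SA
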