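import Pool.Agent.Helper96.SA.Free
import Pool.Agent.Helper96.SA.Hw
import Pool.Agent.Helper96.SA.Crv
import Pool.Agent.Helper96.FR.Rge1

/-!
# Block SA-SL2: discrete nonamenable groups generated by unipotents

PROOF. Let `X' = b X`, `b = √(2 / c)`: `[[X', X'ᵀ], X'] = 2 X'`; take `s = 4 b`, so `ex (s • X) = ex (4 • X')`, `ex (s • Xᵀ) = ex (4 • X'ᵀ)`. `k`, `v` from `exists_hw` for `X'`, `φ : FreeGroup Bool →* GL (Fin N) ℝ`, `φ = FreeGroup.lift (fun b => if b then ex (4 • X') else ex (4 • X'ᵀ))`;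
its range is the subgroup `closure {..}`. For every `γ` and `(x, y)`: `φ γ *ᵥ crv k v x y = crv k v (x', y')`, `(x', y') = sg γ (x, y)` (real matrix) by `exp_crv_X`, `exp_crv_Y` (`FreeGroup.induction_on`). The `v j`, `j ≤ k`, are linearly independent (eigenvectors
for different eigenvalues of `X' X'ᵀ - X'ᵀ X'`; or orthogonal). DISCRETENESS: if `g = φ γ` is close to `1`, then `crv k v (a, b) = g *ᵥ crv k v 1 0` is close to `crv k v 1 0 = v 0` for the first column `(a, b) ∈ ℤ²` of `sg γ`: the coordinates `a^(k-j) b^j` (integers!) are close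
to `1, 0, ..., 0`, so `b = 0`, `a = ±1`; similarly the second column is `(0, ±1)` (from `crv k v 0 1 = v k`), so `sg γ = ±1` (determinant); by `F₀_le` (file FR/Rge1: the diagonal entries are `≡ 1 mod 4` for elements of `F₀ = closure {uE 4, lE 4}`) `sg γ = 1` and `γ = 1` by `sg_injective`.
(So a neighbourhood of `1` in `GL` meets the range only in `1`: `discreteTopology_of_isOpen_singleton_one`.) The same argument with `g = 1` shows that `φ` is injective. NONAMENABILITY: the homomorphism `sg ∘ φ⁻¹` from the range of `φ` to `SL(2, ℤ)`, and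
`Pool.Agent.Helper66.RK.nonAm_iff`, `Pool.Agent.Helper66.RK.not_am_sl` (see `nonAm_range` in FR/Rge1.lean).
-/

set_option autoImplicit false

open Matrix Topology Filter NormedSpace

namespace Pool.Agent.Helper96.SA

open Pool.Agent.Helper90.RK (NonAm)

variable {N : ℕ}

private theorem orth_33 {T : Mat N} (hT : Tᵀ = T) {v w : Fin N → ℝ} {α β : ℝ} (hv : T *ᵥ v = α • v)
    (hw : T *ᵥ w = β • w) (h : α ≠ β) : v ⬝ᵥ w = 0 := by
  have h1 : v ⬝ᵥ (T *ᵥ w) = (T *ᵥ v) ⬝ᵥ w := by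
    rw [dotProduct_mulVec, ← mulVec_transpose, hT]
  rw [hv, hw, smul_dotProduct, dotProduct_smul, smul_eq_mul, smul_eq_mul] at h1
  have h2 : (α - β) * (v ⬝ᵥ w) = 0 := by linarith
  exact (mul_eq_zero.1 h2).resolve_left (sub_ne_zero.2 h)

private theorem dot_crv_33 {k : ℕ} {v : ℕ → Fin N → ℝ} (ho : ∀ i j, i ≠ j → v i ⬝ᵥ v j = 0) {i : ℕ} (hi : i ≤ k)
    (x y : ℝ) : crv k v x y ⬝ᵥ v i = x ^ (k - i) * y ^ i * (v i ⬝ᵥ v i) := by
  unfold crv
  rw [sum_dotProduct, Finset.sum_eq_single i]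
  · rw [smul_dotProduct, smul_eq_mul]
  · intro j _ hj
    rw [smul_dotProduct, ho j i hj, smul_zero]
  · intro h
    exact absurd (Finset.mem_range.2 (by omega)) h

private theorem dot_pos_33 {v : Fin N → ℝ} (hv : v ≠ 0) : 0 < v ⬝ᵥ v := by
  have h1 : 0 ≤ v ⬝ᵥ v := by
    unfold dotProduct
    exact Finset.sum_nonneg fun i _ => mul_self_nonneg _
  rcases lt_or_eq_of_le h1 with h2 | h2
  · exact h2
  · exact absurd (dotProduct_self_eq_zero.1 h2.symm) hv

/-- `g` acts on the curve as `A`. -/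
private def PP_33 (k : ℕ) (v : ℕ → Fin N → ℝ) (g : GL (Fin N) ℝ) (A : SpecialLinearGroup (Fin 2) ℤ) : Prop :=
  ∀ x y : ℝ, (g : Mat N) *ᵥ crv k v x y = crv k v (((A.1 0 0 : ℤ) : ℝ) * x + ((A.1 0 1 : ℤ) : ℝ) * y)
    (((A.1 1 0 : ℤ) : ℝ) * x + ((A.1 1 1 : ℤ) : ℝ) * y)

private theorem PP_one_33 (k : ℕ) (v : ℕ → Fin N → ℝ) : PP_33 k v 1 1 := by
  intro x y
  have e : (1 : SpecialLinearGroup (Fin 2) ℤ).1 = 1 := rfl
  rw [Units.val_one, one_mulVec, e]
  simp

private theorem PP_mul_33 {k : ℕ} {v : ℕ → Fin N → ℝ} {g h : GL (Fin N) ℝ} {A B : SpecialLinearGroup (Fin 2) ℤ}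
    (hg : PP_33 k v g A) (hh : PP_33 k v h B) : PP_33 k v (g * h) (A * B) := by
  intro x y
  have e : ∀ x y, (A * B).1 x y = A.1 x 0 * B.1 0 y + A.1 x 1 * B.1 1 y := by
    intro x y
    have : (A * B).1 = A.1 * B.1 := rfl
    rw [this, Matrix.mul_apply, Fin.sum_univ_two]
  rw [Units.val_mul, ← mulVec_mulVec, hh, hg, e, e, e, e]
  push_cast
  congr 1 <;> ring

private theorem PP_inv_33 {k : ℕ} {v : ℕ → Fin N → ℝ} {g : GL (Fin N) ℝ} {A : SpecialLinearGroup (Fin 2) ℤ}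
    (hg : PP_33 k v g A) : PP_33 k v g⁻¹ A⁻¹ := by
  intro x y
  have e : (A⁻¹).1 = adjugate A.1 := Matrix.SpecialLinearGroup.coe_inv A
  have e2 : (A⁻¹).1 = !![A.1 1 1, -A.1 0 1; -A.1 1 0, A.1 0 0] := by rw [e, adjugate_fin_two]
  have hdet : ((A.1 0 0 : ℤ) : ℝ) * ((A.1 1 1 : ℤ) : ℝ) - ((A.1 0 1 : ℤ) : ℝ) * ((A.1 1 0 : ℤ) : ℝ) = 1 := by
    have h2 := A.2
    rw [det_fin_two] at h2
    exact_mod_cast h2
  have e00 : (A⁻¹).1 0 0 = A.1 1 1 := by rw [e2]; rfl
  have e01 : (A⁻¹).1 0 1 = -A.1 0 1 := by rw [e2]; rfl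
  have e10 : (A⁻¹).1 1 0 = -A.1 1 0 := by rw [e2]; rfl
  have e11 : (A⁻¹).1 1 1 = A.1 0 0 := by rw [e2]; rfl
  rw [e00, e01, e10, e11, Int.cast_neg, Int.cast_neg]
  have h1 := hg (((A.1 1 1 : ℤ) : ℝ) * x + -((A.1 0 1 : ℤ) : ℝ) * y) (-((A.1 1 0 : ℤ) : ℝ) * x + ((A.1 0 0 : ℤ) : ℝ) * y)
  have hx : ((A.1 0 0 : ℤ) : ℝ) * (((A.1 1 1 : ℤ) : ℝ) * x + -((A.1 0 1 : ℤ) : ℝ) * y) +
      ((A.1 0 1 : ℤ) : ℝ) * (-((A.1 1 0 : ℤ) : ℝ) * x + ((A.1 0 0 : ℤ) : ℝ) * y) = x := by
    linear_combination x * hdet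
  have hy : ((A.1 1 0 : ℤ) : ℝ) * (((A.1 1 1 : ℤ) : ℝ) * x + -((A.1 0 1 : ℤ) : ℝ) * y) +
      ((A.1 1 1 : ℤ) : ℝ) * (-((A.1 1 0 : ℤ) : ℝ) * x + ((A.1 0 0 : ℤ) : ℝ) * y) = y := by
    linear_combination y * hdet
  rw [hx, hy] at h1
  rw [← h1, mulVec_mulVec, ← Units.val_mul, inv_mul_cancel, Units.val_one, one_mulVec]

theorem discrete_nonAm (X : Mat N) (hX : X ≠ 0) (c : ℝ) (hc : 0 < c)
    (h : (X * Xᵀ - Xᵀ * X) * X - X * (X * Xᵀ - Xᵀ * X) = c • X) :
    ∃ s : ℝ, 0 < s ∧ DiscreteTopology (Subgroup.closure {ex (s • X), ex (s • Xᵀ)}) ∧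
      NonAm (Subgroup.closure {ex (s • X), ex (s • Xᵀ)}) := by
  obtain ⟨b, hb⟩ : ∃ b : ℝ, b = Real.sqrt (2 / c) := ⟨_, rfl⟩
  have hb0 : 0 < b := by
    rw [hb]
    exact Real.sqrt_pos.2 (by positivity)
  have hb2 : b ^ 2 * c = 2 := by
    rw [hb, Real.sq_sqrt (by positivity)]
    field_simp
  obtain ⟨Y, hY⟩ : ∃ Y : Mat N, Y = b • X := ⟨_, rfl⟩
  have hYT : Yᵀ = b • Xᵀ := by rw [hY, transpose_smul]
  have hY0 : Y ≠ 0 := by
    rw [hY]
    exact smul_ne_zero hb0.ne' hX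
  have hYc : (Y * Yᵀ - Yᵀ * Y) * Y - Y * (Y * Yᵀ - Yᵀ * Y) = (2 : ℝ) • Y := by
    have e1 : (Y * Yᵀ - Yᵀ * Y) * Y - Y * (Y * Yᵀ - Yᵀ * Y) =
        (b ^ 3) • ((X * Xᵀ - Xᵀ * X) * X - X * (X * Xᵀ - Xᵀ * X)) := by
      rw [hYT, hY]
      simp only [smul_mul_smul_comm, ← smul_sub]
      have e3 : b * b * b = b ^ 3 := by ring
      have e4 : b * (b * b) = b ^ 3 := by ring
      rw [e3, e4, smul_sub]
    rw [e1, h, hY, smul_smul, smul_smul]
    congr 1
    linear_combination b * hb2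
  obtain ⟨k, v, hk, hv1, hv2, hXv0, hXv, hYv, hT⟩ := exists_hw Y hY0 hYc
  have hTs : (Y * Yᵀ - Yᵀ * Y)ᵀ = Y * Yᵀ - Yᵀ * Y := by
    rw [transpose_sub, transpose_mul, transpose_mul, transpose_transpose]
  have ho : ∀ i j, i ≠ j → v i ⬝ᵥ v j = 0 := by
    intro i j hij
    refine orth_33 hTs (hT i) (hT j) fun h1 => hij ?_
    have h2 : (i : ℝ) = j := by linarith
    exact_mod_cast h2
  -- the homomorphism
  let φ : FreeGroup Bool →* GL (Fin N) ℝ := FreeGroup.lift fun t => if t then ex ((4 : ℝ) • Y) else ex ((4 : ℝ) • Yᵀ)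
  have hP : ∀ γ, PP_33 k v (φ γ) (sg γ) := by
    intro γ
    induction γ using FreeGroup.induction_on with
    | C1 => rw [map_one, map_one]; exact PP_one_33 k v
    | of t =>
      intro x y
      have e1 : φ (FreeGroup.of t) = if t then ex ((4 : ℝ) • Y) else ex ((4 : ℝ) • Yᵀ) := by
        change FreeGroup.lift _ (FreeGroup.of t) = _
        rw [FreeGroup.lift_apply_of]
      have e2 : sg (FreeGroup.of t) = if t then Pool.Agent.Helper96.FR.uE 4 else Pool.Agent.Helper96.FR.lE 4 := by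
        unfold sg
        rw [FreeGroup.lift_apply_of]
      cases t with
      | true =>
        rw [e1, e2, if_pos rfl, if_pos rfl, ex_coe, exp_crv_X hXv0 hXv, Pool.Agent.Helper96.FR.uE_coe]
        congr 1 <;> simp
      | false =>
        rw [e1, e2, if_neg (by decide), if_neg (by decide), ex_coe, exp_crv_Y hv2 hYv,
          Pool.Agent.Helper96.FR.lE_coe]
        congr 1 <;> simp [add_comm]
    | inv_of t ih => rw [map_inv, map_inv]; exact PP_inv_33 ih
    | mul x y hx hy => rw [map_mul, map_mul]; exact PP_mul_33 hx hy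
  have hS4 : ∀ γ, sg γ ∈ Pool.Agent.Helper96.FR.S4 := by
    intro γ
    apply Pool.Agent.Helper96.FR.F₀_le
    have h1 : (sg : FreeGroup Bool →* _).range ≤ Pool.Agent.Helper96.FR.F₀ := by
      unfold sg
      apply FreeGroup.range_lift_le
      rintro _ ⟨t, rfl⟩
      cases t with
      | true => exact Subgroup.subset_closure (Or.inl rfl)
      | false => exact Subgroup.subset_closure (Or.inr rfl)
    exact h1 ⟨γ, rfl⟩
  -- the neighbourhood
  have hv0 : crv k v 1 0 = v 0 := by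
    unfold crv
    rw [Finset.sum_eq_single 0]
    · simp
    · intro j _ hj
      rw [zero_pow hj, mul_zero, zero_smul]
    · intro h1
      exact absurd (Finset.mem_range.2 (by omega)) h1
  have hvk : crv k v 0 1 = v k := by
    unfold crv
    rw [Finset.sum_eq_single k]
    · simp
    · intro j hj hjk
      have := Finset.mem_range.1 hj
      rw [zero_pow (by omega), zero_mul, zero_smul]
    · intro h1
      exact absurd (Finset.mem_range.2 (by omega)) h1
  have p0 : 0 < v 0 ⬝ᵥ v 0 := dot_pos_33 (hv1 0 (by omega))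
  have pk : 0 < v k ⬝ᵥ v k := dot_pos_33 (hv1 k le_rfl)
  let U : Set (GL (Fin N) ℝ) := {g | |((g : Mat N) *ᵥ v 0) ⬝ᵥ v 0 - v 0 ⬝ᵥ v 0| < v 0 ⬝ᵥ v 0 ∧
    |((g : Mat N) *ᵥ v 0) ⬝ᵥ v k| < v k ⬝ᵥ v k ∧ |((g : Mat N) *ᵥ v k) ⬝ᵥ v k - v k ⬝ᵥ v k| < v k ⬝ᵥ v k ∧
    |((g : Mat N) *ᵥ v k) ⬝ᵥ v 0| < v 0 ⬝ᵥ v 0}
  have hcont : ∀ a b : Fin N → ℝ, Continuous fun g : GL (Fin N) ℝ => ((g : Mat N) *ᵥ a) ⬝ᵥ b := by
    intro a b
    have h1 : Continuous fun g : GL (Fin N) ℝ => (g : Mat N) := Units.continuous_val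
    exact (h1.matrix_mulVec continuous_const).dotProduct continuous_const
  have hU : IsOpen U := by
    refine IsOpen.inter ?_ (IsOpen.inter ?_ (IsOpen.inter ?_ ?_))
    · exact isOpen_lt ((hcont _ _).sub continuous_const).abs continuous_const
    · exact isOpen_lt (hcont _ _).abs continuous_const
    · exact isOpen_lt ((hcont _ _).sub continuous_const).abs continuous_const
    · exact isOpen_lt (hcont _ _).abs continuous_const
  have h1U : (1 : GL (Fin N) ℝ) ∈ U := by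
    refine ⟨?_, ?_, ?_, ?_⟩
    · rw [Units.val_one, one_mulVec, sub_self, abs_zero]
      exact p0
    · rw [Units.val_one, one_mulVec, ho 0 k (by omega), abs_zero]
      exact pk
    · rw [Units.val_one, one_mulVec, sub_self, abs_zero]
      exact pk
    · rw [Units.val_one, one_mulVec, ho k 0 (by omega), abs_zero]
      exact p0
  -- integers
  have i1 : ∀ (n : ℤ) (p : ℝ), 0 < p → |(n : ℝ) ^ k * p - p| < p → n ^ k = 1 := by
    intro n p hp hn
    have h2 : (n : ℝ) ^ k * p - p = ((n : ℝ) ^ k - 1) * p := by ring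
    rw [h2, abs_mul, abs_of_pos hp] at hn
    have h3 : |(n : ℝ) ^ k - 1| < 1 := by
      by_contra hcon
      rw [not_lt] at hcon
      nlinarith
    have h4 : |n ^ k - 1| < 1 := by exact_mod_cast h3
    have h5 := Int.abs_lt_one_iff.1 h4
    omega
  have i2 : ∀ (n : ℤ) (p : ℝ), 0 < p → |(n : ℝ) ^ k * p| < p → n = 0 := by
    intro n p hp hn
    rw [abs_mul, abs_of_pos hp] at hn
    have h3 : |(n : ℝ) ^ k| < 1 := by
      by_contra hcon
      rw [not_lt] at hcon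
      nlinarith
    have h4 : |n ^ k| < 1 := by exact_mod_cast h3
    exact pow_eq_zero_iff (by omega) |>.1 (Int.abs_lt_one_iff.1 h4)
  have key : ∀ γ, φ γ ∈ U → γ = 1 := by
    rintro γ ⟨u1, u2, u3, u4⟩
    have q0 := hP γ 1 0
    have qk := hP γ 0 1
    rw [hv0] at q0
    rw [hvk] at qk
    simp only [mul_one, mul_zero, add_zero, zero_add] at q0 qk
    rw [q0, dot_crv_33 ho (Nat.zero_le k), Nat.sub_zero, pow_zero, mul_one] at u1
    rw [q0, dot_crv_33 ho le_rfl, Nat.sub_self, pow_zero, one_mul] at u2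
    rw [qk, dot_crv_33 ho le_rfl, Nat.sub_self, pow_zero, one_mul] at u3
    rw [qk, dot_crv_33 ho (Nat.zero_le k), Nat.sub_zero, pow_zero, mul_one] at u4
    have a1 := i1 _ _ p0 u1
    have a2 := i2 _ _ pk u2
    have a3 := i1 _ _ pk u3
    have a4 := i2 _ _ p0 u4
    obtain ⟨⟨s1, s2⟩, -, -⟩ := hS4 γ
    have hpm : ∀ n : ℤ, n ^ k = 1 → 4 ∣ n - 1 → n = 1 := by
      intro n hn h4
      have h5 : IsUnit n := IsUnit.of_pow_eq_one hn (by omega)
      rcases Int.isUnit_iff.1 h5 with h6 | h6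
      · exact h6
      · rw [h6] at h4
        omega
    have b1 := hpm _ a1 s1
    have b2 := hpm _ a3 s2
    apply sg_injective
    rw [map_one]
    apply Subtype.ext
    ext i j
    fin_cases i <;> fin_cases j
    · exact b1
    · exact a4
    · exact a2
    · exact b2
  have hinj : Function.Injective φ := by
    rw [injective_iff_map_eq_one]
    intro γ hγ
    apply key
    rw [hγ]
    exact h1U
  refine ⟨4 * b, by positivity, ?_⟩
  have hr : φ.range = Subgroup.closure {ex ((4 * b) • X), ex ((4 * b) • Xᵀ)} := by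
    change (FreeGroup.lift _).range = _
    rw [FreeGroup.range_lift_eq_closure]
    congr 1
    ext g
    rw [hYT, hY, smul_smul, smul_smul]
    constructor
    · rintro ⟨t, rfl⟩
      cases t with
      | true => exact Or.inl rfl
      | false => exact Or.inr rfl
    · rintro (rfl | rfl)
      · exact ⟨true, rfl⟩
      · exact ⟨false, rfl⟩
  rw [← hr]
  constructor
  · refine discreteTopology_of_isOpen_singleton_one ?_
    convert hU.preimage (continuous_subtype_val (p := fun g => g ∈ φ.range)) using 1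
    ext x
    constructor
    · rintro rfl
      exact h1U
    · intro hx
      obtain ⟨γ, hγ⟩ := x.2
      have h2 : γ = 1 := key γ (by rw [hγ]; exact hx)
      apply Subtype.ext
      rw [← hγ, h2, map_one]
      rfl
  · rw [Pool.Agent.Helper66.RK.nonAm_iff]
    intro hA
    have h1 : Pool.Agent.Helper66.RK.Am (FreeGroup Bool) := hA.congr (MonoidHom.ofInjective hinj).symm
    refine Pool.Agent.Helper66.RK.not_am_sl (Λ := FreeGroup Bool) sg 4 (by norm_num)
      (FreeGroup.of true) (FreeGroup.of false) ?_ ?_ h1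
    · unfold sg
      rw [FreeGroup.lift_apply_of]
      rfl
    · unfold sg
      rw [FreeGroup.lift_apply_of]
      rfl

end Pool.Agent.Helper96.SA
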