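import Pool.Agent.Helper96.SA.Exp

/-!
# Block SA-TROT: the Trotter product formula

PROOF. By `isEmbedding_val` it is enough to consider matrices (`Units.val_pow_eq_pow_val`); use a submultiplicative norm (`open scoped Matrix.Norms.Operator`, a normed algebra). Put `f t = exp(tX) exp(tY)`, `A = f (1/n)`, `B = exp((X+Y)/n)`, `B ^ n = exp(X+Y)`
(`Matrix.exp_nsmul`). Both `f` and `t ↦ exp(t(X+Y))` are differentiable at `0` with value `1` and derivative `X + Y` (`hasDerivAt_exp_smul_const`, product), so `n ‖A - B‖ → 0`. Also `‖A‖ ≤ 1 + C/n`, `‖B‖ ≤ 1 + C/n` for large `n`, hence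
`‖A ^ n - B ^ n‖ = ‖∑ k, A ^ k (A - B) B ^ (n-1-k)‖ ≤ n ‖A - B‖ (1 + C/n) ^ n ≤ n ‖A - B‖ exp C → 0` (`Commute`-free geometric sum: induction `A^(m+1) - B^(m+1) = A^m (A - B) + (A^m - B^m) B`).
-/

set_option autoImplicit false

open Matrix Filter Topology NormedSpace

namespace Pool.Agent.Helper96.SA

variable {N : ℕ}

private theorem pow_sub_le_h40 {𝔸 : Type*} [NormedRing 𝔸] [NormOneClass 𝔸] (A B : 𝔸) {K : ℝ}
    (hK : 1 ≤ K) (hA : ‖A‖ ≤ K) (hB : ‖B‖ ≤ K) (n : ℕ) :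
    ‖A ^ n - B ^ n‖ ≤ n * K ^ n * ‖A - B‖ := by
  have hK0 : 0 ≤ K := zero_le_one.trans hK
  induction n with
  | zero => simp
  | succ m ih =>
    have h1 : A ^ (m + 1) - B ^ (m + 1) = A ^ m * (A - B) + (A ^ m - B ^ m) * B := by
      rw [pow_succ, pow_succ, mul_sub, sub_mul]
      abel
    have hAm : ‖A ^ m‖ ≤ K ^ m := (norm_pow_le A m).trans (pow_le_pow_left₀ (norm_nonneg _) hA m)
    have hKm : 0 ≤ K ^ m := pow_nonneg hK0 m
    rw [h1]
    calc ‖A ^ m * (A - B) + (A ^ m - B ^ m) * B‖ ≤ ‖A ^ m‖ * ‖A - B‖ + ‖A ^ m - B ^ m‖ * ‖B‖ :=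
          (norm_add_le _ _).trans (add_le_add (norm_mul_le _ _) (norm_mul_le _ _))
      _ ≤ K ^ m * ‖A - B‖ + (m * K ^ m * ‖A - B‖) * K := by
          refine add_le_add (mul_le_mul_of_nonneg_right hAm (norm_nonneg _)) ?_
          exact mul_le_mul ih hB (norm_nonneg _) (mul_nonneg (mul_nonneg (Nat.cast_nonneg _) hKm)
            (norm_nonneg _))
      _ ≤ K ^ m * K * ‖A - B‖ + (m * K ^ m * ‖A - B‖) * K := by
          refine add_le_add (mul_le_mul_of_nonneg_right ?_ (norm_nonneg _)) le_rfl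
          exact le_mul_of_one_le_right hKm hK
      _ = ((m + 1 : ℕ) : ℝ) * K ^ (m + 1) * ‖A - B‖ := by
          push_cast
          ring

private theorem norm_exp_le_h40 {𝔸 : Type*} [NormedRing 𝔸] [NormOneClass 𝔸] [NormedAlgebra ℝ 𝔸]
    [CompleteSpace 𝔸] (x : 𝔸) : ‖exp x‖ ≤ Real.exp ‖x‖ := by
  have h1 : HasSum (fun n : ℕ => ((n.factorial : ℝ)⁻¹) • x ^ n) (exp x) := exp_series_hasSum_exp' x
  have h2 : HasSum (fun n : ℕ => ((n.factorial : ℝ)⁻¹) • ‖x‖ ^ n) (Real.exp ‖x‖) := by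
    rw [Real.exp_eq_exp_ℝ]
    exact exp_series_hasSum_exp' ‖x‖
  rw [← h1.tsum_eq]
  refine tsum_of_norm_bounded h2 fun n => ?_
  rw [norm_smul, smul_eq_mul, Real.norm_of_nonneg (by positivity)]
  exact mul_le_mul_of_nonneg_left (norm_pow_le _ _) (by positivity)

private theorem trotter_h40 {𝔸 : Type*} [NormedRing 𝔸] [NormOneClass 𝔸] [NormedAlgebra ℝ 𝔸]
    [CompleteSpace 𝔸] (X Y : 𝔸) :
    Tendsto (fun n : ℕ => (exp ((n : ℝ)⁻¹ • X) * exp ((n : ℝ)⁻¹ • Y)) ^ n) atTop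
      (𝓝 (exp (X + Y))) := by
  have hd1 : ∀ Z : 𝔸, HasDerivAt (fun t : ℝ => exp (t • Z)) Z 0 := by
    intro Z
    have h := hasDerivAt_exp_smul_const Z (0 : ℝ)
    rwa [zero_smul, exp_zero, one_mul] at h
  have hd : HasDerivAt (fun t : ℝ => exp (t • X) * exp (t • Y) - exp (t • (X + Y))) 0 0 := by
    have h := ((hd1 X).mul (hd1 Y)).sub (hd1 (X + Y))
    rw [zero_smul, zero_smul, exp_zero, mul_one, one_mul, sub_self] at h
    exact h
  have hs := hd.tendsto_slope_zero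
  have hinv : Tendsto (fun n : ℕ => (n : ℝ)⁻¹) atTop (𝓝[≠] 0) := by
    rw [tendsto_nhdsWithin_iff]
    refine ⟨tendsto_inv_atTop_nhds_zero_nat, ?_⟩
    filter_upwards [eventually_gt_atTop 0] with n hn
    simp only [Set.mem_compl_iff, Set.mem_singleton_iff, inv_eq_zero, Nat.cast_eq_zero]
    omega
  have h1 := (hs.comp hinv).norm
  rw [norm_zero] at h1
  obtain ⟨C, hC⟩ : ∃ C : ℝ, C = ‖X‖ + ‖Y‖ := ⟨_, rfl⟩
  have hC0 : 0 ≤ C := by rw [hC]; positivity
  have h2 : Tendsto (fun n : ℕ => (exp ((n : ℝ)⁻¹ • X) * exp ((n : ℝ)⁻¹ • Y)) ^ n - exp (X + Y))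
      atTop (𝓝 0) := by
    rw [tendsto_zero_iff_norm_tendsto_zero]
    have h3 := h1.const_mul (Real.exp C)
    rw [mul_zero] at h3
    refine squeeze_zero' (Eventually.of_forall fun _ => norm_nonneg _) ?_ h3
    filter_upwards [eventually_gt_atTop 0] with n hn
    have hn' : (n : ℝ) ≠ 0 := Nat.cast_ne_zero.2 hn.ne'
    have hnpos : (0 : ℝ) < n := Nat.cast_pos.2 hn
    have e1 : exp (X + Y) = (exp ((n : ℝ)⁻¹ • (X + Y))) ^ n := by
      letI : NormedAlgebra ℚ 𝔸 := NormedAlgebra.restrictScalars ℚ ℝ 𝔸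
      rw [← NormedSpace.exp_nsmul, ← Nat.cast_smul_eq_nsmul ℝ, smul_smul, mul_inv_cancel₀ hn', one_smul]
    have hK : 1 ≤ Real.exp (C / n) := Real.one_le_exp (by positivity)
    have hle : ∀ Z : 𝔸, ‖exp ((n : ℝ)⁻¹ • Z)‖ ≤ Real.exp (‖Z‖ / n) := by
      intro Z
      have h4 := norm_exp_le_h40 ((n : ℝ)⁻¹ • Z)
      rwa [norm_smul, Real.norm_of_nonneg (by positivity), inv_mul_eq_div] at h4
    have hA : ‖exp ((n : ℝ)⁻¹ • X) * exp ((n : ℝ)⁻¹ • Y)‖ ≤ Real.exp (C / n) := by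
      refine (norm_mul_le _ _).trans ?_
      rw [hC, add_div, Real.exp_add]
      exact mul_le_mul (hle X) (hle Y) (norm_nonneg _) (Real.exp_nonneg _)
    have hB : ‖exp ((n : ℝ)⁻¹ • (X + Y))‖ ≤ Real.exp (C / n) := by
      refine (hle _).trans (Real.exp_le_exp.2 ?_)
      rw [hC]
      exact div_le_div_of_nonneg_right (norm_add_le X Y) hnpos.le
    have h4 := pow_sub_le_h40 _ _ hK hA hB n
    rw [e1]
    refine h4.trans (le_of_eq ?_)
    have e2 : Real.exp (C / n) ^ n = Real.exp C := by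
      rw [← Real.exp_nat_mul]
      congr 1
      field_simp
    rw [e2]
    simp only [Function.comp_apply, zero_add, zero_smul, exp_zero, mul_one, sub_self, sub_zero,
      norm_smul, inv_inv, Real.norm_of_nonneg hnpos.le]
    ring
  have h3 := h2.add_const (exp (X + Y))
  simpa only [sub_add_cancel, zero_add] using h3

theorem trotter (X Y : Mat N) :
    Tendsto (fun n : ℕ => (ex ((n : ℝ)⁻¹ • X) * ex ((n : ℝ)⁻¹ • Y)) ^ n) atTop (𝓝 (ex (X + Y))) := by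
  rw [isEmbedding_val.tendsto_nhds_iff]
  show Tendsto (fun n : ℕ => (((ex ((n : ℝ)⁻¹ • X) * ex ((n : ℝ)⁻¹ • Y)) ^ n : GL (Fin N) ℝ) : Mat N))
    atTop (𝓝 ((ex (X + Y) : GL (Fin N) ℝ) : Mat N))
  simp only [Units.val_pow_eq_pow_val, Units.val_mul, ex_coe]
  rcases Nat.eq_zero_or_pos N with h0 | h0
  · subst h0
    refine tendsto_const_nhds.congr fun n => ?_
    exact Subsingleton.elim _ _
  · haveI : Nonempty (Fin N) := ⟨⟨0, h0⟩⟩
    open scoped Matrix.Norms.Operator in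
    exact trotter_h40 X Y

end Pool.Agent.Helper96.SA
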